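import Mathlib

set_option autoImplicit false

namespace Pool.Agent.H54.Bicl

/-- `k` products of bicliques partition `E(K_4) × E(K_n)`. -/
def Good (n k : ℕ) : Prop :=
  ∃ (A B : Fin k → Finset (Fin 4)) (C D : Fin k → Finset (Fin n)),
    (∀ i : Fin k, Disjoint (A i) (B i) ∧ Disjoint (C i) (D i)) ∧
    ∀ x y : Fin 4, ∀ u v : Fin n, x ≠ y → u ≠ v →
      ∃! i : Fin k,
        ((x ∈ A i ∧ y ∈ B i) ∨ (y ∈ A i ∧ x ∈ B i)) ∧
        ((u ∈ C i ∧ v ∈ D i) ∨ (v ∈ C i ∧ u ∈ D i))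

/-- Transfer from arbitrary finite vertex and index types. -/
theorem good_of {V I : Type} [Fintype V] [Fintype I]
    (A B : I → Fin 4 → Prop) (C D : I → V → Prop)
    (h1 : ∀ i x, ¬ (A i x ∧ B i x)) (h2 : ∀ i v, ¬ (C i v ∧ D i v))
    (h3 : ∀ x y : Fin 4, ∀ u v : V, x ≠ y → u ≠ v →
      ∃! i : I, ((A i x ∧ B i y) ∨ (A i y ∧ B i x)) ∧ ((C i u ∧ D i v) ∨ (C i v ∧ D i u)))
    {n : ℕ} (hn : n ≤ Fintype.card V) : Good n (Fintype.card I) := by
  classical
  obtain ⟨e⟩ : Nonempty (Fin n ↪ V) := by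
    rw [Function.Embedding.nonempty_iff_card_le]
    simpa using hn
  let f : I ≃ Fin (Fintype.card I) := Fintype.equivFin I
  refine ⟨fun i => Finset.univ.filter (fun x => A (f.symm i) x),
    fun i => Finset.univ.filter (fun x => B (f.symm i) x),
    fun i => Finset.univ.filter (fun u => C (f.symm i) (e u)),
    fun i => Finset.univ.filter (fun u => D (f.symm i) (e u)), ?_, ?_⟩
  · intro i
    constructor
    · rw [Finset.disjoint_left]
      intro x hx hy
      simp only [Finset.mem_filter, Finset.mem_univ, true_and] at hx hy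
      exact h1 _ _ ⟨hx, hy⟩
    · rw [Finset.disjoint_left]
      intro x hx hy
      simp only [Finset.mem_filter, Finset.mem_univ, true_and] at hx hy
      exact h2 _ _ ⟨hx, hy⟩
  · intro x y u v hxy huv
    obtain ⟨i, hi, hu⟩ := h3 x y (e u) (e v) hxy (fun h => huv (e.injective h))
    refine ⟨f i, ?_, ?_⟩
    · simpa using hi
    · intro j hj
      have := hu (f.symm j) (by simpa using hj)
      rw [← this]; simp

/-- A biclique partition of the graph `G` indexed by `J`. -/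
structure BP {V : Type} (G : V → V → Prop) (J : Type) where
  C : J → V → Prop
  D : J → V → Prop
  disj : ∀ j v, ¬ (C j v ∧ D j v)
  cover : ∀ u v, u ≠ v → G u v → ∃! j, (C j u ∧ D j v) ∨ (C j v ∧ D j u)
  sub : ∀ u v j, ((C j u ∧ D j v) ∨ (C j v ∧ D j u)) → G u v

/-- Star partition from an orientation. -/
def BP.star {V : Type} (G O : V → V → Prop) (J : Type) (c : J → V)
    (hc : Function.Injective c)
    (h1 : ∀ u v, O u v → ∃ j, c j = u)
    (h2 : ∀ u v, O u v → ¬ O v u)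
    (h3 : ∀ u v, u ≠ v → (G u v ↔ (O u v ∨ O v u)))  : BP G J where
  C j v := v = c j
  D j v := O (c j) v
  disj := by
    rintro j v ⟨rfl, h⟩
    exact h2 _ _ h h
  cover := by
    intro u v huv hg
    rcases (h3 u v huv).1 hg with h | h
    · obtain ⟨j, rfl⟩ := h1 _ _ h
      refine ⟨j, Or.inl ⟨rfl, h⟩, ?_⟩
      rintro j' (⟨h4, h5⟩ | ⟨h4, h5⟩)
      · exact hc h4.symm
      · subst h4; exact absurd h5 (h2 _ _ h)
    · obtain ⟨j, rfl⟩ := h1 _ _ h
      refine ⟨j, Or.inr ⟨rfl, h⟩, ?_⟩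
      rintro j' (⟨h4, h5⟩ | ⟨h4, h5⟩)
      · subst h4; exact absurd h5 (h2 _ _ h)
      · exact hc h4.symm
  sub := by
    rintro u v j (⟨rfl, h⟩ | ⟨rfl, h⟩)
    · have : c j ≠ v := by rintro rfl; exact h2 _ _ h h
      exact (h3 _ _ this).2 (Or.inl h)
    · have : u ≠ c j := by rintro rfl; exact h2 _ _ h h
      exact (h3 _ _ this).2 (Or.inr h)

end Pool.Agent.H54.Bicl
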