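import Mathlib
import Pool.Agent.H54.Bicl

set_option autoImplicit false

namespace Pool.Agent.H54.Bicl

/-- side of the `j`-th perfect 4-cycle. -/
def Q (j : Fin 3) (x : Fin 4) : Bool := x.val == 0 || x.val == j.val + 1

def m1 (j : Fin 3) (b : Fin 2) : Fin 4 := if b = 0 then 0 else (if j = 0 then 2 else 1)
def m2 (j : Fin 3) (b : Fin 2) : Fin 4 :=
  if b = 0 then (if j = 0 then 1 else if j = 1 then 2 else 3) else (if j = 2 then 2 else 3)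

theorem edge_key : ∀ x y : Fin 4, x ≠ y → ∃ j : Fin 3, ∃ b : Fin 2,
    (∀ j' : Fin 3, ((Q j' x = true ∧ Q j' y = false) ∨ (Q j' y = true ∧ Q j' x = false)) ↔ j' ≠ j) ∧
    (∀ j' : Fin 3, ∀ b' : Fin 2, ((x = m1 j' b' ∧ y = m2 j' b') ∨ (y = m1 j' b' ∧ x = m2 j' b')) ↔
      (j' = j ∧ b' = b)) := by
  decide

theorem m_ne : ∀ j b, m1 j b ≠ m2 j b := by decide

theorem good_of_parts {V : Type} [Fintype V] (F G : Fin 3 → V → V → Prop)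
    (JF JG : Fin 3 → Type) [∀ j, Fintype (JF j)] [∀ j, Fintype (JG j)]
    (PF : ∀ j, BP (F j) (JF j)) (PG : ∀ j, BP (G j) (JG j))
    (hp : ∀ j, ∀ u v : V, u ≠ v →
      (G j u v ∧ ∀ j', j' ≠ j → ¬ F j' u v) ∨ (¬ G j u v ∧ ∃! j', j' ≠ j ∧ F j' u v))
    {n : ℕ} (hn : n ≤ Fintype.card V) :
    Good n (∑ j, Fintype.card (JF j) + ∑ j, 2 * Fintype.card (JG j)) := by
  classical
  have hc : ∑ j, Fintype.card (JF j) + ∑ j, 2 * Fintype.card (JG j)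
      = Fintype.card ((Σ j : Fin 3, JF j) ⊕ (Σ j : Fin 3, JG j × Fin 2)) := by
    rw [Fintype.card_sum, Fintype.card_sigma, Fintype.card_sigma]
    congr 1
    apply Finset.sum_congr rfl
    intro j _
    rw [Fintype.card_prod, Fintype.card_fin, mul_comm]
  rw [hc]
  refine good_of
    (A := fun i x => match i with
      | Sum.inl ⟨j, _⟩ => Q j x = true
      | Sum.inr ⟨j, (_, b)⟩ => x = m1 j b)
    (B := fun i x => match i with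
      | Sum.inl ⟨j, _⟩ => Q j x = false
      | Sum.inr ⟨j, (_, b)⟩ => x = m2 j b)
    (C := fun i v => match i with
      | Sum.inl ⟨j, t⟩ => (PF j).C t v
      | Sum.inr ⟨j, (t, _)⟩ => (PG j).C t v)
    (D := fun i v => match i with
      | Sum.inl ⟨j, t⟩ => (PF j).D t v
      | Sum.inr ⟨j, (t, _)⟩ => (PG j).D t v) ?_ ?_ ?_ hn
  · rintro (⟨j, t⟩ | ⟨j, t, b⟩) x
    · simp
    · rintro ⟨h, h'⟩
      exact m_ne j b (h.symm.trans h')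
  · rintro (⟨j, t⟩ | ⟨j, t, b⟩) x
    · exact (PF j).disj t x
    · exact (PG j).disj t x
  · intro x y u v hxy huv
    obtain ⟨j, b, hj, hb⟩ := edge_key x y hxy
    rcases hp j u v huv with ⟨hG, hF⟩ | ⟨hG, j', ⟨hj', hF⟩, hu⟩
    · obtain ⟨t, ht, htu⟩ := (PG j).cover u v huv hG
      refine ⟨Sum.inr ⟨j, (t, b)⟩, ⟨(hb j b).2 ⟨rfl, rfl⟩, ht⟩, ?_⟩
      rintro (⟨i, s⟩ | ⟨i, s, c⟩) ⟨h1, h2⟩
      · exact absurd ((PF i).sub _ _ _ h2) (hF i ((hj i).1 h1))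
      · obtain ⟨rfl, rfl⟩ := (hb i c).1 h1
        rw [htu s h2]
    · obtain ⟨t, ht, htu⟩ := (PF j').cover u v huv hF
      refine ⟨Sum.inl ⟨j', t⟩, ⟨(hj j').2 hj', ht⟩, ?_⟩
      rintro (⟨i, s⟩ | ⟨i, s, c⟩) ⟨h1, h2⟩
      · have := hu i ⟨(hj i).1 h1, (PF i).sub _ _ _ h2⟩
        subst this
        rw [htu s h2]
      · obtain ⟨rfl, rfl⟩ := (hb i c).1 h1
        exact absurd ((PG _).sub _ _ _ h2) hG

/-- Vertices: `inl (i,s)` and `inr (i,s)`. -/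
abbrev VV (k : ℕ) : Type := (Fin k × Fin k) ⊕ (Fin k × Fin k)

def O1 {k : ℕ} : VV k → VV k → Prop
  | Sum.inl (i, s), Sum.inl (j, u) => s < u ∨ (s = u ∧ i < j)
  | Sum.inl (_, s), Sum.inr (_, u) => s < u
  | _, _ => False

def O2 {k : ℕ} : VV k → VV k → Prop
  | Sum.inr (_, s), Sum.inl (_, u) => s ≤ u
  | Sum.inr (i, s), Sum.inr (j, u) => i = j ∧ s < u
  | _, _ => False

def O3 {k : ℕ} : VV k → VV k → Prop
  | Sum.inr (i, s), Sum.inr (j, u) => s = u ∧ i < j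
  | _, _ => False

def FF {k : ℕ} (j : Fin 3) (u v : VV k) : Prop :=
  if j = 0 then (O1 u v ∨ O1 v u) else if j = 1 then (O2 u v ∨ O2 v u) else (O3 u v ∨ O3 v u)

def GG {k : ℕ} (j : Fin 3) (u v : VV k) : Prop :=
  match u, v with
  | Sum.inl p, Sum.inl q => j = 0 ∧ p ≠ q
  | Sum.inl (_, s), Sum.inr (_, u) => (j = 0 ∧ s < u) ∨ (j = 1 ∧ u ≤ s)
  | Sum.inr (_, u), Sum.inl (_, s) => (j = 0 ∧ s < u) ∨ (j = 1 ∧ u ≤ s)
  | Sum.inr (i, s), Sum.inr (i', s') =>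
      (j = 0 ∧ i ≠ i' ∧ s ≠ s') ∨ (j = 1 ∧ s ≠ s') ∨ (j = 2 ∧ i ≠ i')

def pf1 (k : ℕ) : BP (fun u v : VV k => O1 u v ∨ O1 v u) (Fin k × Fin k) :=
  BP.star _ O1 _ Sum.inl Sum.inl_injective
    (by
      rintro (⟨i, s⟩ | ⟨i, s⟩) (⟨j, u⟩ | ⟨j, u⟩) h <;> simp [O1] at h ⊢)
    (by
      rintro (⟨i, s⟩ | ⟨i, s⟩) (⟨j, u⟩ | ⟨j, u⟩) h <;> simp only [O1] at h ⊢ <;>
        (try simp only [not_false_eq_true]) <;> omega)
    (fun _ _ _ => Iff.rfl)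

def pf2 (k : ℕ) : BP (fun u v : VV k => O2 u v ∨ O2 v u) (Fin k × Fin k) :=
  BP.star _ O2 _ Sum.inr Sum.inr_injective
    (by
      rintro (⟨i, s⟩ | ⟨i, s⟩) (⟨j, u⟩ | ⟨j, u⟩) h <;> simp [O2] at h ⊢)
    (by
      rintro (⟨i, s⟩ | ⟨i, s⟩) (⟨j, u⟩ | ⟨j, u⟩) h <;> simp only [O2] at h ⊢ <;>
        (try simp only [not_false_eq_true]) <;> omega)
    (fun _ _ _ => Iff.rfl)

def pf3 (k : ℕ) : BP (fun u v : VV k => O3 u v ∨ O3 v u) (Fin k × Fin k) :=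
  BP.star _ O3 _ Sum.inr Sum.inr_injective
    (by
      rintro (⟨i, s⟩ | ⟨i, s⟩) (⟨j, u⟩ | ⟨j, u⟩) h <;> simp [O3] at h ⊢)
    (by
      rintro (⟨i, s⟩ | ⟨i, s⟩) (⟨j, u⟩ | ⟨j, u⟩) h <;> simp only [O3] at h ⊢ <;>
        (try simp only [not_false_eq_true]) <;> omega)
    (fun _ _ _ => Iff.rfl)

end Pool.Agent.H54.Bicl
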