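import Mathlib
import Pool.Agent.H54.Bicl2

set_option autoImplicit false

namespace Pool.Agent.H54.Bicl

def C0 {k : ℕ} : (Fin k × Fin k) ⊕ Fin k → VV k → Prop
  | Sum.inl (i, s), Sum.inl (j, u) => j = i ∧ u = s
  | Sum.inl (i, s), Sum.inr (j, u) => j ≠ i ∧ u = s
  | Sum.inr i, Sum.inl (j, _) => j = i
  | Sum.inr _, Sum.inr _ => False

def D0 {k : ℕ} : (Fin k × Fin k) ⊕ Fin k → VV k → Prop
  | Sum.inl (i, s), Sum.inl (j, u) => j = i ∧ u < s
  | Sum.inl (i, s), Sum.inr (j, u) => j = i ∧ s < u
  | Sum.inr i, Sum.inl (j, _) => i < j
  | Sum.inr _, Sum.inr _ => False

theorem cover0 {k : ℕ} (u v : VV k) (h : GG 0 u v) :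
    ∃! j, (C0 j u ∧ D0 j v) ∨ (C0 j v ∧ D0 j u) := by
  rcases u with ⟨i, s⟩ | ⟨i, s⟩ <;> rcases v with ⟨j, t⟩ | ⟨j, t⟩ <;>
    simp only [GG, true_and, ne_eq, Prod.mk.injEq, zero_ne_one, false_and, or_false,
      show ((0 : Fin 3) = 2) = False by decide] at h
  · by_cases hij : i = j
    · subst hij
      rcases lt_trichotomy s t with hst | hst | hst
      · refine ⟨Sum.inl (i, t), ?_, ?_⟩
        · simp only [C0, D0, true_and, and_true, false_and, and_false, or_false, false_or, not_true_eq_false, not_false_eq_true, ne_eq, or_true, true_or, or_self, lt_self_iff_false, implies_true] <;> omega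
        · rintro (⟨a, b⟩ | a) hh
          · simp only [C0, D0, true_and, and_true, false_and, and_false, or_false, false_or, not_true_eq_false, not_false_eq_true, ne_eq, or_true, true_or, or_self, lt_self_iff_false, implies_true] at hh <;>
            (try simp only [Sum.inl.injEq, Prod.mk.injEq]) <;> omega
          · simp only [C0, D0, true_and, and_true, false_and, and_false, or_false, false_or, not_true_eq_false, not_false_eq_true, ne_eq, or_true, true_or, or_self, lt_self_iff_false, implies_true] at hh <;> omega
      · exact absurd ⟨rfl, hst⟩ h
      · refine ⟨Sum.inl (i, s), ?_, ?_⟩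
        · simp only [C0, D0, true_and, and_true, false_and, and_false, or_false, false_or, not_true_eq_false, not_false_eq_true, ne_eq, or_true, true_or, or_self, lt_self_iff_false, implies_true] <;> omega
        · rintro (⟨a, b⟩ | a) hh
          · simp only [C0, D0, true_and, and_true, false_and, and_false, or_false, false_or, not_true_eq_false, not_false_eq_true, ne_eq, or_true, true_or, or_self, lt_self_iff_false, implies_true] at hh <;>
            (try simp only [Sum.inl.injEq, Prod.mk.injEq]) <;> omega
          · simp only [C0, D0, true_and, and_true, false_and, and_false, or_false, false_or, not_true_eq_false, not_false_eq_true, ne_eq, or_true, true_or, or_self, lt_self_iff_false, implies_true] at hh <;> omega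
    · rcases lt_or_gt_of_ne hij with h1 | h1
      · refine ⟨Sum.inr i, ?_, ?_⟩
        · simp only [C0, D0, true_and, and_true, false_and, and_false, or_false, false_or, not_true_eq_false, not_false_eq_true, ne_eq, or_true, true_or, or_self, lt_self_iff_false, implies_true] <;> omega
        · rintro (⟨a, b⟩ | a) hh
          · simp only [C0, D0, true_and, and_true, false_and, and_false, or_false, false_or, not_true_eq_false, not_false_eq_true, ne_eq, or_true, true_or, or_self, lt_self_iff_false, implies_true] at hh <;> omega
          · simp only [C0, D0, true_and, and_true, false_and, and_false, or_false, false_or, not_true_eq_false, not_false_eq_true, ne_eq, or_true, true_or, or_self, lt_self_iff_false, implies_true] at hh <;>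
            (try simp only [Sum.inr.injEq]) <;> omega
      · refine ⟨Sum.inr j, ?_, ?_⟩
        · simp only [C0, D0, true_and, and_true, false_and, and_false, or_false, false_or, not_true_eq_false, not_false_eq_true, ne_eq, or_true, true_or, or_self, lt_self_iff_false, implies_true] <;> omega
        · rintro (⟨a, b⟩ | a) hh
          · simp only [C0, D0, true_and, and_true, false_and, and_false, or_false, false_or, not_true_eq_false, not_false_eq_true, ne_eq, or_true, true_or, or_self, lt_self_iff_false, implies_true] at hh <;> omega
          · simp only [C0, D0, true_and, and_true, false_and, and_false, or_false, false_or, not_true_eq_false, not_false_eq_true, ne_eq, or_true, true_or, or_self, lt_self_iff_false, implies_true] at hh <;>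
            (try simp only [Sum.inr.injEq]) <;> omega
  · by_cases hij : i = j
    · subst hij
      refine ⟨Sum.inl (i, s), ?_, ?_⟩
      · simp only [C0, D0, true_and, and_true, false_and, and_false, or_false, false_or, not_true_eq_false, not_false_eq_true, ne_eq, or_true, true_or, or_self, lt_self_iff_false, implies_true] <;> omega
      · rintro (⟨a, b⟩ | a) hh
        · simp only [C0, D0, true_and, and_true, false_and, and_false, or_false, false_or, not_true_eq_false, not_false_eq_true, ne_eq, or_true, true_or, or_self, lt_self_iff_false, implies_true] at hh <;>
          (try simp only [Sum.inl.injEq, Prod.mk.injEq]) <;> omega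
        · simp only [C0, D0, true_and, and_true, false_and, and_false, or_false, false_or, not_true_eq_false, not_false_eq_true, ne_eq, or_true, true_or, or_self, lt_self_iff_false, implies_true] at hh <;> omega
    · refine ⟨Sum.inl (i, t), ?_, ?_⟩
      · simp only [C0, D0, true_and, and_true, false_and, and_false, or_false, false_or, not_true_eq_false, not_false_eq_true, ne_eq, or_true, true_or, or_self, lt_self_iff_false, implies_true] <;> omega
      · rintro (⟨a, b⟩ | a) hh
        · simp only [C0, D0, true_and, and_true, false_and, and_false, or_false, false_or, not_true_eq_false, not_false_eq_true, ne_eq, or_true, true_or, or_self, lt_self_iff_false, implies_true] at hh <;>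
          (try simp only [Sum.inl.injEq, Prod.mk.injEq]) <;> omega
        · simp only [C0, D0, true_and, and_true, false_and, and_false, or_false, false_or, not_true_eq_false, not_false_eq_true, ne_eq, or_true, true_or, or_self, lt_self_iff_false, implies_true] at hh <;> omega
  · by_cases hij : i = j
    · subst hij
      refine ⟨Sum.inl (i, t), ?_, ?_⟩
      · simp only [C0, D0, true_and, and_true, false_and, and_false, or_false, false_or, not_true_eq_false, not_false_eq_true, ne_eq, or_true, true_or, or_self, lt_self_iff_false, implies_true] <;> omega
      · rintro (⟨a, b⟩ | a) hh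
        · simp only [C0, D0, true_and, and_true, false_and, and_false, or_false, false_or, not_true_eq_false, not_false_eq_true, ne_eq, or_true, true_or, or_self, lt_self_iff_false, implies_true] at hh <;>
          (try simp only [Sum.inl.injEq, Prod.mk.injEq]) <;> omega
        · simp only [C0, D0, true_and, and_true, false_and, and_false, or_false, false_or, not_true_eq_false, not_false_eq_true, ne_eq, or_true, true_or, or_self, lt_self_iff_false, implies_true] at hh <;> omega
    · refine ⟨Sum.inl (j, s), ?_, ?_⟩
      · simp only [C0, D0, true_and, and_true, false_and, and_false, or_false, false_or, not_true_eq_false, not_false_eq_true, ne_eq, or_true, true_or, or_self, lt_self_iff_false, implies_true] <;> omega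
      · rintro (⟨a, b⟩ | a) hh
        · simp only [C0, D0, true_and, and_true, false_and, and_false, or_false, false_or, not_true_eq_false, not_false_eq_true, ne_eq, or_true, true_or, or_self, lt_self_iff_false, implies_true] at hh <;>
          (try simp only [Sum.inl.injEq, Prod.mk.injEq]) <;> omega
        · simp only [C0, D0, true_and, and_true, false_and, and_false, or_false, false_or, not_true_eq_false, not_false_eq_true, ne_eq, or_true, true_or, or_self, lt_self_iff_false, implies_true] at hh <;> omega
  · rcases lt_or_gt_of_ne h.2 with h1 | h1
    · refine ⟨Sum.inl (j, s), ?_, ?_⟩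
      · simp only [C0, D0, true_and, and_true, false_and, and_false, or_false, false_or, not_true_eq_false, not_false_eq_true, ne_eq, or_true, true_or, or_self, lt_self_iff_false, implies_true] <;> omega
      · rintro (⟨a, b⟩ | a) hh
        · simp only [C0, D0, true_and, and_true, false_and, and_false, or_false, false_or, not_true_eq_false, not_false_eq_true, ne_eq, or_true, true_or, or_self, lt_self_iff_false, implies_true] at hh <;>
          (try simp only [Sum.inl.injEq, Prod.mk.injEq]) <;> omega
        · simp only [C0, D0, true_and, and_true, false_and, and_false, or_false, false_or, not_true_eq_false, not_false_eq_true, ne_eq, or_true, true_or, or_self, lt_self_iff_false, implies_true] at hh <;> omega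
    · refine ⟨Sum.inl (i, t), ?_, ?_⟩
      · simp only [C0, D0, true_and, and_true, false_and, and_false, or_false, false_or, not_true_eq_false, not_false_eq_true, ne_eq, or_true, true_or, or_self, lt_self_iff_false, implies_true] <;> omega
      · rintro (⟨a, b⟩ | a) hh
        · simp only [C0, D0, true_and, and_true, false_and, and_false, or_false, false_or, not_true_eq_false, not_false_eq_true, ne_eq, or_true, true_or, or_self, lt_self_iff_false, implies_true] at hh <;>
          (try simp only [Sum.inl.injEq, Prod.mk.injEq]) <;> omega
        · simp only [C0, D0, true_and, and_true, false_and, and_false, or_false, false_or, not_true_eq_false, not_false_eq_true, ne_eq, or_true, true_or, or_self, lt_self_iff_false, implies_true] at hh <;> omega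

def pg0 (k : ℕ) : BP (GG (k := k) 0) ((Fin k × Fin k) ⊕ Fin k) where
  C := C0
  D := D0
  disj := by
    rintro (⟨a, b⟩ | a) (⟨j, u⟩ | ⟨j, u⟩) <;> simp only [C0, D0, true_and, and_true, false_and, and_false, or_false, false_or, not_true_eq_false, not_false_eq_true, ne_eq, or_true, true_or, or_self, lt_self_iff_false, implies_true] <;> omega
  cover := fun u v _ h => cover0 u v h
  sub := by
    rintro (⟨i, s⟩ | ⟨i, s⟩) (⟨j, t⟩ | ⟨j, t⟩) (⟨a, b⟩ | a) h <;> simp only [C0, D0, true_and, and_true, false_and, and_false, or_false, false_or, not_true_eq_false, not_false_eq_true, ne_eq, or_true, true_or, or_self, lt_self_iff_false, implies_true] at h <;>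
      simp only [GG, Prod.mk.injEq, true_and, and_true, false_and, and_false, or_false, false_or, not_true_eq_false, not_false_eq_true, ne_eq, or_true, true_or, or_self, lt_self_iff_false, implies_true] <;> omega

def C1 {k : ℕ} : Fin k → VV k → Prop
  | _, Sum.inl _ => False
  | s, Sum.inr (_, u) => u = s

def D1 {k : ℕ} : Fin k → VV k → Prop
  | s, Sum.inl (_, u) => s ≤ u
  | s, Sum.inr (_, u) => s < u

def pg1 (k : ℕ) : BP (GG (k := k) 1) (Fin k) where
  C := C1
  D := D1
  disj := by
    rintro a (⟨j, u⟩ | ⟨j, u⟩) <;> simp only [C1, D1, true_and, and_true, false_and, and_false, or_false, false_or, not_true_eq_false, not_false_eq_true, ne_eq, or_true, true_or, or_self, lt_self_iff_false, implies_true] <;> omega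
  cover := by
    rintro (⟨i, s⟩ | ⟨i, s⟩) (⟨j, t⟩ | ⟨j, t⟩) _ h <;>
      simp only [GG, true_and, ne_eq, Prod.mk.injEq, one_ne_zero, false_and, false_or, or_false,
      show ((1 : Fin 3) = 2) = False by decide] at h
    · refine ⟨t, ?_, ?_⟩
      · simp only [C1, D1, true_and, and_true, false_and, and_false, or_false, false_or, not_true_eq_false, not_false_eq_true, ne_eq, or_true, true_or, or_self, lt_self_iff_false, implies_true] <;> omega
      · intro a hh
        simp only [C1, D1, true_and, and_true, false_and, and_false, or_false, false_or, not_true_eq_false, not_false_eq_true, ne_eq, or_true, true_or, or_self, lt_self_iff_false, implies_true] at hh <;> omega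
    · refine ⟨s, ?_, ?_⟩
      · simp only [C1, D1, true_and, and_true, false_and, and_false, or_false, false_or, not_true_eq_false, not_false_eq_true, ne_eq, or_true, true_or, or_self, lt_self_iff_false, implies_true] <;> omega
      · intro a hh
        simp only [C1, D1, true_and, and_true, false_and, and_false, or_false, false_or, not_true_eq_false, not_false_eq_true, ne_eq, or_true, true_or, or_self, lt_self_iff_false, implies_true] at hh <;> omega
    · rcases lt_or_gt_of_ne h with h1 | h1
      · refine ⟨s, ?_, ?_⟩
        · simp only [C1, D1, true_and, and_true, false_and, and_false, or_false, false_or, not_true_eq_false, not_false_eq_true, ne_eq, or_true, true_or, or_self, lt_self_iff_false, implies_true] <;> omega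
        · intro a hh
          simp only [C1, D1, true_and, and_true, false_and, and_false, or_false, false_or, not_true_eq_false, not_false_eq_true, ne_eq, or_true, true_or, or_self, lt_self_iff_false, implies_true] at hh <;> omega
      · refine ⟨t, ?_, ?_⟩
        · simp only [C1, D1, true_and, and_true, false_and, and_false, or_false, false_or, not_true_eq_false, not_false_eq_true, ne_eq, or_true, true_or, or_self, lt_self_iff_false, implies_true] <;> omega
        · intro a hh
          simp only [C1, D1, true_and, and_true, false_and, and_false, or_false, false_or, not_true_eq_false, not_false_eq_true, ne_eq, or_true, true_or, or_self, lt_self_iff_false, implies_true] at hh <;> omega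
  sub := by
    rintro (⟨i, s⟩ | ⟨i, s⟩) (⟨j, t⟩ | ⟨j, t⟩) a h <;> simp only [C1, D1, true_and, and_true, false_and, and_false, or_false, false_or, not_true_eq_false, not_false_eq_true, ne_eq, or_true, true_or, or_self, lt_self_iff_false, implies_true] at h <;>
      simp only [GG, Prod.mk.injEq, true_and, and_true, false_and, and_false, or_false, false_or, not_true_eq_false, not_false_eq_true, ne_eq, or_true, true_or, or_self, lt_self_iff_false, implies_true] <;> omega

def C2 {k : ℕ} : Fin k → VV k → Prop
  | _, Sum.inl _ => False
  | i, Sum.inr (j, _) => j = i

def D2 {k : ℕ} : Fin k → VV k → Prop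
  | _, Sum.inl _ => False
  | i, Sum.inr (j, _) => i < j

def pg2 (k : ℕ) : BP (GG (k := k) 2) (Fin k) where
  C := C2
  D := D2
  disj := by
    rintro a (⟨j, u⟩ | ⟨j, u⟩) <;> simp only [C2, D2, true_and, and_true, false_and, and_false, or_false, false_or, not_true_eq_false, not_false_eq_true, ne_eq, or_true, true_or, or_self, lt_self_iff_false, implies_true] <;> omega
  cover := by
    rintro (⟨i, s⟩ | ⟨i, s⟩) (⟨j, t⟩ | ⟨j, t⟩) _ h <;>
      simp only [GG, true_and, ne_eq, Prod.mk.injEq, false_and, false_or, or_false,
      show ((2 : Fin 3) = 0) = False by decide, show ((2 : Fin 3) = 1) = False by decide] at h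
    · rcases lt_or_gt_of_ne h with h1 | h1
      · refine ⟨i, ?_, ?_⟩
        · simp only [C2, D2, true_and, and_true, false_and, and_false, or_false, false_or, not_true_eq_false, not_false_eq_true, ne_eq, or_true, true_or, or_self, lt_self_iff_false, implies_true] <;> omega
        · intro a hh
          simp only [C2, D2, true_and, and_true, false_and, and_false, or_false, false_or, not_true_eq_false, not_false_eq_true, ne_eq, or_true, true_or, or_self, lt_self_iff_false, implies_true] at hh <;> omega
      · refine ⟨j, ?_, ?_⟩
        · simp only [C2, D2, true_and, and_true, false_and, and_false, or_false, false_or, not_true_eq_false, not_false_eq_true, ne_eq, or_true, true_or, or_self, lt_self_iff_false, implies_true] <;> omega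
        · intro a hh
          simp only [C2, D2, true_and, and_true, false_and, and_false, or_false, false_or, not_true_eq_false, not_false_eq_true, ne_eq, or_true, true_or, or_self, lt_self_iff_false, implies_true] at hh <;> omega
  sub := by
    rintro (⟨i, s⟩ | ⟨i, s⟩) (⟨j, t⟩ | ⟨j, t⟩) a h <;> simp only [C2, D2, true_and, and_true, false_and, and_false, or_false, false_or, not_true_eq_false, not_false_eq_true, ne_eq, or_true, true_or, or_self, lt_self_iff_false, implies_true] at h <;>
      simp only [GG, Prod.mk.injEq, true_and, and_true, false_and, and_false, or_false, false_or, not_true_eq_false, not_false_eq_true, ne_eq, or_true, true_or, or_self, lt_self_iff_false, implies_true] <;> omega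

end Pool.Agent.H54.Bicl
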