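import Mathlib
import Pool.Agent.H54.Bicl3

set_option autoImplicit false

namespace Pool.Agent.H54.Bicl

def JFt (k : ℕ) (_ : Fin 3) : Type := Fin k × Fin k

def JGt (k : ℕ) : Fin 3 → Type
  | ⟨0, _⟩ => (Fin k × Fin k) ⊕ Fin k
  | ⟨_ + 1, _⟩ => Fin k

instance (k : ℕ) (j : Fin 3) : Fintype (JFt k j) := inferInstanceAs (Fintype (Fin k × Fin k))

instance (k : ℕ) : ∀ j : Fin 3, Fintype (JGt k j)
  | ⟨0, _⟩ => inferInstanceAs (Fintype ((Fin k × Fin k) ⊕ Fin k))
  | ⟨_ + 1, _⟩ => inferInstanceAs (Fintype (Fin k))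

def PFt (k : ℕ) : ∀ j : Fin 3, BP (FF (k := k) j) (JFt k j)
  | ⟨0, _⟩ => pf1 k
  | ⟨1, _⟩ => pf2 k
  | ⟨2, _⟩ => pf3 k

def PGt (k : ℕ) : ∀ j : Fin 3, BP (GG (k := k) j) (JGt k j)
  | ⟨0, _⟩ => pg0 k
  | ⟨1, _⟩ => pg1 k
  | ⟨2, _⟩ => pg2 k

theorem color_key {k : ℕ} (u v : VV k) (huv : u ≠ v) :
    (∃ c : Fin 3, (∀ j', FF j' u v ↔ j' = c) ∧ (∀ j, GG j u v ↔ j = c)) ∨
      ((∀ j', ¬ FF j' u v) ∧ ∀ j, GG j u v) := by
  rcases u with ⟨i, s⟩ | ⟨i, s⟩ <;> rcases v with ⟨i', s'⟩ | ⟨i', s'⟩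
  · have h : ¬ (i = i' ∧ s = s') := by
      rintro ⟨rfl, rfl⟩; exact huv rfl
    refine Or.inl ⟨0, ?_, ?_⟩
    · intro j
      fin_cases j
      · simp [FF, O1]; omega
      · simp [FF, O2]
      · simp [FF, O3]
    · intro j
      simp only [GG, ne_eq, Prod.mk.injEq]
      tauto
  · by_cases h : s < s'
    · refine Or.inl ⟨0, ?_, ?_⟩
      · intro j
        fin_cases j
        · simp [FF, O1, h]
        · simp [FF, O2, h]
        · simp [FF, O3]
      · intro j
        have h' : ¬ s' ≤ s := not_le.2 h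
        simp [GG, h, h']
    · have h' : s' ≤ s := not_lt.1 h
      refine Or.inl ⟨1, ?_, ?_⟩
      · intro j
        fin_cases j
        · simp [FF, O1, h']
        · simp [FF, O2, h']
        · simp [FF, O3]
      · intro j
        simp [GG, h, h']
  · by_cases h : s' < s
    · refine Or.inl ⟨0, ?_, ?_⟩
      · intro j
        fin_cases j
        · simp [FF, O1, h]
        · simp [FF, O2, h]
        · simp [FF, O3]
      · intro j
        have h' : ¬ s ≤ s' := not_le.2 h
        simp [GG, h, h']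
    · have h' : s ≤ s' := not_lt.1 h
      refine Or.inl ⟨1, ?_, ?_⟩
      · intro j
        fin_cases j
        · simp [FF, O1, h']
        · simp [FF, O2, h']
        · simp [FF, O3]
      · intro j
        simp [GG, h, h']
  · have h : ¬ (i = i' ∧ s = s') := by
      rintro ⟨rfl, rfl⟩; exact huv rfl
    by_cases hi : i = i'
    · subst hi
      have hs : s ≠ s' := fun e => h ⟨rfl, e⟩
      refine Or.inl ⟨1, ?_, ?_⟩
      · intro j
        fin_cases j
        · simp [FF, O1]
        · simp [FF, O2]; omega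
        · simp [FF, O3]
      · intro j
        simp [GG, hs]
    · by_cases hs : s = s'
      · subst hs
        refine Or.inl ⟨2, ?_, ?_⟩
        · intro j
          fin_cases j
          · simp [FF, O1]
          · simp [FF, O2]
          · simp [FF, O3]; omega
        · intro j
          simp [GG, hi]
      · refine Or.inr ⟨?_, ?_⟩
        · intro j
          fin_cases j
          · simp [FF, O1]
          · simp [FF, O2]; omega
          · simp [FF, O3]; omega
        · intro j
          fin_cases j <;> simp [GG, hi, hs]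

theorem parts_key {k : ℕ} (j : Fin 3) (u v : VV k) (huv : u ≠ v) :
    (GG j u v ∧ ∀ j', j' ≠ j → ¬ FF j' u v) ∨ (¬ GG j u v ∧ ∃! j', j' ≠ j ∧ FF j' u v) := by
  rcases color_key u v huv with ⟨c, hF, hG⟩ | ⟨hF, hG⟩
  · by_cases hj : j = c
    · subst hj
      exact Or.inl ⟨(hG j).2 rfl, fun j' h1 h2 => h1 ((hF j').1 h2)⟩
    · exact Or.inr ⟨fun h => hj ((hG j).1 h), c, ⟨fun h => hj h.symm, (hF c).2 rfl⟩,
        fun j' h => (hF j').1 h.2⟩
  · exact Or.inl ⟨hG j, fun j' _ => hF j'⟩

theorem good_main (k n : ℕ) (hn : n ≤ 2 * k ^ 2) : Good n (5 * k ^ 2 + 6 * k) := by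
  have h := good_of_parts (V := VV k) (FF (k := k)) (GG (k := k)) (JFt k) (JGt k) (PFt k) (PGt k)
    parts_key (n := n) (by
      rw [Fintype.card_sum, Fintype.card_prod, Fintype.card_fin]
      nlinarith)
  have e : ∑ j, Fintype.card (JFt k j) + ∑ j, 2 * Fintype.card (JGt k j) = 5 * k ^ 2 + 6 * k := by
    have e1 : ∀ j, Fintype.card (JFt k j) = k * k := by
      intro j
      change Fintype.card (Fin k × Fin k) = _
      simp
    have e2 : Fintype.card (JGt k 0) = k * k + k := by
      change Fintype.card ((Fin k × Fin k) ⊕ Fin k) = _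
      simp
    have e3 : Fintype.card (JGt k 1) = k := by
      change Fintype.card (Fin k) = _
      simp
    have e4 : Fintype.card (JGt k 2) = k := by
      change Fintype.card (Fin k) = _
      simp
    rw [Fin.sum_univ_three, Fin.sum_univ_three, e1, e1, e1, e2, e3, e4]
    ring
  rwa [e] at h

end Pool.Agent.H54.Bicl
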