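import Pool.Agent.H54.MonoLemmas

set_option autoImplicit false

namespace Pool.Agent.H54.Mono

open SimpleGraph

section graph

variable {V : Type} {G : SimpleGraph V}

theorem mkPath {k : ℕ} (f : Fin k → V) (hinj : Function.Injective f)
    (hadj : ∀ i j : Fin k, G.Adj (f i) (f j) ↔ (i.val + 1 = j.val ∨ j.val + 1 = i.val))
    (i j l : Fin k) : OnPath G (f i) (f j) (f l) := by
  refine ⟨k, ⟨⟨f, hinj⟩, ?_⟩, ⟨i, rfl⟩, ⟨j, rfl⟩, ⟨l, rfl⟩⟩
  intro a b
  rw [pathGraph_adj]
  exact hadj a b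

theorem onPath3 {x y z : V} (h1 : G.Adj x y) (h2 : G.Adj y z) (h3 : ¬ G.Adj x z) (hxz : x ≠ z) :
    OnPath G x y z := by
  have hxy := h1.ne
  have hyz := h2.ne
  refine mkPath (k := 3) ![x, y, z] ?_ ?_ 0 1 2
  · intro i j hij
    fin_cases i <;> fin_cases j <;> simp at hij ⊢ <;> simp_all
  · have h1' := h1.symm
    have h2' := h2.symm
    have h3' : ¬ G.Adj z x := fun h => h3 h.symm
    intro i j
    fin_cases i <;> fin_cases j <;> simp [h1, h2, h3, h1', h2', h3']

theorem onPath4 {a b c d : V} (h1 : G.Adj a b) (h2 : G.Adj b c) (h3 : G.Adj c d)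
    (h4 : ¬ G.Adj a c) (h5 : ¬ G.Adj a d) (h6 : ¬ G.Adj b d) (hbd : b ≠ d) (had : a ≠ d) :
    OnPath G a b d := by
  have e1 := h1.ne
  have e2 := h2.ne
  have e3 := h3.ne
  have hac : a ≠ c := by rintro rfl; exact h5 h3
  refine mkPath (k := 4) ![a, b, c, d] ?_ ?_ 0 1 3
  · intro i j hij
    fin_cases i <;> fin_cases j <;> simp at hij ⊢ <;> simp_all
  · have h1' := h1.symm
    have h2' := h2.symm
    have h3' := h3.symm
    have h4' : ¬ G.Adj c a := fun h => h4 h.symm
    have h5' : ¬ G.Adj d a := fun h => h5 h.symm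
    have h6' : ¬ G.Adj d b := fun h => h6 h.symm
    intro i j
    fin_cases i <;> fin_cases j <;> simp [h1, h2, h3, h4, h5, h6, h1', h2', h3', h4', h5', h6']

theorem onPath5 {a b c d e : V} (h1 : G.Adj a b) (h2 : G.Adj b c) (h3 : G.Adj c d)
    (h4 : G.Adj d e) (n1 : ¬ G.Adj a c) (n2 : ¬ G.Adj a d) (n3 : ¬ G.Adj a e)
    (n4 : ¬ G.Adj b d) (n5 : ¬ G.Adj b e) (n6 : ¬ G.Adj c e)
    (hac : a ≠ c) (hae : a ≠ e) (hce : c ≠ e) :
    OnPath G a c e := by
  have e1 := h1.ne
  have e2 := h2.ne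
  have e3 := h3.ne
  have e4 := h4.ne
  have had : a ≠ d := by rintro rfl; exact n3 h4
  have hbd : b ≠ d := by rintro rfl; exact n2 h1
  have hbe : b ≠ e := by rintro rfl; exact n3 h1
  refine mkPath (k := 5) ![a, b, c, d, e] ?_ ?_ 0 2 4
  · intro i j hij
    fin_cases i <;> fin_cases j <;> simp at hij ⊢ <;> simp_all
  · have h1' := h1.symm
    have h2' := h2.symm
    have h3' := h3.symm
    have h4' := h4.symm
    have n1' : ¬ G.Adj c a := fun h => n1 h.symm
    have n2' : ¬ G.Adj d a := fun h => n2 h.symm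
    have n3' : ¬ G.Adj e a := fun h => n3 h.symm
    have n4' : ¬ G.Adj d b := fun h => n4 h.symm
    have n5' : ¬ G.Adj e b := fun h => n5 h.symm
    have n6' : ¬ G.Adj e c := fun h => n6 h.symm
    intro i j
    fin_cases i <;> fin_cases j <;> simp [h1, h2, h3, h4, n1, n2, n3, n4, n5, n6,
      h1', h2', h3', h4', n1', n2', n3', n4', n5', n6']

theorem main_graph [Fintype V]
    (tf : ∀ x y z, G.Adj x y → G.Adj y z → G.Adj x z → False)
    (cn : ∀ x y, x ≠ y → ¬ G.Adj x y → ∃ w, G.Adj x w ∧ G.Adj w y)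
    (ind : ∀ x y z, x ≠ y → x ≠ z → y ≠ z → ¬ G.Adj x y → ¬ G.Adj x z → ¬ G.Adj y z →
      OnPath G x y z)
    (a b : V) (hab : a ≠ b) (hnab : ¬ G.Adj a b) : mp G = 2 ∧ G.diam = 2 := by
  refine ⟨mp_eq_two a b hab ?_, diam_eq_two a b hab hnab cn⟩
  -- one edge `x y`, third vertex far
  have one : ∀ x y z, x ≠ z → y ≠ z → G.Adj x y → ¬ G.Adj x z → ¬ G.Adj y z →
      OnPath G x y z := by
    intro x y z hxz hyz h1 h2 h3
    obtain ⟨w, hw1, hw2⟩ := cn y z hyz h3
    exact onPath4 h1 hw1 hw2 (fun h => tf x y w h1 hw1 h) h2 h3 hyz hxz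
  intro x y z hxy hxz hyz
  by_cases h1 : G.Adj x y <;> by_cases h2 : G.Adj x z <;> by_cases h3 : G.Adj y z
  · exact (tf x y z h1 h3 h2).elim
  · exact (onPath3 h1.symm h2 h3 hyz).swap12
  · exact onPath3 h1 h3 h2 hxz
  · exact one x y z hxz hyz h1 h2 h3
  · exact (onPath3 h2 h3.symm h1 hxy).swap23
  · exact (one x z y hxy hyz.symm h2 h1 (fun h => h3 h.symm)).swap23
  · exact (one y z x hxy.symm hxz.symm h3 (fun h => h1 h.symm) (fun h => h2 h.symm)).rot.rot
  · exact ind x y z hxy hxz hyz h1 h2 h3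

end graph

/-- distance of two natural numbers -/
def d (a b : ℕ) : ℕ := (a - b) + (b - a)

section circ

variable {n : ℕ} [NeZero n] {P : ℕ → Prop}

/-- the circulant graph of order `n` whose jumps have residues satisfying `P` -/
def CG (n : ℕ) (P : ℕ → Prop) : SimpleGraph (ZMod n) := circulantGraph {x : ZMod n | P x.val}

theorem cg_adj (h0 : ¬ P 0) (hs : ∀ x, 0 < x → x < n → P x → P (n - x)) (u : ZMod n) (a b : ℕ)
    (ha : a < n) (hb : b < n) : (CG n P).Adj (u + a) (u + b) ↔ P (d a b) := by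
  have hv : ∀ a b : ℕ, a < n → b ≤ a → ((u + a) - (u + b) : ZMod n).val = a - b := by
    intro a b ha hab
    have : ((u + a) - (u + b) : ZMod n) = ((a - b : ℕ) : ZMod n) := by
      rw [Nat.cast_sub hab]; ring
    rw [this, ZMod.val_natCast_of_lt (by omega)]
  have hv' : ∀ a b : ℕ, a < n → b < a → ((u + b) - (u + a) : ZMod n).val = n - (a - b) := by
    intro a b ha hab
    have h1 : ((u + b) - (u + a) : ZMod n) = -((a - b : ℕ) : ZMod n) := by
      rw [Nat.cast_sub hab.le]; ring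
    have h2 : ((a - b : ℕ) : ZMod n) ≠ 0 := by
      intro h
      have := congrArg ZMod.val h
      rw [ZMod.val_natCast_of_lt (by omega), ZMod.val_zero] at this
      omega
    rw [h1, ZMod.neg_val, if_neg h2, ZMod.val_natCast_of_lt (by omega)]
  have key : ∀ a b : ℕ, a < n → b < n → b < a →
      ((CG n P).Adj (u + a) (u + b) ↔ P (a - b)) := by
    intro a b ha hb hab
    simp only [CG, circulantGraph, fromRel_adj, Set.mem_ofPred_eq]
    rw [hv a b ha hab.le, hv' a b ha hab]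
    constructor
    · rintro ⟨_, h | h⟩
      · exact h
      · have := hs _ (by omega) (by omega) h
        rwa [show n - (n - (a - b)) = a - b by omega] at this
    · intro h
      refine ⟨?_, Or.inl h⟩
      intro heq
      have := hv a b ha hab.le
      rw [heq, sub_self, ZMod.val_zero] at this
      omega
  rcases lt_trichotomy a b with h | h | h
  · rw [adj_comm, key b a hb ha h]
    rw [show d a b = b - a by simp only [d]; omega]
  · subst h
    simp only [d, Nat.sub_self, Nat.add_zero]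
    exact ⟨fun h => ((CG n P).loopless.irrefl _ h).elim, fun h => (h0 h).elim⟩
  · rw [key a b ha hb h]
    rw [show d a b = a - b by simp only [d]; omega]

theorem rep_add (x y : ZMod n) : ∃ p : ℕ, p < n ∧ y = x + (p : ℕ) := by
  refine ⟨(y - x).val, ZMod.val_lt _, ?_⟩
  rw [ZMod.natCast_zmod_val]
  ring

/-- path `0 - x - p - y - q` (relative to a base point) on five vertices -/
def P5 (P : ℕ → Prop) (a b c d' e : ℕ) : Prop :=
  P (d a b) ∧ P (d b c) ∧ P (d c d') ∧ P (d d' e) ∧ ¬ P (d a c) ∧ ¬ P (d a d') ∧ ¬ P (d a e) ∧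
  ¬ P (d b d') ∧ ¬ P (d b e) ∧ ¬ P (d c e)

theorem onPath_P5 (h0 : ¬ P 0) (hs : ∀ x, 0 < x → x < n → P x → P (n - x)) (u : ZMod n)
    {a b c d' e : ℕ} (ha : a < n) (hb : b < n) (hc : c < n) (hd : d' < n) (he : e < n)
    (hac : a ≠ c) (hae : a ≠ e) (hce : c ≠ e) (h : P5 P a b c d' e) :
    OnPath (CG n P) (u + a) (u + c) (u + e) := by
  obtain ⟨h1, h2, h3, h4, n1, n2, n3, n4, n5, n6⟩ := h
  have hne : ∀ a b : ℕ, a < n → b < n → a ≠ b → (u + a : ZMod n) ≠ u + b := by
    intro a b ha hb hab h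
    have := congrArg ZMod.val (add_left_cancel h)
    rw [ZMod.val_natCast_of_lt ha, ZMod.val_natCast_of_lt hb] at this
    exact hab this
  have A := fun a b ha hb => cg_adj h0 hs u a b ha hb
  exact onPath5 ((A a b ha hb).mpr h1) ((A b c hb hc).mpr h2) ((A c d' hc hd).mpr h3)
    ((A d' e hd he).mpr h4) (fun h => n1 ((A _ _ ha hc).mp h)) (fun h => n2 ((A _ _ ha hd).mp h))
    (fun h => n3 ((A _ _ ha he).mp h)) (fun h => n4 ((A _ _ hb hd).mp h))
    (fun h => n5 ((A _ _ hb he).mp h)) (fun h => n6 ((A _ _ hc he).mp h))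
    (hne _ _ ha hc hac) (hne _ _ ha he hae) (hne _ _ hc he hce)

/-- criterion in terms of natural numbers -/
theorem main_circ (h0 : ¬ P 0) (hs : ∀ x, 0 < x → x < n → P x → P (n - x))
    (tf : ∀ p q, p < n → q < n → P p → P q → P (d p q) → False)
    (cn : ∀ p, 0 < p → p < n → ¬ P p → ∃ c < n, P c ∧ P (d c p))
    (ind : ∀ p q, 0 < p → p < q → q < n → ¬ P p → ¬ P q → ¬ P (d p q) → ∀ u : ZMod n,
      OnPath (CG n P) u (u + p) (u + q))
    (t : ℕ) (ht : 0 < t) (htn : t < n) (hPt : ¬ P t) :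
    mp (CG n P) = 2 ∧ (CG n P).diam = 2 := by
  have hn : 0 < n := by omega
  have adj0 : ∀ (u : ZMod n) (b : ℕ), b < n → ((CG n P).Adj u (u + b) ↔ P b) := by
    intro u b hb
    have := cg_adj h0 hs u 0 b hn hb
    simpa [d] using this
  refine main_graph ?_ ?_ ?_ (0 : ZMod n) ((t : ℕ) : ZMod n) ?_ ?_
  · intro x y z hxy hyz hxz
    obtain ⟨p, hp, rfl⟩ := rep_add x y
    obtain ⟨q, hq, rfl⟩ := rep_add x z
    rw [adj0 x _ hp] at hxy
    rw [adj0 x _ hq] at hxz
    rw [cg_adj h0 hs x p q hp hq] at hyz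
    exact tf p q hp hq hxy hxz hyz
  · intro x y hxy hn'
    obtain ⟨p, hp, rfl⟩ := rep_add x y
    rw [adj0 x _ hp] at hn'
    have hp0 : 0 < p := by
      rcases Nat.eq_zero_or_pos p with h | h
      · subst h; simp at hxy
      · exact h
    obtain ⟨c, hc, h1, h2⟩ := cn p hp0 hp hn'
    exact ⟨x + c, (adj0 x _ hc).mpr h1, (cg_adj h0 hs x c p hc hp).mpr h2⟩
  · have main : ∀ (x : ZMod n) (p q : ℕ), p < q → q < n → x ≠ x + (p : ℕ) →
        ¬ (CG n P).Adj x (x + (p : ℕ)) → ¬ (CG n P).Adj x (x + (q : ℕ)) →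
        ¬ (CG n P).Adj (x + (p : ℕ)) (x + (q : ℕ)) →
        OnPath (CG n P) x (x + (p : ℕ)) (x + (q : ℕ)) := by
      intro x p q hpq hq hx h1 h2 h3
      rw [adj0 x _ (by omega)] at h1
      rw [adj0 x _ hq] at h2
      rw [cg_adj h0 hs x p q (by omega) hq] at h3
      have hp0 : 0 < p := by
        rcases Nat.eq_zero_or_pos p with h | h
        · subst h; simp at hx
        · exact h
      exact ind p q hp0 hpq hq h1 h2 h3 x
    intro x y z hxy hxz hyz h1 h2 h3
    obtain ⟨p, hp, rfl⟩ := rep_add x y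
    obtain ⟨q, hq, rfl⟩ := rep_add x z
    have hpq : p ≠ q := by rintro rfl; exact hyz rfl
    rcases lt_or_gt_of_ne hpq with h | h
    · exact main x p q h hq hxy h1 h2 h3
    · exact (main x q p h hp hxz h2 h1 (fun h => h3 h.symm)).swap23
  · intro h
    have := congrArg ZMod.val h
    rw [ZMod.val_natCast_of_lt htn, ZMod.val_zero] at this
    omega
  · have := adj0 0 t htn
    rw [zero_add] at this
    rw [this]
    exact hPt

/-- rotation of the base point -/
theorem rotate (Can : ℕ → ℕ → Prop)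
    (hcan : ∀ p q, Can p q → p < q ∧ q < n ∧ ∀ u : ZMod n, OnPath (CG n P) u (u + p) (u + q))
    (p q : ℕ) (h1 : 0 < p) (h2 : p < q) (h3 : q < n)
    (h : Can p q ∨ Can (q - p) (n - p) ∨ Can (n - q) (n - q + p)) (u : ZMod n) :
    OnPath (CG n P) u (u + p) (u + q) := by
  rcases h with h | h | h
  · exact (hcan _ _ h).2.2 u
  · have := (hcan _ _ h).2.2 (u + p)
    rw [Nat.cast_sub (by omega), Nat.cast_sub (by omega)] at this
    have e1 : (u + p + ((q : ZMod n) - p)) = u + q := by ring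
    have e2 : (u + p + ((n : ZMod n) - p)) = u := by rw [ZMod.natCast_self]; ring
    rw [e1, e2] at this
    exact this.rot.rot
  · have := (hcan _ _ h).2.2 (u + q)
    rw [Nat.cast_add, Nat.cast_sub (by omega)] at this
    have e1 : (u + q + ((n : ZMod n) - q)) = u := by rw [ZMod.natCast_self]; ring
    have e2 : (u + q + ((n : ZMod n) - q + p)) = u + p := by rw [ZMod.natCast_self]; ring
    rw [e1, e2] at this
    exact this.rot

end circ

end Pool.Agent.H54.Mono
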