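import Pool.Agent.H54.Circ

set_option autoImplicit false

namespace Pool.Agent.H54.Mono

open SimpleGraph

/-- witness search helper: a P5 through `0, p, q` in one of the three orders -/
theorem can_of {n : ℕ} [NeZero n] {P : ℕ → Prop} (h0 : ¬ P 0)
    (hs : ∀ x, 0 < x → x < n → P x → P (n - x)) {p q : ℕ} (hp : 0 < p) (hpq : p < q) (hq : q < n)
    (h : (∃ x y, x < n ∧ y < n ∧ P5 P 0 x p y q) ∨ (∃ x y, x < n ∧ y < n ∧ P5 P p x 0 y q) ∨
      (∃ x y, x < n ∧ y < n ∧ P5 P 0 x q y p)) :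
    p < q ∧ q < n ∧ ∀ u : ZMod n, OnPath (CG n P) u (u + p) (u + q) := by
  refine ⟨hpq, hq, fun u => ?_⟩
  have e0 : u + ((0 : ℕ) : ZMod n) = u := by simp
  rcases h with ⟨x, y, hx, hy, h⟩ | ⟨x, y, hx, hy, h⟩ | ⟨x, y, hx, hy, h⟩
  · have := onPath_P5 h0 hs u (by omega) hx (by omega) hy hq (by omega) (by omega) (by omega) h
    rwa [e0] at this
  · have := onPath_P5 h0 hs u (by omega) hx (by omega) hy hq (by omega) (by omega) (by omega) h
    rw [e0] at this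
    exact this.swap12
  · have := onPath_P5 h0 hs u (by omega) hx hq hy (by omega) (by omega) (by omega) (by omega) h
    rw [e0] at this
    exact this.swap23

/-- residues for `n = 3 m - 1` -/
def P1 (m : ℕ) (x : ℕ) : Prop := m ≤ x ∧ x ≤ 2 * m - 1

theorem fam1 (m : ℕ) (hm : 3 ≤ m) [NeZero (3 * m - 1)] :
    mp (CG (3 * m - 1) (P1 m)) = 2 ∧ (CG (3 * m - 1) (P1 m)).diam = 2 := by
  have h0 : ¬ P1 m 0 := by simp only [P1]; omega
  have hs : ∀ x, 0 < x → x < 3 * m - 1 → P1 m x → P1 m (3 * m - 1 - x) := by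
    intro x; simp only [P1]; omega
  refine main_circ h0 hs ?_ ?_ ?_ 1 (by omega) (by omega) (by simp only [P1]; omega)
  · intro p q; simp only [P1, d]; omega
  · intro p hp hpn hP
    simp only [P1] at hP
    by_cases h : p ≤ m - 1
    · exact ⟨p + m, by omega, by simp only [P1]; omega, by simp only [P1, d]; omega⟩
    · exact ⟨p - m, by omega, by simp only [P1]; omega, by simp only [P1, d]; omega⟩
  · intro p q hp hpq hq h1 h2 h3 u
    refine rotate (fun p q => 0 < p ∧ p < q ∧ q ≤ m - 1) ?_ p q hp hpq hq ?_ u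
    · rintro p q ⟨a1, a2, a3⟩
      refine can_of h0 hs a1 a2 (by omega) (Or.inl ⟨p + m, 2 * m, by omega, by omega, ?_⟩)
      refine ⟨?_, ?_, ?_, ?_, ?_, ?_, ?_, ?_, ?_, ?_⟩ <;> simp only [P1, d] <;> omega
    · simp only [P1, d] at h1 h2 h3; omega

/-- residues for `n = 3 a + 1` -/
def P2 (a : ℕ) (x : ℕ) : Prop := x = a ∨ (a + 2 ≤ x ∧ x ≤ 2 * a - 1) ∨ x = 2 * a + 1

/-- canonical independent triples for `n = 3 a + 1` -/
def C2 (a p q : ℕ) : Prop := (0 < p ∧ p < q ∧ q ≤ a - 1) ∨ (q = a + 1 ∧ 2 ≤ p ∧ p ≤ a - 1) ∨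
      (p = a + 1 ∧ q = 2 * a + 2)

theorem C2_of (a : ℕ) (ha : 4 ≤ a) (p q : ℕ) (hp : 0 < p) (hpq : p < q) (hq : q < 3 * a + 1)
    (h1 : ¬ P2 a p) (h2 : ¬ P2 a q) (h3 : ¬ P2 a (d p q)) :
    C2 a p q ∨ C2 a (q - p) (3 * a + 1 - p) ∨ C2 a (3 * a + 1 - q) (3 * a + 1 - q + p) := by
  have c1 : p ≤ a - 1 ∨ p = a + 1 ∨ p = 2 * a ∨ 2 * a + 2 ≤ p := by simp only [P2] at h1; omega
  have c2 : q ≤ a - 1 ∨ q = a + 1 ∨ q = 2 * a ∨ 2 * a + 2 ≤ q := by simp only [P2] at h2; omega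
  have c3 : q - p ≤ a - 1 ∨ q - p = a + 1 ∨ q - p = 2 * a ∨ 2 * a + 2 ≤ q - p := by
    simp only [P2, d] at h3; omega
  clear h1 h2 h3
  rcases c1 with c1 | c1 | c1 | c1 <;> rcases c2 with c2 | c2 | c2 | c2 <;>
    rcases c3 with c3 | c3 | c3 | c3 <;>
    first
      | (exfalso; omega)
      | (refine Or.inl (Or.inl ⟨?_, ?_, ?_⟩) <;> omega)
      | (refine Or.inl (Or.inr (Or.inl ⟨?_, ?_, ?_⟩)) <;> omega)
      | (refine Or.inl (Or.inr (Or.inr ⟨?_, ?_⟩)) <;> omega)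
      | (refine Or.inr (Or.inl (Or.inl ⟨?_, ?_, ?_⟩)) <;> omega)
      | (refine Or.inr (Or.inl (Or.inr (Or.inl ⟨?_, ?_, ?_⟩))) <;> omega)
      | (refine Or.inr (Or.inl (Or.inr (Or.inr ⟨?_, ?_⟩))) <;> omega)
      | (refine Or.inr (Or.inr (Or.inl ⟨?_, ?_, ?_⟩)) <;> omega)
      | (refine Or.inr (Or.inr (Or.inr (Or.inl ⟨?_, ?_, ?_⟩))) <;> omega)
      | (refine Or.inr (Or.inr (Or.inr (Or.inr ⟨?_, ?_⟩))) <;> omega)

theorem fam2 (a : ℕ) (ha : 4 ≤ a) [NeZero (3 * a + 1)] :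
    mp (CG (3 * a + 1) (P2 a)) = 2 ∧ (CG (3 * a + 1) (P2 a)).diam = 2 := by
  have h0 : ¬ P2 a 0 := by simp only [P2]; omega
  have hs : ∀ x, 0 < x → x < 3 * a + 1 → P2 a x → P2 a (3 * a + 1 - x) := by
    intro x; simp only [P2]; omega
  refine main_circ h0 hs ?_ ?_ ?_ 1 (by omega) (by omega) (by simp only [P2]; omega)
  · intro p q; simp only [P2, d]; omega
  · intro p hp hpn hP
    simp only [P2] at hP
    have hcases : p = 1 ∨ (2 ≤ p ∧ p ≤ a - 1) ∨ p = a + 1 ∨ p = 2 * a ∨ p = 3 * a ∨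
        (2 * a + 2 ≤ p ∧ p ≤ 3 * a - 1) := by omega
    rcases hcases with h | h | h | h | h | h
    · exact ⟨a + 3, by omega, by simp only [P2]; omega, by simp only [P2, d]; omega⟩
    · exact ⟨p + a, by omega, by simp only [P2]; omega, by simp only [P2, d]; omega⟩
    · exact ⟨2 * a + 1, by omega, Or.inr (Or.inr rfl), by simp only [P2, d]; omega⟩
    · exact ⟨a, by omega, Or.inl rfl, by simp only [P2, d]; omega⟩
    · exact ⟨2 * a - 2, by omega, by simp only [P2]; omega, by simp only [P2, d]; omega⟩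
    · exact ⟨p - a, by omega, by simp only [P2]; omega, by simp only [P2, d]; omega⟩
  · intro p q hp hpq hq h1 h2 h3 u
    refine rotate (C2 a) ?_ p q hp hpq hq (C2_of a ha p q hp hpq hq h1 h2 h3) u
    clear hp hpq hq h1 h2 h3
    rintro p q (⟨a1, a2, a3⟩ | ⟨a1, a2, a3⟩ | ⟨a1, a2⟩)
    · -- all three inside an arc of length at most a - 1
      have hcases : (2 ≤ p ∧ 2 ≤ q - p) ∨ (2 ≤ p ∧ q - p = 1) ∨ (p = 1 ∧ 2 ≤ q - p) ∨
        (p = 1 ∧ q = 2) := by omega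
      rcases hcases with h | h | h | h
      · refine can_of h0 hs a1 a2 (by omega)
          (Or.inl ⟨p + a, p + 2 * a + 1, by omega, by omega, ?_⟩)
        refine ⟨?_, ?_, ?_, ?_, ?_, ?_, ?_, ?_, ?_, ?_⟩ <;> simp only [P2, d] <;> omega
      · refine can_of h0 hs a1 a2 (by omega)
          (Or.inr (Or.inl ⟨p + a, q + a, by omega, by omega, ?_⟩))
        refine ⟨?_, ?_, ?_, ?_, ?_, ?_, ?_, ?_, ?_, ?_⟩ <;> simp only [P2, d] <;> omega
      · refine can_of h0 hs a1 a2 (by omega)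
          (Or.inr (Or.inr ⟨2 * a + 1, p + 2 * a + 1, by omega, by omega, ?_⟩))
        refine ⟨?_, ?_, ?_, ?_, ?_, ?_, ?_, ?_, ?_, ?_⟩ <;> simp only [P2, d] <;> omega
      · refine can_of h0 hs a1 a2 (by omega)
          (Or.inl ⟨a + 3, 2 * a, by omega, by omega, ?_⟩)
        refine ⟨?_, ?_, ?_, ?_, ?_, ?_, ?_, ?_, ?_, ?_⟩ <;> simp only [P2, d] <;> omega
    · refine can_of h0 hs (by omega) (by omega) (by omega)
        (Or.inl ⟨p + a, p + 2 * a + 1, by omega, by omega, ?_⟩)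
      refine ⟨?_, ?_, ?_, ?_, ?_, ?_, ?_, ?_, ?_, ?_⟩ <;> simp only [P2, d] <;> omega
    · refine can_of h0 hs (by omega) (by omega) (by omega)
        (Or.inl ⟨2 * a + 1, 1, by omega, by omega, ?_⟩)
      refine ⟨?_, ?_, ?_, ?_, ?_, ?_, ?_, ?_, ?_, ?_⟩ <;> simp only [P2, d] <;> omega

/-- residues for `n = 3 b` -/
def P3 (b : ℕ) (x : ℕ) : Prop := x = b - 1 ∨ x = b + 1 ∨ (b + 3 ≤ x ∧ x ≤ 2 * b - 3) ∨
  x = 2 * b - 1 ∨ x = 2 * b + 1

theorem not_P3 {b x : ℕ} (hb : 7 ≤ b) (h : ¬ P3 b x) :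
    x ≤ b - 2 ∨ x = b ∨ x = b + 2 ∨ x = 2 * b - 2 ∨ x = 2 * b ∨ 2 * b + 2 ≤ x := by
  simp only [P3] at h; omega

/-- canonical independent triples for `n = 3 b` -/
inductive C3 (b : ℕ) (p q : ℕ) : Prop
  | A (h1 : 0 < p) (h2 : p < q) (h3 : q ≤ b - 2) : C3 b p q
  | B (h1 : q = b) (h2 : 2 ≤ p) (h3 : p ≤ b - 2) : C3 b p q
  | C1 (h1 : q = b + 2) (h2 : p = 2) : C3 b p q
  | C2 (h1 : q = b + 2) (h2 : 4 ≤ p) (h3 : p ≤ b - 2) : C3 b p q
  | C4 (h1 : q = b + 2) (h2 : p = b) : C3 b p q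
  | D (h1 : p = b) (h2 : q = 2 * b) : C3 b p q
  | E (h1 : p = b + 2) (h2 : q = 2 * b + 4) : C3 b p q
  | F (h1 : p = b + 2) (h2 : q = 2 * b + 2) : C3 b p q
  | G (h1 : p = b) (h2 : q = 2 * b + 2) : C3 b p q

theorem C3_of (b : ℕ) (hb : 7 ≤ b) (p q : ℕ) (hp : 0 < p) (hpq : p < q) (hq : q < 3 * b)
    (h1 : ¬ P3 b p) (h2 : ¬ P3 b q) (h3 : ¬ P3 b (d p q)) :
    C3 b p q ∨ C3 b (q - p) (3 * b - p) ∨ C3 b (3 * b - q) (3 * b - q + p) := by
  have c1 := not_P3 hb h1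
  have c2 := not_P3 hb h2
  have hd : d p q = q - p := by simp only [d]; omega
  rw [hd] at h3
  have c3 := not_P3 hb h3
  clear h1 h2 h3 hd
  rcases c1 with c1 | c1 | c1 | c1 | c1 | c1 <;> rcases c2 with c2 | c2 | c2 | c2 | c2 | c2 <;>
    first
      | (exfalso; omega)
      | (rcases c3 with c3 | c3 | c3 | c3 | c3 | c3 <;>
          first
            | (exfalso; omega)
            | (left; refine C3.A ?_ ?_ ?_ <;> omega)
            | (left; refine C3.B ?_ ?_ ?_ <;> omega)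
            | (left; refine C3.C1 ?_ ?_ <;> omega)
            | (left; refine C3.C2 ?_ ?_ ?_ <;> omega)
            | (left; refine C3.C4 ?_ ?_ <;> omega)
            | (left; refine C3.D ?_ ?_ <;> omega)
            | (left; refine C3.E ?_ ?_ <;> omega)
            | (left; refine C3.F ?_ ?_ <;> omega)
            | (left; refine C3.G ?_ ?_ <;> omega)
            | (right; left; refine C3.A ?_ ?_ ?_ <;> omega)
            | (right; left; refine C3.B ?_ ?_ ?_ <;> omega)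
            | (right; left; refine C3.C1 ?_ ?_ <;> omega)
            | (right; left; refine C3.C2 ?_ ?_ ?_ <;> omega)
            | (right; left; refine C3.C4 ?_ ?_ <;> omega)
            | (right; left; refine C3.E ?_ ?_ <;> omega)
            | (right; left; refine C3.F ?_ ?_ <;> omega)
            | (right; left; refine C3.G ?_ ?_ <;> omega)
            | (right; right; refine C3.A ?_ ?_ ?_ <;> omega)
            | (right; right; refine C3.B ?_ ?_ ?_ <;> omega)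
            | (right; right; refine C3.C1 ?_ ?_ <;> omega)
            | (right; right; refine C3.C2 ?_ ?_ ?_ <;> omega)
            | (right; right; refine C3.C4 ?_ ?_ <;> omega)
            | (right; right; refine C3.E ?_ ?_ <;> omega)
            | (right; right; refine C3.F ?_ ?_ <;> omega)
            | (right; right; refine C3.G ?_ ?_ <;> omega))

theorem fam3 (b : ℕ) (hb : 7 ≤ b) [NeZero (3 * b)] :
    mp (CG (3 * b) (P3 b)) = 2 ∧ (CG (3 * b) (P3 b)).diam = 2 := by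
  have h0 : ¬ P3 b 0 := by simp only [P3]; omega
  have hs : ∀ x, 0 < x → x < 3 * b → P3 b x → P3 b (3 * b - x) := by
    intro x hx1 hx2
    rintro (h | h | h | h | h)
    · right; right; right; right; omega
    · right; right; right; left; omega
    · right; right; left; omega
    · right; left; omega
    · left; omega
  refine main_circ h0 hs ?_ ?_ ?_ 1 (by omega) (by omega) (by simp only [P3]; omega)
  · intro p q hp hq h1 h2
    rcases h1 with h1 | h1 | h1 | h1 | h1 <;> rcases h2 with h2 | h2 | h2 | h2 | h2 <;>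
      simp only [P3, d] <;> omega
  · intro p hp hpn hP
    have h' := not_P3 hb hP
    have hcases : p = 1 ∨ p = 2 ∨ p = 3 ∨ (4 ≤ p ∧ p ≤ b - 2) ∨ p = b ∨ p = b + 2 ∨
      p = 2 * b - 2 ∨ p = 2 * b ∨ p = 3 * b - 1 ∨ p = 3 * b - 2 ∨ p = 3 * b - 3 ∨
        (2 * b + 2 ≤ p ∧ p ≤ 3 * b - 4) := by omega
    clear hP h'
    rcases hcases with h | h | h | h | h | h | h | h | h | h | h | h
    · refine ⟨b + 4, ?_, ?_, ?_⟩ <;> (try unfold P3) <;> (try unfold d) <;> omega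
    · refine ⟨b + 1, ?_, ?_, ?_⟩ <;> (try unfold P3) <;> (try unfold d) <;> omega
    · refine ⟨b + 4, ?_, ?_, ?_⟩ <;> (try unfold P3) <;> (try unfold d) <;> omega
    · refine ⟨p + b - 1, ?_, ?_, ?_⟩ <;> (try unfold P3) <;> (try unfold d) <;> omega
    · refine ⟨2 * b - 1, ?_, ?_, ?_⟩ <;> (try unfold P3) <;> (try unfold d) <;> omega
    · refine ⟨2 * b + 1, ?_, ?_, ?_⟩ <;> (try unfold P3) <;> (try unfold d) <;> omega
    · refine ⟨b - 1, ?_, ?_, ?_⟩ <;> (try unfold P3) <;> (try unfold d) <;> omega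
    · refine ⟨b - 1, ?_, ?_, ?_⟩ <;> (try unfold P3) <;> (try unfold d) <;> omega
    · refine ⟨2 * b - 4, ?_, ?_, ?_⟩ <;> (try unfold P3) <;> (try unfold d) <;> omega
    · refine ⟨2 * b - 1, ?_, ?_, ?_⟩ <;> (try unfold P3) <;> (try unfold d) <;> omega
    · refine ⟨2 * b - 4, ?_, ?_, ?_⟩ <;> (try unfold P3) <;> (try unfold d) <;> omega
    · refine ⟨p - b + 1, ?_, ?_, ?_⟩ <;> (try unfold P3) <;> (try unfold d) <;> omega
  · intro p q hp hpq hq h1 h2 h3 u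
    refine rotate (C3 b) ?_ p q hp hpq hq (C3_of b hb p q hp hpq hq h1 h2 h3) u
    clear hp hpq hq h1 h2 h3
    intro p q h
    cases h with
    | A a1 a2 a3 =>
      have hcases : ((p = 2 ∨ 4 ≤ p) ∧ (q = p + 2 ∨ p + 4 ≤ q)) ∨
          ((p = 2 ∨ 4 ≤ p) ∧ (q = p + 1 ∨ q = p + 3) ∧ q ≠ 3) ∨ (p = 2 ∧ q = 3) ∨
          ((p = 1 ∨ p = 3) ∧ (q = p + 2 ∨ p + 4 ≤ q) ∧ q ≠ 3) ∨ (p = 1 ∧ q = 3) ∨
          (p = 1 ∧ q = 2) ∨ (p = 1 ∧ q = 4) ∨ (p = 3 ∧ q = 4) ∨ (p = 3 ∧ q = 6) := by omega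
      rcases hcases with h | h | h | h | h | h | h | h | h
      · refine can_of h0 hs a1 a2 (by omega)
          (Or.inl ⟨p + b - 1, p + 2 * b + 1, by omega, by omega, ?_⟩)
        refine ⟨?_, ?_, ?_, ?_, ?_, ?_, ?_, ?_, ?_, ?_⟩ <;> simp only [P3, d] <;> omega
      · refine can_of h0 hs a1 a2 (by omega)
          (Or.inr (Or.inl ⟨p + b - 1, q + b - 1, by omega, by omega, ?_⟩))
        refine ⟨?_, ?_, ?_, ?_, ?_, ?_, ?_, ?_, ?_, ?_⟩ <;> simp only [P3, d] <;> omega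
      · refine can_of h0 hs a1 a2 (by omega)
          (Or.inr (Or.inl ⟨b + 1, b + 4, by omega, by omega, ?_⟩))
        refine ⟨?_, ?_, ?_, ?_, ?_, ?_, ?_, ?_, ?_, ?_⟩ <;> simp only [P3, d] <;> omega
      · refine can_of h0 hs a1 a2 (by omega)
          (Or.inr (Or.inr ⟨2 * b + 1, p + 2 * b + 1, by omega, by omega, ?_⟩))
        refine ⟨?_, ?_, ?_, ?_, ?_, ?_, ?_, ?_, ?_, ?_⟩ <;> simp only [P3, d] <;> omega
      · refine can_of h0 hs a1 a2 (by omega)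
          (Or.inr (Or.inr ⟨2 * b - 1, 2 * b + 2, by omega, by omega, ?_⟩))
        refine ⟨?_, ?_, ?_, ?_, ?_, ?_, ?_, ?_, ?_, ?_⟩ <;> simp only [P3, d] <;> omega
      · refine can_of h0 hs a1 a2 (by omega)
          (Or.inl ⟨b + 4, 2 * b - 2, by omega, by omega, ?_⟩)
        refine ⟨?_, ?_, ?_, ?_, ?_, ?_, ?_, ?_, ?_, ?_⟩ <;> simp only [P3, d] <;> omega
      · refine can_of h0 hs a1 a2 (by omega)
          (Or.inr (Or.inl ⟨b + 4, b + 3, by omega, by omega, ?_⟩))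
        refine ⟨?_, ?_, ?_, ?_, ?_, ?_, ?_, ?_, ?_, ?_⟩ <;> simp only [P3, d] <;> omega
      · refine can_of h0 hs a1 a2 (by omega)
          (Or.inr (Or.inr ⟨2 * b + 1, 2 * b, by omega, by omega, ?_⟩))
        refine ⟨?_, ?_, ?_, ?_, ?_, ?_, ?_, ?_, ?_, ?_⟩ <;> simp only [P3, d] <;> omega
      · refine can_of h0 hs a1 a2 (by omega)
          (Or.inr (Or.inl ⟨b + 4, b + 5, by omega, by omega, ?_⟩))
        refine ⟨?_, ?_, ?_, ?_, ?_, ?_, ?_, ?_, ?_, ?_⟩ <;> simp only [P3, d] <;> omega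
    | B a1 a2 a3 =>
      have hcases : (p ≠ 3 ∧ p ≠ b - 3) ∨ p = 3 ∨ p = b - 3 := by omega
      rcases hcases with h | h | h
      · refine can_of h0 hs (by omega) (by omega) (by omega)
          (Or.inl ⟨p + b - 1, p + 2 * b + 1, by omega, by omega, ?_⟩)
        refine ⟨?_, ?_, ?_, ?_, ?_, ?_, ?_, ?_, ?_, ?_⟩ <;> simp only [P3, d] <;> omega
      · refine can_of h0 hs (by omega) (by omega) (by omega)
          (Or.inl ⟨b + 4, 2 * b + 4, by omega, by omega, ?_⟩)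
        refine ⟨?_, ?_, ?_, ?_, ?_, ?_, ?_, ?_, ?_, ?_⟩ <;> simp only [P3, d] <;> omega
      · refine can_of h0 hs (by omega) (by omega) (by omega)
          (Or.inl ⟨2 * b - 4, 3 * b - 4, by omega, by omega, ?_⟩)
        refine ⟨?_, ?_, ?_, ?_, ?_, ?_, ?_, ?_, ?_, ?_⟩ <;> simp only [P3, d] <;> omega
    | C1 a1 a2 =>
      refine can_of h0 hs (by omega) (by omega) (by omega)
        (Or.inl ⟨b + 1, 2 * b + 3, by omega, by omega, ?_⟩)
      refine ⟨?_, ?_, ?_, ?_, ?_, ?_, ?_, ?_, ?_, ?_⟩ <;> simp only [P3, d] <;> omega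
    | C2 a1 a2 a3 =>
      refine can_of h0 hs (by omega) (by omega) (by omega)
        (Or.inl ⟨p + b - 1, p + 2 * b + 1, by omega, by omega, ?_⟩)
      refine ⟨?_, ?_, ?_, ?_, ?_, ?_, ?_, ?_, ?_, ?_⟩ <;> simp only [P3, d] <;> omega
    | C4 a1 a2 =>
      refine can_of h0 hs (by omega) (by omega) (by omega)
        (Or.inl ⟨2 * b - 1, 1, by omega, by omega, ?_⟩)
      refine ⟨?_, ?_, ?_, ?_, ?_, ?_, ?_, ?_, ?_, ?_⟩ <;> simp only [P3, d] <;> omega
    | D a1 a2 =>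
      refine can_of h0 hs (by omega) (by omega) (by omega)
        (Or.inl ⟨2 * b - 1, 1, by omega, by omega, ?_⟩)
      refine ⟨?_, ?_, ?_, ?_, ?_, ?_, ?_, ?_, ?_, ?_⟩ <;> simp only [P3, d] <;> omega
    | E a1 a2 =>
      refine can_of h0 hs (by omega) (by omega) (by omega)
        (Or.inl ⟨2 * b + 1, 3, by omega, by omega, ?_⟩)
      refine ⟨?_, ?_, ?_, ?_, ?_, ?_, ?_, ?_, ?_, ?_⟩ <;> simp only [P3, d] <;> omega
    | F a1 a2 =>
      refine can_of h0 hs (by omega) (by omega) (by omega)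
        (Or.inl ⟨2 * b + 1, 3, by omega, by omega, ?_⟩)
      refine ⟨?_, ?_, ?_, ?_, ?_, ?_, ?_, ?_, ?_, ?_⟩ <;> simp only [P3, d] <;> omega
    | G a1 a2 =>
      refine can_of h0 hs (by omega) (by omega) (by omega)
        (Or.inl ⟨2 * b - 1, 1, by omega, by omega, ?_⟩)
      refine ⟨?_, ?_, ?_, ?_, ?_, ?_, ?_, ?_, ?_, ?_⟩ <;> simp only [P3, d] <;> omega

end Pool.Agent.H54.Mono
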