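import Pool.Agent.H54.CircFam

set_option autoImplicit false

namespace Pool.Agent.H54.Mono

open SimpleGraph

/-- jumps for `n = 12` -/
def S12 (x : ℕ) : Bool := x == 2 || x == 3 || x == 9 || x == 10

/-- jumps for `n = 18` -/
def S18 (x : ℕ) : Bool := x == 3 || x == 4 || x == 5 || x == 13 || x == 14 || x == 15

/-- boolean check that `x` is joined to `a` and `b` and not to `c` -/
def cnb (S : ℕ → Bool) (x a b c : ℕ) : Bool := S (d x a) && S (d x b) && !(S (d x c))

/-- boolean form of the criterion for independent triples -/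
def chk (S : ℕ → Bool) (n p q : ℕ) : Bool :=
  S p || S q || S (d p q) ||
      (((List.range n).any (fun x => cnb S x 0 p q) && (List.range n).any (fun y => cnb S y p q 0)) ||
       ((List.range n).any (fun x => cnb S x p 0 q) && (List.range n).any (fun y => cnb S y 0 q p)) ||
       ((List.range n).any (fun x => cnb S x 0 q p) && (List.range n).any (fun y => cnb S y q p 0)))

theorem fam_sporadic (n : ℕ) [NeZero n] (hn : 1 < n) (S : ℕ → Bool)
    (h0 : S 0 = false) (h1' : S 1 = false)
    (hs : ∀ x < n, 0 < x → S x = true → S (n - x) = true)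
    (tf : ∀ p < n, ∀ q < n, S p = true → S q = true → S (d p q) = true → False)
    (cn : ∀ p < n, 0 < p → S p = false → ∃ c < n, S c = true ∧ S (d c p) = true)
    (ind : ∀ q < n, ∀ p < q, 0 < p → chk S n p q = true) :
    mp (CG n (fun x => S x = true)) = 2 ∧ (CG n (fun x => S x = true)).diam = 2 := by
  have h0' : ¬ (fun x => S x = true) 0 := by simp [h0]
  have hs' : ∀ x, 0 < x → x < n → (fun x => S x = true) x → (fun x => S x = true) (n - x) :=
    fun x a b c => hs x b a c
  refine main_circ h0' hs' ?_ ?_ ?_ 1 (by omega) hn (by simp [h1'])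
  · intro p q hp hq a b c
    exact tf p hp q hq a b c
  · intro p hp hpn hP
    exact cn p hpn hp (by simpa using hP)
  · intro p q hp hpq hq h1 h2 h3 u
    have hpn : p < n := by omega
    have dsymm : ∀ a b : ℕ, d a b = d b a := by intro a b; simp only [d]; omega
    have d0 : ∀ a : ℕ, d 0 a = a := by intro a; simp only [d]; omega
    -- two vertices joined to a common vertex are not joined
    have ntri : ∀ x < n, ∀ y < n, ∀ v < n, S (d x v) = true → S (d y v) = true →
        ¬ (S (d x y) = true) := by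
      intro x hx y hy v hv a b c
      have key : ∀ a b c : ℕ, a ≤ b → b ≤ c → c < n → S (d a b) = true → S (d b c) = true →
          S (d a c) = true → False := by
        intro a b c hab hbc hc e1 e2 e3
        refine tf (b - a) (by omega) (c - a) (by omega) ?_ ?_ ?_
        · rwa [show b - a = d a b by simp only [d]; omega]
        · rwa [show c - a = d a c by simp only [d]; omega]
        · rwa [show d (b - a) (c - a) = d b c by simp only [d]; omega]
      rcases le_total x y with h | h <;> rcases le_total y v with h' | h' <;>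
        rcases le_total x v with h'' | h''
      · exact key x y v h h' hv c b a
      · exact key x y v h h' hv c b a
      · exact key x v y h'' h' hy a (by rwa [dsymm]) c
      · exact key v x y h'' h hy (by rwa [dsymm]) c (by rwa [dsymm])
      · exact key y x v h h'' hv (by rwa [dsymm]) a b
      · exact key y v x h' h'' hx b (by rwa [dsymm]) (by rwa [dsymm])
      · exact key y x v h h'' hv (by rwa [dsymm]) a b
      · exact key v y x h' h hx (by rwa [dsymm]) (by rwa [dsymm]) (by rwa [dsymm])
    have e1 : S p = false := by simpa using h1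
    have e2 : S q = false := by simpa using h2
    have e3 : S (d p q) = false := by simpa using h3
    have hex := ind q hq p hpq hp
    simp only [chk, e1, e2, e3, Bool.false_or, Bool.or_eq_true, Bool.and_eq_true,
      List.any_eq_true, List.mem_range, or_assoc] at hex
    have hcan : p < q ∧ q < n ∧ ∀ u : ZMod n,
        OnPath (CG n (fun x => S x = true)) u (u + p) (u + q) := by
      refine can_of h0' hs' hp hpq hq ?_
      rcases hex with ⟨⟨x, hx, hx'⟩, ⟨y, hy, hy'⟩⟩ | ⟨⟨x, hx, hx'⟩, ⟨y, hy, hy'⟩⟩ |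
        ⟨⟨x, hx, hx'⟩, ⟨y, hy, hy'⟩⟩
      · simp only [cnb, Bool.and_eq_true, Bool.not_eq_true'] at hx' hy'
        refine Or.inl ⟨x, y, hx, hy, ?_⟩
        refine ⟨?_, ?_, ?_, ?_, ?_, ?_, ?_, ?_, ?_, ?_⟩
        · rw [dsymm]; exact hx'.1.1
        · exact hx'.1.2
        · rw [dsymm]; exact hy'.1.1
        · exact hy'.1.2
        · rw [d0]; simp [e1]
        · rw [dsymm]; simp [hy'.2]
        · rw [d0]; simp [e2]
        · exact ntri x hx y hy p hpn hx'.1.2 hy'.1.1
        · simp [hx'.2]
        · simp [e3]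
      · simp only [cnb, Bool.and_eq_true, Bool.not_eq_true'] at hx' hy'
        refine Or.inr (Or.inl ⟨x, y, hx, hy, ?_⟩)
        refine ⟨?_, ?_, ?_, ?_, ?_, ?_, ?_, ?_, ?_, ?_⟩
        · rw [dsymm]; exact hx'.1.1
        · exact hx'.1.2
        · rw [dsymm]; exact hy'.1.1
        · exact hy'.1.2
        · rw [dsymm, d0]; simp [e1]
        · rw [dsymm]; simp [hy'.2]
        · simp [e3]
        · exact ntri x hx y hy 0 (by omega) hx'.1.2 hy'.1.1
        · simp [hx'.2]
        · rw [d0]; simp [e2]
      · simp only [cnb, Bool.and_eq_true, Bool.not_eq_true'] at hx' hy'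
        refine Or.inr (Or.inr ⟨x, y, hx, hy, ?_⟩)
        refine ⟨?_, ?_, ?_, ?_, ?_, ?_, ?_, ?_, ?_, ?_⟩
        · rw [dsymm]; exact hx'.1.1
        · exact hx'.1.2
        · rw [dsymm]; exact hy'.1.1
        · exact hy'.1.2
        · rw [d0]; simp [e2]
        · rw [dsymm]; simp [hy'.2]
        · rw [d0]; simp [e1]
        · exact ntri x hx y hy q hq hx'.1.2 hy'.1.1
        · simp [hx'.2]
        · rw [dsymm]; simp [e3]
    exact hcan.2.2 u

theorem fam12 : mp (CG 12 (fun x => S12 x = true)) = 2 ∧
    (CG 12 (fun x => S12 x = true)).diam = 2 := by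
  apply fam_sporadic 12 (by norm_num) S12 <;> decide +kernel

theorem fam18 : mp (CG 18 (fun x => S18 x = true)) = 2 ∧
    (CG 18 (fun x => S18 x = true)).diam = 2 := by
  apply fam_sporadic 18 (by norm_num) S18 <;> decide +kernel

/-! ### order 15 -/

/-- a symmetric jump set of order 15 -/
def F15 (b1 b2 b3 b4 b5 b6 b7 : Bool) (x : Fin 15) : Bool :=
  match x.val with
  | 1 => b1 | 2 => b2 | 3 => b3 | 4 => b4 | 5 => b5 | 6 => b6 | 7 => b7
  | 8 => b7 | 9 => b6 | 10 => b5 | 11 => b4 | 12 => b3 | 13 => b2 | 14 => b1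
  | _ => false

theorem check15 : ∀ b1 b2 b3 b4 b5 b6 b7 : Bool,
    (∀ x y : Fin 15, ¬ (F15 b1 b2 b3 b4 b5 b6 b7 x = true ∧ F15 b1 b2 b3 b4 b5 b6 b7 y = true ∧
      F15 b1 b2 b3 b4 b5 b6 b7 (y - x) = true)) →
    (∀ x : Fin 15, x ≠ 0 → F15 b1 b2 b3 b4 b5 b6 b7 x = false →
      ∃ w : Fin 15, F15 b1 b2 b3 b4 b5 b6 b7 w = true ∧
        F15 b1 b2 b3 b4 b5 b6 b7 (x - w) = true) →
    (∀ w : Fin 15, F15 b1 b2 b3 b4 b5 b6 b7 w = F15 b1 b2 b3 b4 b5 b6 b7 (w - 5)) ∧
    (∀ w : Fin 15, F15 b1 b2 b3 b4 b5 b6 b7 w = F15 b1 b2 b3 b4 b5 b6 b7 (w - 10)) := by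
  decide +kernel

theorem none15 (C : Set (ZMod 15)) (h1 : mp (circulantGraph C) = 2)
    (h2 : (circulantGraph C).diam = 2) : False := by
  classical
  set G := circulantGraph C with hG
  have htr : ∀ u v : ZMod 15, G.Adj u v ↔ G.Adj 0 (v - u) := by
    intro u v
    have := circulantGraph_adj_translate (s := C) (u := u) (v := v) (d := -u)
    rw [← this]
    simp [hG, sub_eq_add_neg]
  have hsym : ∀ x : ZMod 15, G.Adj 0 x ↔ G.Adj 0 (-x) := by
    intro x
    rw [G.adj_comm, htr x 0, zero_sub]
  let c : ZMod 15 → Bool := fun x => decide (G.Adj 0 x)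
  have hc : ∀ x, c x = true ↔ G.Adj 0 x := fun x => decide_eq_true_iff
  have hcf : ∀ x : Fin 15, c x = F15 (c 1) (c 2) (c 3) (c 4) (c 5) (c 6) (c 7) x := by
    have hneg : ∀ x : ZMod 15, c (-x) = c x := by
      intro x
      have := hsym x
      simp only [c]
      simp only [this]
    have hz : c 0 = false := by
      simp [c]
    intro x
    fin_cases x
    · exact hz
    · rfl
    · rfl
    · rfl
    · rfl
    · rfl
    · rfl
    · rfl
    · exact hneg 7
    · exact hneg 6
    · exact hneg 5
    · exact hneg 4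
    · exact hneg 3
    · exact hneg 2
    · exact hneg 1
  have hck := check15 (c 1) (c 2) (c 3) (c 4) (c 5) (c 6) (c 7)
  have tri : ∀ x y z : ZMod 15, G.Adj x y → G.Adj y z → G.Adj x z → False := by
    intro x y z hxy hyz hxz
    exact not_onPath_triangle hxy hxz hyz (onPath_of_mp h1 x y z hxy.ne hxz.ne hyz.ne)
  have hA := hck
    (by
      intro x y ⟨a, b, e⟩
      rw [← hcf] at a b e
      rw [hc] at a b e
      exact tri 0 x y a ((htr x y).mpr e) b)
    (by
      intro x hx a
      rw [← hcf] at a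
      have hna : ¬ G.Adj 0 x := by
        rw [← hc]
        simp [a]
      obtain ⟨w, hw1, hw2⟩ := common_of_diam h2 0 x (Ne.symm hx) hna
      refine ⟨w, ?_, ?_⟩
      · rw [← hcf, hc]
        exact hw1
      · rw [← hcf, hc]
        exact (htr w x).mp hw2)
  obtain ⟨t1, t2⟩ := hA
  have key : ∀ w t : ZMod 15, G.Adj w t ↔ c (t - w) = true := by
    intro w t
    rw [hc, htr]
  have hneg : ∀ x : ZMod 15, c (-x) = c x := by
    intro x
    have := hsym x
    simp only [c]
    simp only [this]
  have k5 : ∀ w : ZMod 15, c w = c (w - 5) := by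
    intro w
    have h := t1 w
    rw [← hcf, ← hcf] at h
    exact h
  have k10 : ∀ w : ZMod 15, c w = c (w - 10) := by
    intro w
    have h := t2 w
    rw [← hcf, ← hcf] at h
    exact h
  refine not_onPath_twins (G := G) (x := (0 : ZMod 15)) (y := 5) (z := 10) (by decide)
    (by decide) (by decide) ?_ ?_ (onPath_of_mp h1 0 5 10 (by decide) (by decide) (by decide))
  · intro w
    rw [key, key, zero_sub, hneg, k5 w, ← hneg]
    rw [show -(w - 5) = 5 - w by ring]
  · intro w
    rw [key, key, zero_sub, hneg, k10 w, ← hneg]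
    rw [show -(w - 10) = 10 - w by ring]

end Pool.Agent.H54.Mono
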