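import Mathlib

/-!
An isoperimetric inequality for the exits of a down-set inside an up-set (both in the subsets of a
finite set `V`): if the down-set `D` has density at most `2/3`, then for every up-set `U` the number
of pairs `(Y, j)` with `Y` in `D` and `U`, `j` in `V` minus `Y` and `Y + j` not in `D` is at least
the number of `Y` in `D` and `U`.  (With `U` everything: edge isoperimetric inequality.)
-/

namespace Pool.Agent.H54.Iso

open Finset Classical

/-- `2^m` times the Takagi function at `k / 2^m`. -/
def F : ℕ → ℕ → ℕ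
  | 0, _ => 0
  | m + 1, k => F m (k / 2) + F m ((k + 1) / 2) + k % 2

lemma F_even (m k : ℕ) : F (m + 1) (2 * k) = 2 * F m k := by
  have h1 : 2 * k / 2 = k := by omega
  have h2 : (2 * k + 1) / 2 = k := by omega
  have h3 : 2 * k % 2 = 0 := by omega
  simp only [F, h1, h2, h3]
  omega

lemma F_odd (m k : ℕ) : F (m + 1) (2 * k + 1) = F m k + F m (k + 1) + 1 := by
  have h1 : (2 * k + 1) / 2 = k := by omega
  have h2 : (2 * k + 1 + 1) / 2 = k + 1 := by omega
  have h3 : (2 * k + 1) % 2 = 1 := by omega
  simp only [F, h1, h2, h3]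

/-- The midpoint inequality of the Takagi function. -/
lemma F_mid (m : ℕ) : ∀ a b : ℕ, F (m + 1) (a + b) ≤ F m a + F m b + (a - b) + (b - a) := by
  induction m with
  | zero =>
    intro a b
    simp only [F]
    omega
  | succ m ih =>
    intro a b
    rcases Nat.even_or_odd' a with ⟨a, rfl | rfl⟩ <;> rcases Nat.even_or_odd' b with ⟨b, rfl | rfl⟩
    · have e : 2 * a + 2 * b = 2 * (a + b) := by ring
      rw [e, F_even, F_even, F_even]
      have := ih a b
      omega
    · have e : 2 * a + (2 * b + 1) = 2 * (a + b) + 1 := by ring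
      rw [e, F_odd, F_even, F_odd]
      have h1 := ih a b
      have h2 := ih a (b + 1)
      rw [← add_assoc] at h2
      omega
    · have e : 2 * a + 1 + 2 * b = 2 * (a + b) + 1 := by ring
      rw [e, F_odd, F_even, F_odd]
      have h1 := ih a b
      have h2 := ih (a + 1) b
      have e2 : a + 1 + b = a + b + 1 := by ring
      rw [e2] at h2
      omega
    · have e : 2 * a + 1 + (2 * b + 1) = 2 * (a + b + 1) := by ring
      rw [e, F_even, F_odd, F_odd]
      have h1 := ih a (b + 1)
      have h2 := ih (a + 1) b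
      have e2 : a + 1 + b = a + b + 1 := by ring
      rw [e2] at h2
      rw [← add_assoc] at h1
      omega

/-- Lower bound of the Takagi function: `T(x) ≥ min (2x) (1 - x)`. -/
lemma F_lower (m : ℕ) : ∀ k : ℕ, min (2 * k) (2 ^ m - k) ≤ F m k := by
  induction m with
  | zero =>
    intro k
    simp only [F, pow_zero]
    omega
  | succ m ih =>
    intro k
    rcases Nat.even_or_odd' k with ⟨k, rfl | rfl⟩
    · rw [F_even, pow_succ]
      have := ih k
      omega
    · rw [F_odd, pow_succ]
      have h1 := ih k
      have h2 := ih (k + 1)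
      omega

variable {ι : Type*} [DecidableEq ι]

/-- `X` is an up-set among the subsets of `V`. -/
def Up (V : Finset ι) (X : Finset ι → Prop) : Prop :=
  ∀ Y Z, Z ⊆ V → Y ⊆ Z → X Y → X Z

/-- The number of subsets of `V` in `X`. -/
noncomputable def cnt (V : Finset ι) (X : Finset ι → Prop) : ℕ :=
  ∑ Y ∈ V.powerset, if X Y then 1 else 0

/-- The number of pairs `(Y, j)`, `Y` in `W` but not in `X`, `Y + j` in `X`. -/
noncomputable def ex (V : Finset ι) (X W : Finset ι → Prop) : ℕ :=
  ∑ Y ∈ V.powerset, ∑ j ∈ V \ Y, if W Y ∧ ¬ X Y ∧ X (insert j Y) then 1 else 0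

lemma cnt_insert {V : Finset ι} {a : ι} (ha : a ∉ V) (X : Finset ι → Prop) :
    cnt (insert a V) X = cnt V X + cnt V (fun Y => X (insert a Y)) := by
  unfold cnt
  rw [sum_powerset_insert ha]

lemma ex_insert {V : Finset ι} {a : ι} (ha : a ∉ V) (X W : Finset ι → Prop) :
    ex (insert a V) X W = ex V X W + ex V (fun Y => X (insert a Y)) (fun Y => W (insert a Y)) +
      ∑ Y ∈ V.powerset, if W Y ∧ ¬ X Y ∧ X (insert a Y) then 1 else 0 := by
  unfold ex
  rw [sum_powerset_insert ha]
  have h1 : ∀ Y ∈ V.powerset, (∑ j ∈ insert a V \ Y, if W Y ∧ ¬ X Y ∧ X (insert j Y) then 1 else 0)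
      = (∑ j ∈ V \ Y, if W Y ∧ ¬ X Y ∧ X (insert j Y) then 1 else 0)
        + (if W Y ∧ ¬ X Y ∧ X (insert a Y) then 1 else 0) := by
    intro Y hY
    have hY' := mem_powerset.1 hY
    have haY : a ∉ Y := fun h => ha (hY' h)
    rw [insert_sdiff_of_notMem _ haY, sum_insert (by simp [ha])]
    ring
  have h2 : ∀ Y ∈ V.powerset, (∑ j ∈ insert a V \ insert a Y,
      if W (insert a Y) ∧ ¬ X (insert a Y) ∧ X (insert j (insert a Y)) then 1 else 0)
      = (∑ j ∈ V \ Y, if W (insert a Y) ∧ ¬ X (insert a Y) ∧ X (insert a (insert j Y))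
          then 1 else 0) := by
    intro Y hY
    have hs : insert a V \ insert a Y = V \ Y := by
      ext x
      simp only [mem_sdiff, mem_insert]
      constructor
      · rintro ⟨h | h, h'⟩
        · exact absurd (Or.inl h) h'
        · exact ⟨h, fun h'' => h' (Or.inr h'')⟩
      · rintro ⟨h, h'⟩
        refine ⟨Or.inr h, ?_⟩
        rintro (h'' | h'')
        · exact ha (h'' ▸ h)
        · exact h' h''
    rw [hs]
    refine sum_congr rfl fun j _ => ?_
    rw [insert_comm]
  rw [sum_congr rfl h1, sum_congr rfl h2, sum_add_distrib]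
  ring

lemma Up.zero {V : Finset ι} {a : ι} {X : Finset ι → Prop} (h : Up (insert a V) X) :
    Up V X := fun Y Z hZ hYZ hY => h Y Z (hZ.trans (subset_insert _ _)) hYZ hY

lemma Up.one {V : Finset ι} {a : ι} {X : Finset ι → Prop} (h : Up (insert a V) X) :
    Up V (fun Y => X (insert a Y)) := fun _ _ hZ hYZ hY =>
  h _ _ (insert_subset_insert _ hZ) (insert_subset_insert _ hYZ) hY

/-- The recursively defined local densities (times `2^|V|`). -/
theorem main (V : Finset ι) : ∃ t : (Finset ι → Prop) → (Finset ι → Prop) → Finset ι → ℕ,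
    (∀ X W, Up V X → Up V W → (∀ Y ⊆ V, X Y → W Y) →
      ∑ Y ∈ V.powerset, (if W Y then t X W Y else 0) = 2 ^ V.card * cnt V X) ∧
    (∀ X W X' W', Up V W' → (∀ Y ⊆ V, W' Y → W Y) → (∀ Y ⊆ V, W' Y → X Y → X' Y) →
      ∀ Y ⊆ V, W' Y → t X W Y ≤ t X' W' Y) ∧
    (∀ X, Up V X → ∀ Y ⊆ V, t X (fun _ => True) Y = cnt V X) ∧
    (∀ X W, Up V X → Up V W → (∀ Y ⊆ V, X Y → W Y) →
      ∑ Y ∈ V.powerset, (if W Y then F V.card (t X W Y) else 0) ≤ 2 ^ V.card * ex V X W) := by
  induction V using Finset.induction_on with
  | empty =>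
    refine ⟨fun X _ _ => if X ∅ then 1 else 0, ?_, ?_, ?_, ?_⟩
    · intro X W hX hW hXW
      simp only [powerset_empty, sum_singleton, card_empty, pow_zero, cnt, one_mul]
      by_cases h : W ∅
      · simp [h]
      · have : ¬ X ∅ := fun h' => h (hXW ∅ (subset_refl _) h')
        simp [h, this]
    · intro X W X' W' _ _ h Y hY hW
      have hY' : Y = ∅ := subset_empty.1 hY
      subst hY'
      by_cases hx : X ∅
      · simp [hx, h ∅ (subset_refl _) hW hx]
      · simp [hx]
    · intro X _ Y _
      simp only [cnt, powerset_empty, sum_singleton]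
    · intro X W _ _ _
      simp [F]
  | insert a V ha ih =>
    obtain ⟨t, hsum, hmono, hcube, hex⟩ := ih
    let s1 : (Finset ι → Prop) → Finset ι → Prop := fun X Y => X (insert a Y)
    let t0 : (Finset ι → Prop) → (Finset ι → Prop) → Finset ι → ℕ := fun X W Y => t X W Y
    let t1 : (Finset ι → Prop) → (Finset ι → Prop) → Finset ι → ℕ :=
      fun X W Y => t (s1 X) (s1 W) Y
    let τ : (Finset ι → Prop) → (Finset ι → Prop) → Finset ι → ℕ := fun X W Y =>
      if a ∈ Y then (if W (Y.erase a) then min (2 * t1 X W (Y.erase a))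
          (t0 X W (Y.erase a) + t1 X W (Y.erase a)) else 2 * t1 X W (Y.erase a))
        else max (2 * t0 X W Y) (t0 X W Y + t1 X W Y)
    have τ0 : ∀ X W Y, Y ⊆ V → τ X W Y = max (2 * t0 X W Y) (t0 X W Y + t1 X W Y) := by
      intro X W Y hY
      have haY : a ∉ Y := fun h => ha (hY h)
      simp only [τ, if_neg haY]
    have τ1 : ∀ X W Y, Y ⊆ V → τ X W (insert a Y) = if W Y then min (2 * t1 X W Y)
        (t0 X W Y + t1 X W Y) else 2 * t1 X W Y := by
      intro X W Y hY
      have haY : a ∉ Y := fun h => ha (hY h)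
      simp only [τ, if_pos (mem_insert_self a Y), erase_insert haY]
    have hs : ∀ {W : Finset ι → Prop}, Up (insert a V) W → ∀ Y ⊆ V, W Y → s1 W Y := by
      intro W hW Y hY h
      exact hW Y (insert a Y) (insert_subset_insert _ hY) (subset_insert _ _) h
    refine ⟨τ, ?_, ?_, ?_, ?_⟩
    · -- total sum
      intro X W hX hW hXW
      have e0 := hsum X W hX.zero hW.zero
        (fun Y hY => hXW Y (hY.trans (subset_insert _ _)))
      have e1 := hsum (s1 X) (s1 W) hX.one hW.one
        (fun Y hY => hXW _ (insert_subset_insert _ hY))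
      rw [sum_powerset_insert ha, cnt_insert ha, card_insert_of_notMem ha, pow_succ]
      have : (∑ Y ∈ V.powerset, if W Y then τ X W Y else 0) +
          (∑ Y ∈ V.powerset, if W (insert a Y) then τ X W (insert a Y) else 0)
          = ∑ Y ∈ V.powerset, 2 * ((if W Y then t X W Y else 0) +
            (if s1 W Y then t (s1 X) (s1 W) Y else 0)) := by
        rw [← sum_add_distrib]
        refine sum_congr rfl fun Y hY => ?_
        have hY' := mem_powerset.1 hY
        rw [τ0 X W Y hY', τ1 X W Y hY']
        by_cases h : W Y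
        · have h1 : W (insert a Y) := hs hW Y hY' h
          simp only [if_pos h, if_pos h1, s1, t0, t1]
          omega
        · by_cases h1 : W (insert a Y)
          · simp only [if_neg h, if_pos h1, s1, t1]
            omega
          · simp only [if_neg h, if_neg h1, s1]
      rw [this, ← mul_sum, sum_add_distrib, e0, e1]
      ring
    · -- monotonicity
      intro X W X' W' hW' hWW hXX Y hY hWY
      by_cases haY : a ∈ Y
      · set Z := Y.erase a with hZ
        have hYZ : Y = insert a Z := (insert_erase haY).symm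
        have hZV : Z ⊆ V := by
          intro x hx
          have hx' := mem_erase.1 hx
          rcases mem_insert.1 (hY hx'.2) with h | h
          · exact absurd h hx'.1
          · exact h
        rw [hYZ] at hWY ⊢
        rw [τ1 X W Z hZV, τ1 X' W' Z hZV]
        have m1 : t1 X W Z ≤ t1 X' W' Z :=
          hmono _ _ _ _ hW'.one (fun Y hY => hWW _ (insert_subset_insert _ hY))
            (fun Y hY => hXX _ (insert_subset_insert _ hY)) Z hZV hWY
        by_cases h' : W' Z
        · have h : W Z := hWW Z (hZV.trans (subset_insert _ _)) h'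
          have m0 : t0 X W Z ≤ t0 X' W' Z :=
            hmono _ _ _ _ hW'.zero (fun Y hY => hWW _ (hY.trans (subset_insert _ _)))
              (fun Y hY => hXX _ (hY.trans (subset_insert _ _))) Z hZV h'
          rw [if_pos h, if_pos h']
          omega
        · rw [if_neg h']
          split_ifs <;> omega
      · have hYV : Y ⊆ V := by
          intro x hx
          rcases mem_insert.1 (hY hx) with h | h
          · exact absurd (h ▸ hx) haY
          · exact h
        rw [τ0 X W Y hYV, τ0 X' W' Y hYV]
        have m0 : t0 X W Y ≤ t0 X' W' Y :=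
          hmono _ _ _ _ hW'.zero (fun Y hY => hWW _ (hY.trans (subset_insert _ _)))
            (fun Y hY => hXX _ (hY.trans (subset_insert _ _))) Y hYV hWY
        have m1 : t1 X W Y ≤ t1 X' W' Y :=
          hmono _ _ _ _ hW'.one (fun Y hY => hWW _ (insert_subset_insert _ hY))
            (fun Y hY => hXX _ (insert_subset_insert _ hY)) Y hYV (hs hW' Y hYV hWY)
        omega
    · -- the cube
      intro X hX Y hY
      have c0 : ∀ Z ⊆ V, t0 X (fun _ => True) Z = cnt V X := fun Z hZ => hcube X hX.zero Z hZ
      have c1 : ∀ Z ⊆ V, t1 X (fun _ => True) Z = cnt V (s1 X) :=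
        fun Z hZ => hcube (s1 X) hX.one Z hZ
      have hle : cnt V X ≤ cnt V (s1 X) := by
        unfold cnt
        refine sum_le_sum fun Z hZ => ?_
        have := hs hX Z (mem_powerset.1 hZ)
        by_cases h : X Z
        · simp [h, this h]
        · simp [h]
      rw [cnt_insert ha]
      by_cases haY : a ∈ Y
      · have hYZ : Y = insert a (Y.erase a) := (insert_erase haY).symm
        have hZV : Y.erase a ⊆ V := by
          intro x hx
          have hx' := mem_erase.1 hx
          rcases mem_insert.1 (hY hx'.2) with h | h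
          · exact absurd h hx'.1
          · exact h
        rw [hYZ, τ1 X (fun _ => True) _ hZV, c0 _ hZV, c1 _ hZV, if_pos trivial]
        simp only [s1] at hle ⊢
        omega
      · have hYV : Y ⊆ V := by
          intro x hx
          rcases mem_insert.1 (hY hx) with h | h
          · exact absurd (h ▸ hx) haY
          · exact h
        rw [τ0 X (fun _ => True) Y hYV, c0 _ hYV, c1 _ hYV]
        simp only [s1] at hle ⊢
        omega
    · -- exits
      intro X W hX hW hXW
      have hXW0 : ∀ Y ⊆ V, X Y → W Y := fun Y hY => hXW Y (hY.trans (subset_insert _ _))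
      have hXW1 : ∀ Y ⊆ V, s1 X Y → s1 W Y := fun Y hY => hXW _ (insert_subset_insert _ hY)
      have i0 := hex X W hX.zero hW.zero hXW0
      have i1 := hex (s1 X) (s1 W) hX.one hW.one hXW1
      -- the pair (s1 X and W, W)
      have hUp : Up V (fun Y => s1 X Y ∧ W Y) := fun Y Z hZ hYZ h =>
        ⟨hX.one Y Z hZ hYZ h.1, hW.zero Y Z hZ hYZ h.2⟩
      have hc := hsum (fun Y => s1 X Y ∧ W Y) W hUp hW.zero (fun Y _ h => h.2)
      have h0 := hsum X W hX.zero hW.zero hXW0
      have hmax : ∑ Y ∈ V.powerset, (if W Y then max (t0 X W Y) (t1 X W Y) else 0) ≤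
          2 ^ V.card * cnt V (fun Y => s1 X Y ∧ W Y) := by
        rw [← hc]
        refine sum_le_sum fun Y hY => ?_
        have hY' := mem_powerset.1 hY
        by_cases h : W Y
        · simp only [if_pos h]
          refine max_le ?_ ?_
          · exact hmono X W _ W hW.zero (fun _ _ h => h)
              (fun Y hY hw hx => ⟨hs hX Y hY hx, hw⟩) Y hY' h
          · exact hmono (s1 X) (s1 W) _ W hW.zero (fun Y hY h => hs hW Y hY h)
              (fun Y hY hw hx => ⟨hx, hw⟩) Y hY' h
        · simp [h]
      have hcount : (∑ Y ∈ V.powerset, if W Y ∧ ¬ X Y ∧ X (insert a Y) then 1 else 0) + cnt V X =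
          cnt V (fun Y => s1 X Y ∧ W Y) := by
        unfold cnt
        rw [← sum_add_distrib]
        refine sum_congr rfl fun Y hY => ?_
        have hY' := mem_powerset.1 hY
        by_cases hx : X Y
        · have h1 := hXW0 Y hY' hx
          have h2 : X (insert a Y) := hs hX Y hY' hx
          simp [hx, h1, h2, s1]
        · simp only [hx, not_false_eq_true, true_and, if_false, add_zero, s1]
          by_cases hw : W Y <;> by_cases hx1 : X (insert a Y) <;> simp [hw, hx1]
      have hdir : ∑ Y ∈ V.powerset, (if W Y then (t1 X W Y - t0 X W Y) else 0) ≤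
          2 ^ V.card * ∑ Y ∈ V.powerset, (if W Y ∧ ¬ X Y ∧ X (insert a Y) then 1 else 0) := by
        have e1 : (∑ Y ∈ V.powerset, (if W Y then (t1 X W Y - t0 X W Y) else 0)) +
            ∑ Y ∈ V.powerset, (if W Y then t0 X W Y else 0) =
            ∑ Y ∈ V.powerset, (if W Y then max (t0 X W Y) (t1 X W Y) else 0) := by
          rw [← sum_add_distrib]
          refine sum_congr rfl fun Y _ => ?_
          split_ifs <;> omega
        have e2 : ∑ Y ∈ V.powerset, (if W Y then t0 X W Y else 0) = 2 ^ V.card * cnt V X := h0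
        have e3 := congrArg (fun x => 2 ^ V.card * x) hcount
        simp only [mul_add] at e3
        omega
      rw [ex_insert ha, sum_powerset_insert ha, card_insert_of_notMem ha, ← sum_add_distrib]
      have hpt : ∀ Y ∈ V.powerset, ((if W Y then F (V.card + 1) (τ X W Y) else 0) +
          (if W (insert a Y) then F (V.card + 1) (τ X W (insert a Y)) else 0)) ≤
          2 * ((if W Y then F V.card (t X W Y) else 0) +
            (if s1 W Y then F V.card (t (s1 X) (s1 W) Y) else 0) +
            (if W Y then (t1 X W Y - t0 X W Y) else 0)) := by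
        intro Y hY
        have hY' := mem_powerset.1 hY
        rw [τ0 X W Y hY', τ1 X W Y hY']
        by_cases h : W Y
        · have h1 : W (insert a Y) := hs hW Y hY' h
          simp only [if_pos h, if_pos h1, s1, t0, t1]
          rcases le_total (t (fun Y => X (insert a Y)) (fun Y => W (insert a Y)) Y) (t X W Y)
            with hle | hle
          · rw [max_eq_left (by omega), min_eq_left (by omega), F_even, F_even]
            omega
          · rw [max_eq_right (by omega), min_eq_right (by omega)]
            have := F_mid V.card (t X W Y)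
              (t (fun Y => X (insert a Y)) (fun Y => W (insert a Y)) Y)
            omega
        · by_cases h1 : W (insert a Y)
          · simp only [if_neg h, if_pos h1, s1, t1]
            rw [F_even]
            omega
          · simp only [if_neg h, if_neg h1, s1]
            omega
      refine (sum_le_sum hpt).trans ?_
      rw [← mul_sum, sum_add_distrib, sum_add_distrib, pow_succ]
      have e : 2 ^ V.card * 2 * (ex V X W + ex V (fun Y => X (insert a Y))
          (fun Y => W (insert a Y)) +
          ∑ Y ∈ V.powerset, if W Y ∧ ¬ X Y ∧ X (insert a Y) then 1 else 0) =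
          2 * (2 ^ V.card * ex V X W + 2 ^ V.card * ex V (s1 X) (s1 W) +
          2 ^ V.card * ∑ Y ∈ V.powerset, (if W Y ∧ ¬ X Y ∧ X (insert a Y) then 1 else 0)) := by
        ring
      rw [e]
      omega

/-- Up-set form: `X` contained in `W`, both up-sets, `X` of density at least `1/3`. -/
theorem iso_up (V : Finset ι) (X W : Finset ι → Prop) (hX : Up V X) (hW : Up V W)
    (hXW : ∀ Y ⊆ V, X Y → W Y) (h3 : 2 ^ V.card ≤ 3 * cnt V X) :
    cnt V W ≤ ex V X W + cnt V X := by
  obtain ⟨t, hsum, hmono, hcube, hex⟩ := main V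
  have h1 := hsum X W hX hW hXW
  have h2 := hex X W hX hW hXW
  have h4 : ∑ Y ∈ V.powerset, (if W Y then 2 ^ V.card else 0) ≤
      ∑ Y ∈ V.powerset, ((if W Y then F V.card (t X W Y) else 0) +
        (if W Y then t X W Y else 0)) := by
    refine sum_le_sum fun Y hY => ?_
    have hY' := mem_powerset.1 hY
    by_cases h : W Y
    · simp only [if_pos h]
      have hm := hmono X (fun _ => True) X W hW (fun _ _ _ => trivial) (fun _ _ _ h => h) Y hY' h
      rw [hcube X hX Y hY'] at hm
      have := F_lower V.card (t X W Y)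
      omega
    · simp [h]
  have h5 : ∑ Y ∈ V.powerset, (if W Y then 2 ^ V.card else 0) = 2 ^ V.card * cnt V W := by
    unfold cnt
    rw [mul_sum]
    refine sum_congr rfl fun Y _ => ?_
    split_ifs <;> simp
  rw [h5, sum_add_distrib, h1] at h4
  have h6 : 2 ^ V.card * cnt V W ≤ 2 ^ V.card * (ex V X W + cnt V X) := by
    rw [mul_add]
    omega
  exact Nat.le_of_mul_le_mul_left h6 (by positivity)

/-- The isoperimetric inequality: `D` a down-set of density at most `2/3`, `U` an up-set. -/
theorem iso (V : Finset ι) (D U : Finset ι → Prop)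
    (hD : ∀ Y Z, Z ⊆ V → Y ⊆ Z → D Z → D Y) (hU : ∀ Y Z, Z ⊆ V → Y ⊆ Z → U Y → U Z)
    (h : 3 * (V.powerset.filter D).card ≤ 2 * 2 ^ V.card) :
    (V.powerset.filter (fun Y => D Y ∧ U Y)).card ≤
      ∑ Y ∈ V.powerset.filter (fun Y => D Y ∧ U Y),
        ((V \ Y).filter (fun j => ¬ D (insert j Y))).card := by
  have hXc : cnt V (fun Y => ¬ D Y) + (V.powerset.filter D).card = 2 ^ V.card := by
    have e : cnt V (fun Y => ¬ D Y) = (V.powerset.filter (fun Y => ¬ D Y)).card := by
      rw [card_filter]
      unfold cnt
      refine sum_congr rfl fun Y _ => ?_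
      by_cases hd : D Y <;> simp [hd]
    rw [e, ← card_powerset V, ← card_filter_add_card_filter_not (s := V.powerset) D, add_comm]
  have key := iso_up V (fun Y => ¬ D Y) (fun Y => ¬ D Y ∨ U Y)
    (fun Y Z hZ hYZ h h' => h (hD Y Z hZ hYZ h'))
    (fun Y Z hZ hYZ h => h.elim (fun h => Or.inl fun h' => h (hD Y Z hZ hYZ h'))
      fun h => Or.inr (hU Y Z hZ hYZ h))
    (fun Y _ h => Or.inl h) (by omega)
  have e1 : cnt V (fun Y => ¬ D Y ∨ U Y) = cnt V (fun Y => ¬ D Y) +
      (V.powerset.filter (fun Y => D Y ∧ U Y)).card := by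
    unfold cnt
    rw [card_filter, ← sum_add_distrib]
    refine sum_congr rfl fun Y _ => ?_
    by_cases hd : D Y <;> by_cases hu : U Y <;> simp [hd, hu]
  have e2 : ex V (fun Y => ¬ D Y) (fun Y => ¬ D Y ∨ U Y) =
      ∑ Y ∈ V.powerset.filter (fun Y => D Y ∧ U Y),
        ((V \ Y).filter (fun j => ¬ D (insert j Y))).card := by
    unfold ex
    rw [sum_filter]
    refine sum_congr rfl fun Y _ => ?_
    by_cases hd : D Y <;> by_cases hu : U Y <;> simp [hd, hu, card_filter]
  rw [e1, e2] at key
  omega

end Pool.Agent.H54.Iso
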