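import Pool.Agent.H54.Monophonic

set_option autoImplicit false

namespace Pool.Agent.H54.Mono

variable {V : Type}

theorem OnPath.swap12 {G : SimpleGraph V} {x y z : V} (h : OnPath G x y z) : OnPath G y x z := by
  obtain ⟨k, f, h1, h2, h3⟩ := h
  exact ⟨k, f, h2, h1, h3⟩

theorem OnPath.swap23 {G : SimpleGraph V} {x y z : V} (h : OnPath G x y z) : OnPath G x z y := by
  obtain ⟨k, f, h1, h2, h3⟩ := h
  exact ⟨k, f, h1, h3, h2⟩

theorem OnPath.rot {G : SimpleGraph V} {x y z : V} (h : OnPath G x y z) : OnPath G y z x := by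
  obtain ⟨k, f, h1, h2, h3⟩ := h
  exact ⟨k, f, h2, h3, h1⟩

theorem bdd [Fintype V] (G : SimpleGraph V) :
    BddAbove {k : ℕ | ∃ S : Finset V, IsMonoPos G S ∧ S.card = k} := by
  refine ⟨Fintype.card V, ?_⟩
  rintro k ⟨S, _, rfl⟩
  exact Finset.card_le_univ S

theorem le_mp [Fintype V] {G : SimpleGraph V} {S : Finset V} (h : IsMonoPos G S) :
    S.card ≤ mp G :=
  le_csSup (bdd G) ⟨S, h, rfl⟩

/-- if every triple lies on a common induced path then `mp = 2` -/
theorem mp_eq_two [Fintype V] {G : SimpleGraph V} (a b : V) (hab : a ≠ b)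
    (h : ∀ x y z : V, x ≠ y → x ≠ z → y ≠ z → OnPath G x y z) : mp G = 2 := by
  classical
  apply le_antisymm
  · apply csSup_le'
    rintro k ⟨S, hS, rfl⟩
    by_contra hlt
    push Not at hlt
    obtain ⟨x, y, z, hx, hy, hz, hxy, hxz, hyz⟩ := Finset.two_lt_card_iff.mp hlt
    exact hS x hx y hy z hz hxy hxz hyz (h x y z hxy hxz hyz)
  · have : IsMonoPos G {a, b} := by
      intro x hx y hy z hz hxy hxz hyz
      simp only [Finset.mem_insert, Finset.mem_singleton] at hx hy hz
      exfalso
      rcases hx with rfl | rfl <;> rcases hy with rfl | rfl <;> rcases hz with rfl | rfl <;>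
        simp_all
    have h2 := le_mp this
    rwa [Finset.card_pair hab] at h2

/-- if some triple lies on no common induced path then `mp ≥ 3` -/
theorem onPath_of_mp [Fintype V] {G : SimpleGraph V} (hG : mp G = 2) (x y z : V) (hxy : x ≠ y)
    (hxz : x ≠ z) (hyz : y ≠ z) : OnPath G x y z := by
  classical
  by_contra hcon
  have : IsMonoPos G {x, y, z} := by
    intro a ha b hb c hc hab hac hbc hP
    apply hcon
    simp only [Finset.mem_insert, Finset.mem_singleton] at ha hb hc
    rcases ha with rfl | rfl | rfl <;> rcases hb with rfl | rfl | rfl <;>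
      rcases hc with rfl | rfl | rfl <;>
      first
        | exact absurd rfl hab
        | exact absurd rfl hac
        | exact absurd rfl hbc
        | exact hP
        | exact hP.swap23
        | exact hP.swap12
        | exact hP.rot.rot
        | exact hP.rot
        | exact hP.swap12.rot
        | exact hP.swap12.rot.rot
  have h2 := le_mp this
  rw [Finset.card_eq_three.mpr ⟨x, y, z, hxy, hxz, hyz, rfl⟩] at h2
  omega

theorem not_onPath_triangle {G : SimpleGraph V} {x y z : V} (h1 : G.Adj x y) (h2 : G.Adj x z)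
    (h3 : G.Adj y z) : ¬ OnPath G x y z := by
  rintro ⟨k, f, ⟨i, rfl⟩, ⟨j, rfl⟩, ⟨l, rfl⟩⟩
  rw [f.map_adj_iff, SimpleGraph.pathGraph_adj] at h1 h2 h3
  omega

/-- three vertices with the same neighbours do not lie on a common induced path -/
theorem not_onPath_twins {G : SimpleGraph V} {x y z : V} (hxy : x ≠ y) (hxz : x ≠ z)
    (hyz : y ≠ z) (h1 : ∀ w, G.Adj w x ↔ G.Adj w y) (h2 : ∀ w, G.Adj w x ↔ G.Adj w z) :
    ¬ OnPath G x y z := by
  rintro ⟨k, f, ⟨i, rfl⟩, ⟨j, rfl⟩, ⟨l, rfl⟩⟩
  have hij : i.val ≠ j.val := fun h => hxy (by rw [Fin.ext h])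
  have hil : i.val ≠ l.val := fun h => hxz (by rw [Fin.ext h])
  have hjl : j.val ≠ l.val := fun h => hyz (by rw [Fin.ext h])
  have hi := i.isLt
  have hj := j.isLt
  have hl := l.isLt
  have key : ∀ m : Fin k, (m.val + 1 = i.val ∨ i.val + 1 = m.val) → False := by
    intro m hm
    have a1 : G.Adj (f m) (f i) := by
      rw [f.map_adj_iff, SimpleGraph.pathGraph_adj]
      exact hm
    have a2 := (h1 _).mp a1
    have a3 := (h2 _).mp a1
    rw [f.map_adj_iff, SimpleGraph.pathGraph_adj] at a2 a3
    omega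
  by_cases h0 : i.val = 0
  · exact key ⟨1, by omega⟩ (Or.inr (by simp [h0]))
  · exact key ⟨i.val - 1, by omega⟩ (Or.inl (by simp; omega))

theorem diam_eq_two [Fintype V] {G : SimpleGraph V} (a b : V) (hab : a ≠ b) (hnab : ¬ G.Adj a b)
    (h : ∀ u v : V, u ≠ v → ¬ G.Adj u v → ∃ w, G.Adj u w ∧ G.Adj w v) : G.diam = 2 := by
  have hle : ∀ u v : V, G.edist u v ≤ 2 := by
    intro u v
    by_cases huv : u = v
    · subst huv
      simp
    · by_cases hadj : G.Adj u v
      · have := SimpleGraph.edist_eq_one_iff_adj.mpr hadj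
        rw [this]
        norm_num
      · obtain ⟨w, hw1, hw2⟩ := h u v huv hadj
        let p : G.Walk u v := SimpleGraph.Walk.cons hw1 (SimpleGraph.Walk.cons hw2 SimpleGraph.Walk.nil)
        have := SimpleGraph.Walk.edist_le p
        simpa [p] using this
  have h1 : G.ediam ≤ 2 := SimpleGraph.ediam_le_of_edist_le hle
  have h2 : G.edist a b = 2 := by
    apply le_antisymm (hle a b)
    by_contra hlt
    push Not at hlt
    have h3 : G.edist a b ≠ 0 := fun h0 => hab (SimpleGraph.edist_eq_zero_iff.mp h0)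
    have h4 : G.edist a b ≠ 1 := fun h0 => hnab (SimpleGraph.edist_eq_one_iff_adj.mp h0)
    generalize G.edist a b = e at *
    induction e using ENat.recTopCoe with
    | top => exact absurd hlt (by simp)
    | coe m =>
      have : m < 2 := by exact_mod_cast hlt
      interval_cases m <;> simp_all
  have h3 : G.ediam = 2 := le_antisymm h1 (h2 ▸ SimpleGraph.edist_le_ediam)
  rw [SimpleGraph.diam, h3]
  rfl

theorem common_of_diam [Fintype V] {G : SimpleGraph V} (hG : G.diam = 2) (u v : V)
    (huv : u ≠ v) (hn : ¬ G.Adj u v) : ∃ w, G.Adj u w ∧ G.Adj w v := by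
  have h1 : G.ediam ≠ ⊤ := SimpleGraph.ediam_ne_top_of_diam_ne_zero (by omega)
  have h2 := SimpleGraph.dist_le_diam h1 (u := u) (v := v)
  have : Nonempty V := ⟨u⟩
  have hc : G.Connected := SimpleGraph.connected_of_ediam_ne_top h1
  obtain ⟨p, hp⟩ := (hc u v).exists_walk_length_eq_dist
  have h3 : p.length ≤ 2 := by omega
  cases p with
  | nil => exact absurd rfl huv
  | cons h p =>
    cases p with
    | nil => exact absurd h hn
    | cons h' p =>
      cases p with
      | nil => exact ⟨_, h, h'⟩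
      | cons h'' p => simp at h3

end Pool.Agent.H54.Mono
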