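import Mathlib

/-!
Monophonic (induced) paths and the monophonic position number of a graph.
-/

set_option autoImplicit false

namespace Pool.Agent.H54.Mono

variable {V : Type}

/-- `x`, `y`, `z` lie on a common monophonic path of `G`: an induced path of `G` with `k`
vertices is an embedding of the path graph `pathGraph k` as an induced subgraph. -/
def OnPath (G : SimpleGraph V) (x y z : V) : Prop :=
  ∃ (k : ℕ) (f : SimpleGraph.pathGraph k ↪g G),
    x ∈ Set.range f ∧ y ∈ Set.range f ∧ z ∈ Set.range f

/-- `S` is a monophonic position set of `G`: no three distinct vertices of `S` lie on a common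
monophonic path. -/
def IsMonoPos (G : SimpleGraph V) (S : Finset V) : Prop :=
  ∀ x ∈ S, ∀ y ∈ S, ∀ z ∈ S, x ≠ y → x ≠ z → y ≠ z → ¬ OnPath G x y z

/-- the monophonic position number `mp(G)`: the largest size of a monophonic position set -/
noncomputable def mp (G : SimpleGraph V) : ℕ :=
  sSup {k : ℕ | ∃ S : Finset V, IsMonoPos G S ∧ S.card = k}

end Pool.Agent.H54.Mono
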