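import Mathlib
import Pool.Agent.H54.N19Data

set_option autoImplicit false

namespace Pool.Agent.H54.N19

theorem cc_sub : ∀ T : Fin 19, ∀ a : Fin 8, ∀ b0 b1 b2 b3 : Bool,
    cc T.val a.val = enc b0 b1 b2 b3 →
      (b0 = true → s1 T.val 0 = true) ∧ (b1 = true → s1 T.val 1 = true) ∧
      (b2 = true → s1 T.val 2 = true) ∧ (b3 = true → s1 T.val 3 = true) := by
  decide +kernel

theorem dc_sub : ∀ T : Fin 19, ∀ a : Fin 8, ∀ b0 b1 b2 b3 : Bool,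
    dc T.val a.val = enc b0 b1 b2 b3 →
      (b0 = true → s1 T.val 0 = false) ∧ (b1 = true → s1 T.val 1 = false) ∧
      (b2 = true → s1 T.val 2 = false) ∧ (b3 = true → s1 T.val 3 = false) := by
  decide +kernel

theorem dir_zero : ∀ e : Fin 6, ∀ a b : Fin 8, ∀ b0 b1 b2 b3 : Bool,
    (dt e.val a.val b.val (enc b0 b1 b2 b3) = 0 ↔ de e.val a.val b.val (enc b0 b1 b2 b3) = 0) := by
  decide +kernel

theorem de_symm : ∀ e : Fin 6, ∀ a b : Fin 8, ∀ b0 b1 b2 b3 : Bool,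
    de e.val a.val b.val (enc b0 b1 b2 b3) = de e.val b.val a.val (enc b0 b1 b2 b3) := by
  decide +kernel

theorem flip_dt : ∀ e : Fin 6, ∀ a b : Fin 8, ∀ b0 b1 b2 b3 : Bool,
    (dt e.val a.val b.val (enc b0 b1 b2 b3) = 1 → dt e.val a.val b.val (enc (!b0) b1 b2 b3) = 1) ∧
    (dt e.val a.val b.val (enc b0 b1 b2 b3) = 2 → dt e.val a.val b.val (enc b0 (!b1) b2 b3) = 2) ∧
    (dt e.val a.val b.val (enc b0 b1 b2 b3) = 3 → dt e.val a.val b.val (enc b0 b1 (!b2) b3) = 3) ∧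
    (dt e.val a.val b.val (enc b0 b1 b2 b3) = 4 → dt e.val a.val b.val (enc b0 b1 b2 (!b3)) = 4) := by
  decide +kernel

theorem flip_de : ∀ e : Fin 6, ∀ a b : Fin 8, ∀ b0 b1 b2 b3 : Bool,
    (de e.val a.val b.val (enc b0 b1 b2 b3) = 1 → de e.val a.val b.val (enc (!b0) b1 b2 b3) = 1) ∧
    (de e.val a.val b.val (enc b0 b1 b2 b3) = 2 → de e.val a.val b.val (enc b0 (!b1) b2 b3) = 2) ∧
    (de e.val a.val b.val (enc b0 b1 b2 b3) = 3 → de e.val a.val b.val (enc b0 b1 (!b2) b3) = 3) ∧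
    (de e.val a.val b.val (enc b0 b1 b2 b3) = 4 → de e.val a.val b.val (enc b0 b1 b2 (!b3)) = 4) := by
  decide +kernel

theorem de_lt : ∀ e : Fin 6, ∀ a b : Fin 8, ∀ b0 b1 b2 b3 : Bool,
    (a ≠ b ∨ (b0 || b1 || b2 || b3) = true) → de e.val a.val b.val (enc b0 b1 b2 b3) < 5 := by
  decide +kernel

theorem dt_le : ∀ e : Fin 6, ∀ a b : Fin 8, ∀ b0 b1 b2 b3 : Bool,
    dt e.val a.val b.val (enc b0 b1 b2 b3) ≤ 5 := by
  decide +kernel

theorem de_diag : ∀ e : Fin 6, ∀ a : Fin 8, de e.val a.val a.val 0 = 5 := by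
  decide +kernel

theorem ex_lt : ∀ e : Fin 6, ex e.val < 4 ∧ ey e.val < 4 ∧ ex e.val ≠ ey e.val := by
  decide

theorem edge_exists : ∀ x y : Fin 4, x ≠ y → ∃ e : Fin 6,
    ((x.val = ex e.val ∧ y.val = ey e.val) ∨ (y.val = ex e.val ∧ x.val = ey e.val)) ∧
    ∀ e' : Fin 6, ((x.val = ex e'.val ∧ y.val = ey e'.val) ∨ (y.val = ex e'.val ∧ x.val = ey e'.val)) →
      e' = e := by
  decide

theorem ab_disj : ∀ T : Fin 19, ∀ x : Fin 4, ¬ (am T.val x.val = true ∧ bm T.val x.val = true) := by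
  decide +kernel

end Pool.Agent.H54.N19
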