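import Mathlib
import Pool.Agent.H54.N19Chk
import Pool.Agent.H54.Bicl

set_option autoImplicit false

namespace Pool.Agent.H54.N19

open Pool.Agent.H54.Bicl

/-- Vertices: class, ordered coordinate, four unordered coordinates. -/
abbrev V (k : ℕ) : Type := Fin 8 × Fin k × (Fin 4 → Fin k)

abbrev Q (k : ℕ) : Type := Fin 8 × (Fin 4 → Fin k)

def df {k : ℕ} (y z : Fin 4 → Fin k) (j : Fin 4) : Bool := decide (y j ≠ z j)

def encf (J : Fin 4 → Bool) : ℕ := enc (J 0) (J 1) (J 2) (J 3)

theorem df_comm {k : ℕ} (y z : Fin 4 → Fin k) : df y z = df z y := by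
  funext j; simp [df, eq_comm]

def mtf (T a b : ℕ) (J : Fin 4 → Bool) : Bool := mt T a b (J 0) (J 1) (J 2) (J 3)

def zz {k : ℕ} (T : ℕ) (y y' : Fin 4 → Fin k) (j : Fin 4) : Fin k := if s1 T j.val then y' j else y j

theorem enc_inj {a0 a1 a2 a3 b0 b1 b2 b3 : Bool} (h : enc a0 a1 a2 a3 = enc b0 b1 b2 b3) :
    a0 = b0 ∧ a1 = b1 ∧ a2 = b2 ∧ a3 = b3 := by
  revert a0 a1 a2 a3 b0 b1 b2 b3
  decide

theorem match_iff {k : ℕ} (T : Fin 19) (a b : Fin 8) (y y' z : Fin 4 → Fin k) :
    (cc T.val a.val = encf (df y z) ∧ dc T.val b.val = encf (df y' z)) ↔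
      (mtf T.val a.val b.val (df y y') = true ∧ z = zz T.val y y') := by
  constructor
  · rintro ⟨h1, h2⟩
    have c := cc_sub T a _ _ _ _ h1
    have d := dc_sub T b _ _ _ _ h2
    have hc : ∀ j : Fin 4, df y z j = true → s1 T.val j.val = true := by
      intro j; fin_cases j
      · exact c.1
      · exact c.2.1
      · exact c.2.2.1
      · exact c.2.2.2
    have hd : ∀ j : Fin 4, df y' z j = true → s1 T.val j.val = false := by
      intro j; fin_cases j
      · exact d.1
      · exact d.2.1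
      · exact d.2.2.1
      · exact d.2.2.2
    have hz : z = zz T.val y y' := by
      funext j
      unfold zz
      by_cases hs : s1 T.val j.val = true
      · rw [if_pos hs]
        by_contra hne
        have : df y' z j = true := by simp [df]; exact fun e => hne e.symm
        rw [hd j this] at hs
        exact absurd hs (by simp)
      · rw [if_neg hs]
        by_contra hne
        have : df y z j = true := by simp [df]; exact fun e => hne e.symm
        exact hs (hc j this)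
    have e1 : ∀ j : Fin 4, df y z j = (df y y' j && s1 T.val j.val) := by
      intro j
      have hzj : z j = zz T.val y y' j := by rw [← hz]
      unfold zz at hzj
      by_cases hs : s1 T.val j.val = true
      · rw [if_pos hs] at hzj
        simp [df, hzj, hs]
      · rw [if_neg hs] at hzj
        simp only [Bool.not_eq_true] at hs
        simp [df, hzj, hs]
    have e2 : ∀ j : Fin 4, df y' z j = (df y y' j && !s1 T.val j.val) := by
      intro j
      have hzj : z j = zz T.val y y' j := by rw [← hz]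
      unfold zz at hzj
      by_cases hs : s1 T.val j.val = true
      · rw [if_pos hs] at hzj
        simp [df, hzj, hs]
      · rw [if_neg hs] at hzj
        simp only [Bool.not_eq_true] at hs
        simp [df, hzj, hs, eq_comm]
    refine ⟨?_, hz⟩
    unfold mtf mt
    rw [Bool.and_eq_true, beq_iff_eq, beq_iff_eq]
    unfold encf at h1 h2
    rw [e1 0, e1 1, e1 2, e1 3] at h1
    rw [e2 0, e2 1, e2 2, e2 3] at h2
    exact ⟨h1, h2⟩
  · rintro ⟨h, hz⟩
    unfold mtf mt at h
    rw [Bool.and_eq_true, beq_iff_eq, beq_iff_eq] at h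
    obtain ⟨h1, h2⟩ := h
    have c := cc_sub T a _ _ _ _ h1
    have d := dc_sub T b _ _ _ _ h2
    have e1 : ∀ j : Fin 4, df y z j = (df y y' j && s1 T.val j.val) := by
      intro j
      have hzj : z j = zz T.val y y' j := by rw [← hz]
      unfold zz at hzj
      by_cases hs : s1 T.val j.val = true
      · rw [if_pos hs] at hzj
        simp [df, hzj, hs]
      · rw [if_neg hs] at hzj
        simp only [Bool.not_eq_true] at hs
        simp [df, hzj, hs]
    have e2 : ∀ j : Fin 4, df y' z j = (df y y' j && !s1 T.val j.val) := by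
      intro j
      have hzj : z j = zz T.val y y' j := by rw [← hz]
      unfold zz at hzj
      by_cases hs : s1 T.val j.val = true
      · rw [if_pos hs] at hzj
        simp [df, hzj, hs]
      · rw [if_neg hs] at hzj
        simp only [Bool.not_eq_true] at hs
        simp [df, hzj, hs, eq_comm]
    unfold encf
    rw [e1 0, e1 1, e1 2, e1 3, e2 0, e2 1, e2 2, e2 3]
    exact ⟨h1, h2⟩

/-- the two sides of the family bicliques -/
def FC {k : ℕ} (T : Fin 19) (s : Fin k) (z : Fin 4 → Fin k) (v : V k) : Prop :=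
  v.2.1 = s ∧ cc T.val v.1.val = encf (df v.2.2 z)

def FD {k : ℕ} (T : Fin 19) (s : Fin k) (z : Fin 4 → Fin k) (v : V k) : Prop :=
  (if orr T.val v.1.val then s < v.2.1 else v.2.1 < s) ∧ dc T.val v.1.val = encf (df v.2.2 z)

theorem FCD_iff {k : ℕ} (T : Fin 19) (s : Fin k) (z : Fin 4 → Fin k) (u v : V k) :
    (FC T s z u ∧ FD T s z v) ↔
      (s = u.2.1 ∧ z = zz T.val u.2.2 v.2.2 ∧
        (if orr T.val v.1.val then u.2.1 < v.2.1 else v.2.1 < u.2.1) ∧
        mtf T.val u.1.val v.1.val (df u.2.2 v.2.2) = true) := by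
  unfold FC FD
  constructor
  · rintro ⟨⟨rfl, h1⟩, h2, h3⟩
    obtain ⟨h4, h5⟩ := (match_iff T u.1 v.1 u.2.2 v.2.2 z).1 ⟨h1, h3⟩
    exact ⟨rfl, h5, h2, h4⟩
  · rintro ⟨rfl, h5, h2, h4⟩
    obtain ⟨h1, h3⟩ := (match_iff T u.1 v.1 u.2.2 v.2.2 z).2 ⟨h4, h5⟩
    exact ⟨⟨rfl, h1⟩, h2, h3⟩

theorem fam_lt {k : ℕ} (T : Fin 19) (e : ℕ) (s : Fin k) (z : Fin 4 → Fin k) (u v : V k)
    (hlt : v.2.1 < u.2.1) :
    (hasE T.val e = true ∧ ((FC T s z u ∧ FD T s z v) ∨ (FC T s z v ∧ FD T s z u))) ↔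
      ((w1 e T.val u.1.val v.1.val (df u.2.2 v.2.2 0) (df u.2.2 v.2.2 1) (df u.2.2 v.2.2 2)
          (df u.2.2 v.2.2 3) = true ∧ s = u.2.1 ∧ z = zz T.val u.2.2 v.2.2) ∨
        (w2 e T.val u.1.val v.1.val (df u.2.2 v.2.2 0) (df u.2.2 v.2.2 1) (df u.2.2 v.2.2 2)
          (df u.2.2 v.2.2 3) = true ∧ s = v.2.1 ∧ z = zz T.val v.2.2 u.2.2)) := by
  rw [FCD_iff, FCD_iff, df_comm v.2.2 u.2.2]
  unfold w1 w2
  have h1 : (if orr T.val v.1.val then u.2.1 < v.2.1 else v.2.1 < u.2.1) ↔ orr T.val v.1.val = false := by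
    by_cases h : orr T.val v.1.val = true
    · rw [if_pos h, h]
      simp [le_of_lt hlt]
    · rw [if_neg h]
      simp only [Bool.not_eq_true] at h
      simp [h, hlt]
  have h2 : (if orr T.val u.1.val then v.2.1 < u.2.1 else u.2.1 < v.2.1) ↔ orr T.val u.1.val = true := by
    by_cases h : orr T.val u.1.val = true
    · rw [if_pos h, h]
      simp [hlt]
    · rw [if_neg h]
      simp only [Bool.not_eq_true] at h
      simp [h, le_of_lt hlt]
  rw [h1, h2]
  simp only [mtf, Bool.and_eq_true, Bool.not_eq_true']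
  tauto

theorem cnt_eq (e a b : ℕ) (b0 b1 b2 b3 : Bool) (n : ℕ) :
    cnt e a b b0 b1 b2 b3 n =
      ∑ T ∈ Finset.range n, ((w1 e T a b b0 b1 b2 b3).toNat + (w2 e T a b b0 b1 b2 b3).toNat) := by
  induction n with
  | zero => rfl
  | succ n ih => rw [Finset.sum_range_succ, ← ih, cnt]; ring

/-- at most / exactly one way -/
theorem cnt_zero {e a b : ℕ} {b0 b1 b2 b3 : Bool} (h : cnt e a b b0 b1 b2 b3 19 = 0) (T : Fin 19) :
    w1 e T.val a b b0 b1 b2 b3 = false ∧ w2 e T.val a b b0 b1 b2 b3 = false := by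
  rw [cnt_eq, Finset.sum_eq_zero_iff] at h
  have := h T.val (Finset.mem_range.2 T.isLt)
  constructor
  · cases hw : w1 e T.val a b b0 b1 b2 b3
    · rfl
    · rw [hw] at this; simp at this
  · cases hw : w2 e T.val a b b0 b1 b2 b3
    · rfl
    · rw [hw] at this; simp at this

theorem cnt_one {e a b : ℕ} {b0 b1 b2 b3 : Bool} (h : cnt e a b b0 b1 b2 b3 19 = 1) :
    ∃ T : Fin 19,
      ((w1 e T.val a b b0 b1 b2 b3 = true ∧ w2 e T.val a b b0 b1 b2 b3 = false) ∨
        (w1 e T.val a b b0 b1 b2 b3 = false ∧ w2 e T.val a b b0 b1 b2 b3 = true)) ∧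
      ∀ T' : Fin 19, T' ≠ T → w1 e T'.val a b b0 b1 b2 b3 = false ∧ w2 e T'.val a b b0 b1 b2 b3 = false := by
  rw [cnt_eq, Finset.sum_range] at h
  obtain ⟨T, _, hT⟩ := Finset.exists_ne_zero_of_sum_ne_zero (by rw [h]; exact one_ne_zero)
  have hsplit := Finset.add_sum_erase Finset.univ
    (fun T : Fin 19 => (w1 e T.val a b b0 b1 b2 b3).toNat + (w2 e T.val a b b0 b1 b2 b3).toNat)
    (Finset.mem_univ T)
  rw [h] at hsplit
  have h0 : ∑ x ∈ Finset.univ.erase T, ((w1 e x.val a b b0 b1 b2 b3).toNat +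
      (w2 e x.val a b b0 b1 b2 b3).toNat) = 0 := by
    omega
  refine ⟨T, ?_, ?_⟩
  · rw [h0, add_zero] at hsplit
    cases h1 : w1 e T.val a b b0 b1 b2 b3 <;> cases h2 : w2 e T.val a b b0 b1 b2 b3 <;>
      simp [h1, h2] at hsplit ⊢
  · intro T' hT'
    rw [Finset.sum_eq_zero_iff] at h0
    have := h0 T' (Finset.mem_erase.2 ⟨hT', Finset.mem_univ _⟩)
    constructor
    · cases hw : w1 e T'.val a b b0 b1 b2 b3
      · rfl
      · rw [hw] at this; simp at this
    · cases hw : w2 e T'.val a b b0 b1 b2 b3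
      · rfl
      · rw [hw] at this; simp at this

/-- direction of a pair for the edge `e` (5 = covered by a family) -/
def dirOf {k : ℕ} (e : ℕ) (u v : V k) : ℕ :=
  if v.2.1 < u.2.1 then dt e u.1.val v.1.val (encf (df u.2.2 v.2.2))
  else if u.2.1 < v.2.1 then dt e v.1.val u.1.val (encf (df u.2.2 v.2.2))
  else de e u.1.val v.1.val (encf (df u.2.2 v.2.2))

theorem dirOf_comm {k : ℕ} (e : Fin 6) (u v : V k) : dirOf e.val u v = dirOf e.val v u := by
  unfold dirOf
  rw [df_comm v.2.2 u.2.2]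
  rcases lt_trichotomy u.2.1 v.2.1 with h | h | h
  · rw [if_neg (not_lt.2 h.le), if_pos h, if_pos h]
  · rw [h]
    simp only [lt_self_iff_false, if_false]
    exact de_symm e u.1 v.1 _ _ _ _
  · rw [if_pos h, if_neg (not_lt.2 h.le), if_pos h]

end Pool.Agent.H54.N19
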