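import Mathlib
import Pool.Agent.H54.N19Main

set_option autoImplicit false

namespace Pool.Agent.H54.N19

open Pool.Agent.H54.Bicl

/-- Star partition of a relation that factors through a quotient map. -/
noncomputable def BP.quot {V : Type} (S : V → V → Prop) (Q : Type) [Fintype Q] (pr : V → Q)
    (hsymm : ∀ u v, S u v → S v u)
    (hinv : ∀ u v u' v', pr u = pr u' → pr v = pr v' → S u v → S u' v')
    (hirr : ∀ u v, S u v → pr u ≠ pr v) : BP S Q where
  C q v := pr v = q
  D q v := (∃ u, pr u = q ∧ S u v) ∧ Fintype.equivFin Q q < Fintype.equivFin Q (pr v)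
  disj := by
    rintro q v ⟨rfl, _, h⟩
    exact lt_irrefl _ h
  cover := by
    intro u v _ hS
    have hne := hirr u v hS
    have hne' : Fintype.equivFin Q (pr u) ≠ Fintype.equivFin Q (pr v) :=
      fun h => hne ((Fintype.equivFin Q).injective h)
    rcases lt_or_gt_of_ne hne' with h | h
    · refine ⟨pr u, Or.inl ⟨rfl, ⟨u, rfl, hS⟩, h⟩, ?_⟩
      rintro q (⟨h1, _, h3⟩ | ⟨h1, _, h3⟩)
      · exact h1.symm
      · subst h1; exact absurd h (not_lt.2 h3.le)
    · refine ⟨pr v, Or.inr ⟨rfl, ⟨v, rfl, hsymm _ _ hS⟩, h⟩, ?_⟩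
      rintro q (⟨h1, _, h3⟩ | ⟨h1, _, h3⟩)
      · subst h1; exact absurd h (not_lt.2 h3.le)
      · exact h1.symm
  sub := by
    rintro u v q (⟨h1, ⟨u', h2, h3⟩, _⟩ | ⟨h1, ⟨u', h2, h3⟩, _⟩)
    · exact hinv u' v u v (h2.trans h1.symm) rfl h3
    · exact hsymm _ _ (hinv u' u v u (h2.trans h1.symm) rfl h3)

/-- quotient maps: `none` forgets the ordered coordinate, `some i` forgets coordinate `i` -/
def pr {k : ℕ} (j : Option (Fin 4)) (v : V k) : Q k :=
  (v.1, match j with
    | none => v.2.2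
    | some i => Function.update v.2.2 i v.2.1)

def jc : Option (Fin 4) → ℕ
  | none => 0
  | some i => i.val + 1

theorem encf_congr {J J' : Fin 4 → Bool} (h : J = J') : encf J = encf J' := by rw [h]

theorem flip_gen (f : ℕ → ℕ) (n : Fin 4)
    (hf : ∀ b0 b1 b2 b3 : Bool,
      (f (enc b0 b1 b2 b3) = 1 → f (enc (!b0) b1 b2 b3) = 1) ∧
      (f (enc b0 b1 b2 b3) = 2 → f (enc b0 (!b1) b2 b3) = 2) ∧
      (f (enc b0 b1 b2 b3) = 3 → f (enc b0 b1 (!b2) b3) = 3) ∧
      (f (enc b0 b1 b2 b3) = 4 → f (enc b0 b1 b2 (!b3)) = 4))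
    (J J' : Fin 4 → Bool) (hJ : ∀ j, j ≠ n → J j = J' j) (h : f (encf J) = n.val + 1) :
    f (encf J') = n.val + 1 := by
  by_cases hn : J n = J' n
  · have : J = J' := by
      funext j
      by_cases hj : j = n
      · rw [hj, hn]
      · exact hJ j hj
    rwa [← this]
  · have hn' : J' n = !(J n) := by
      cases h1 : J n <;> cases h2 : J' n <;> simp_all
    unfold encf at h ⊢
    have H := hf (J 0) (J 1) (J 2) (J 3)
    fin_cases n
    · have a1 := hJ 1 (by decide)
      have a2 := hJ 2 (by decide)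
      have a3 := hJ 3 (by decide)
      simp only [Fin.zero_eta] at hn' h ⊢
      rw [hn', ← a1, ← a2, ← a3]
      exact H.1 h
    · have a1 := hJ 0 (by decide)
      have a2 := hJ 2 (by decide)
      have a3 := hJ 3 (by decide)
      simp only [Fin.mk_one] at hn' h ⊢
      rw [hn', ← a1, ← a2, ← a3]
      exact H.2.1 h
    · have a1 := hJ 0 (by decide)
      have a2 := hJ 1 (by decide)
      have a3 := hJ 3 (by decide)
      simp only [Fin.reduceFinMk] at hn' h ⊢
      rw [hn', ← a1, ← a2, ← a3]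
      exact H.2.2.1 h
    · have a1 := hJ 0 (by decide)
      have a2 := hJ 1 (by decide)
      have a3 := hJ 2 (by decide)
      simp only [Fin.reduceFinMk] at hn' h ⊢
      rw [hn', ← a1, ← a2, ← a3]
      exact H.2.2.2 h

theorem dir_inv {k : ℕ} (e : Fin 6) (j : Option (Fin 4)) (u v u' v' : V k)
    (hu : pr j u = pr j u') (hv : pr j v = pr j v') (h : dirOf e.val u v = jc j) :
    dirOf e.val u' v' = jc j := by
  obtain ⟨a, t, y⟩ := u
  obtain ⟨b, s, z⟩ := v
  obtain ⟨a', t', y'⟩ := u'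
  obtain ⟨b', s', z'⟩ := v'
  cases j with
  | none =>
    simp only [pr, Prod.mk.injEq] at hu hv
    obtain ⟨rfl, rfl⟩ := hu
    obtain ⟨rfl, rfl⟩ := hv
    simp only [jc] at h ⊢
    have k1 := dir_zero e a b (df y z 0) (df y z 1) (df y z 2) (df y z 3)
    have k2 := dir_zero e b a (df y z 0) (df y z 1) (df y z 2) (df y z 3)
    have k3 := de_symm e a b (df y z 0) (df y z 1) (df y z 2) (df y z 3)
    have hde : de e.val a.val b.val (encf (df y z)) = 0 := by
      unfold dirOf at h
      simp only at h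
      unfold encf at h ⊢
      split_ifs at h
      · exact k1.1 h
      · rw [k3]; exact k2.1 h
      · exact h
    unfold dirOf
    simp only
    unfold encf at hde ⊢
    split_ifs
    · exact k1.2 hde
    · exact k2.2 (k3 ▸ hde)
    · exact hde
  | some i =>
    simp only [pr, Prod.mk.injEq] at hu hv
    obtain ⟨rfl, hy⟩ := hu
    obtain ⟨rfl, hz⟩ := hv
    have ht : t = t' := by
      have := congrFun hy i
      simpa using this
    have hs : s = s' := by
      have := congrFun hz i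
      simpa using this
    subst ht hs
    have hy' : ∀ j, j ≠ i → y j = y' j := by
      intro j hj
      have := congrFun hy j
      simpa [Function.update_of_ne hj] using this
    have hz' : ∀ j, j ≠ i → z j = z' j := by
      intro j hj
      have := congrFun hz j
      simpa [Function.update_of_ne hj] using this
    have hJ : ∀ j, j ≠ i → df y z j = df y' z' j := by
      intro j hj
      unfold df
      rw [hy' j hj, hz' j hj]
    simp only [jc] at h ⊢
    unfold dirOf at h ⊢
    simp only at h ⊢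
    split_ifs at h ⊢
    · exact flip_gen (fun n => dt e.val a.val b.val n) i (fun b0 b1 b2 b3 => flip_dt e a b b0 b1 b2 b3)
        _ _ hJ h
    · exact flip_gen (fun n => dt e.val b.val a.val n) i (fun b0 b1 b2 b3 => flip_dt e b a b0 b1 b2 b3)
        _ _ hJ h
    · exact flip_gen (fun n => de e.val a.val b.val n) i (fun b0 b1 b2 b3 => flip_de e a b b0 b1 b2 b3)
        _ _ hJ h

theorem jc_lt (j : Option (Fin 4)) : jc j < 5 := by
  cases j with
  | none => simp [jc]
  | some i => simp only [jc]; omega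

theorem dir_self {k : ℕ} (e : Fin 6) (u : V k) : dirOf e.val u u = 5 := by
  unfold dirOf
  simp only [lt_self_iff_false, if_false]
  have : encf (df u.2.2 u.2.2) = 0 := by simp [encf, df, enc]
  rw [this]
  exact de_diag e u.1

theorem dir_irr {k : ℕ} (e : Fin 6) (j : Option (Fin 4)) (u v : V k) (h : dirOf e.val u v = jc j) :
    pr j u ≠ pr j v := by
  intro hp
  have := dir_inv e j u v u u rfl hp.symm h
  rw [dir_self] at this
  have := jc_lt j
  omega

noncomputable def dirBP (k : ℕ) (e : Fin 6) (j : Option (Fin 4)) :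
    BP (fun u v : V k => dirOf e.val u v = jc j) (Q k) :=
  BP.quot _ (Q k) (pr j) (fun u v h => by rw [dirOf_comm]; exact h)
    (fun u v u' v' hu hv h => dir_inv e j u v u' v' hu hv h) (dir_irr e j)

/-- index type -/
abbrev IX (k : ℕ) : Type := (Fin 19 × Fin k × (Fin 4 → Fin k)) ⊕ (Fin 6 × Option (Fin 4) × Q k)

def eok {k : ℕ} (e : Fin 6) : IX k → Prop
  | Sum.inl (T, _, _) => hasE T.val e.val = true
  | Sum.inr (e', _, _) => e' = e

def IC {k : ℕ} : IX k → V k → Prop
  | Sum.inl (T, s, z), v => FC T s z v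
  | Sum.inr (e, j, q), v => (dirBP k e j).C q v

def ID {k : ℕ} : IX k → V k → Prop
  | Sum.inl (T, s, z), v => FD T s z v
  | Sum.inr (e, j, q), v => (dirBP k e j).D q v

theorem jc_surj (n : ℕ) (hn : n < 5) : ∃ j, jc j = n := by
  match n, hn with
  | 0, _ => exact ⟨none, rfl⟩
  | n + 1, h => exact ⟨some ⟨n, by omega⟩, rfl⟩

theorem jc_inj {i j : Option (Fin 4)} (h : jc i = jc j) : i = j := by
  cases i <;> cases j <;> simp only [jc] at h
  · rfl
  · omega
  · omega
  · congr 1
    exact Fin.ext (by omega)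

/-- no family covers: the direction decides -/
theorem unique_dir {k : ℕ} (e : Fin 6) (u v : V k) (huv : u ≠ v) (hd : dirOf e.val u v < 5)
    (hno : ∀ T s z, ¬ (hasE T.val e.val = true ∧ ((FC T s z u ∧ FD T s z v) ∨ (FC T s z v ∧ FD T s z u)))) :
    ∃! i : IX k, eok e i ∧ ((IC i u ∧ ID i v) ∨ (IC i v ∧ ID i u)) := by
  obtain ⟨j, hj⟩ := jc_surj _ hd
  obtain ⟨q, hq, hqu⟩ := (dirBP k e j).cover u v huv hj.symm
  refine ⟨Sum.inr (e, j, q), ⟨rfl, hq⟩, ?_⟩
  rintro (⟨T, s, z⟩ | ⟨e', j', q'⟩) ⟨h1, h2⟩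
  · exact absurd ⟨h1, h2⟩ (hno T s z)
  · simp only [eok] at h1
    subst h1
    have h3 : dirOf e'.val u v = jc j' := (dirBP k e' j').sub u v q' h2
    have h4 : j' = j := jc_inj (h3.symm.trans hj.symm)
    subst h4
    rw [hqu q' h2]

theorem unique_lt {k : ℕ} (e : Fin 6) (u v : V k) (hlt : v.2.1 < u.2.1) :
    ∃! i : IX k, eok e i ∧ ((IC i u ∧ ID i v) ∨ (IC i v ∧ ID i u)) := by
  have huv : u ≠ v := by rintro rfl; exact lt_irrefl _ hlt
  have hchk := chk_all e u.1 v.1 (df u.2.2 v.2.2 0) (df u.2.2 v.2.2 1) (df u.2.2 v.2.2 2)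
    (df u.2.2 v.2.2 3)
  unfold chk at hchk
  rw [beq_iff_eq] at hchk
  have hdir : dirOf e.val u v = dt e.val u.1.val v.1.val (enc (df u.2.2 v.2.2 0) (df u.2.2 v.2.2 1)
      (df u.2.2 v.2.2 2) (df u.2.2 v.2.2 3)) := by
    unfold dirOf; rw [if_pos hlt]; rfl
  by_cases h5 : dt e.val u.1.val v.1.val (enc (df u.2.2 v.2.2 0) (df u.2.2 v.2.2 1)
      (df u.2.2 v.2.2 2) (df u.2.2 v.2.2 3)) = 5
  · rw [if_pos h5] at hchk
    obtain ⟨T, hT, hTu⟩ := cnt_one hchk
    have hfree : ∀ e' j' q', ¬ (eok e (Sum.inr (e', j', q') : IX k) ∧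
        ((IC (Sum.inr (e', j', q') : IX k) u ∧ ID (Sum.inr (e', j', q') : IX k) v) ∨
          (IC (Sum.inr (e', j', q') : IX k) v ∧ ID (Sum.inr (e', j', q') : IX k) u))) := by
      rintro e' j' q' ⟨h1, h2⟩
      simp only [eok] at h1
      subst h1
      have h3 : dirOf e'.val u v = jc j' := (dirBP k e' j').sub u v q' h2
      rw [hdir, h5] at h3
      have := jc_lt j'
      omega
    rcases hT with ⟨a1, a2⟩ | ⟨a1, a2⟩
    · refine ⟨Sum.inl (T, u.2.1, zz T.val u.2.2 v.2.2), ?_, ?_⟩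
      · exact (fam_lt T e.val _ _ u v hlt).2 (Or.inl ⟨a1, rfl, rfl⟩)
      · rintro (⟨T', s, z⟩ | ⟨e', j', q'⟩) hh
        · rcases (fam_lt T' e.val s z u v hlt).1 hh with ⟨c1, c2, c3⟩ | ⟨c1, c2, c3⟩
          · by_cases hTT : T' = T
            · subst hTT; rw [c2, c3]
            · rw [(hTu T' hTT).1] at c1; exact absurd c1 (by simp)
          · by_cases hTT : T' = T
            · subst hTT; rw [a2] at c1; exact absurd c1 (by simp)
            · rw [(hTu T' hTT).2] at c1; exact absurd c1 (by simp)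
        · exact absurd hh (hfree e' j' q')
    · refine ⟨Sum.inl (T, v.2.1, zz T.val v.2.2 u.2.2), ?_, ?_⟩
      · exact (fam_lt T e.val _ _ u v hlt).2 (Or.inr ⟨a2, rfl, rfl⟩)
      · rintro (⟨T', s, z⟩ | ⟨e', j', q'⟩) hh
        · rcases (fam_lt T' e.val s z u v hlt).1 hh with ⟨c1, c2, c3⟩ | ⟨c1, c2, c3⟩
          · by_cases hTT : T' = T
            · subst hTT; rw [a1] at c1; exact absurd c1 (by simp)
            · rw [(hTu T' hTT).1] at c1; exact absurd c1 (by simp)
          · by_cases hTT : T' = T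
            · subst hTT; rw [c2, c3]
            · rw [(hTu T' hTT).2] at c1; exact absurd c1 (by simp)
        · exact absurd hh (hfree e' j' q')
  · rw [if_neg h5] at hchk
    refine unique_dir e u v huv ?_ ?_
    · rw [hdir]
      have := dt_le e u.1 v.1 (df u.2.2 v.2.2 0) (df u.2.2 v.2.2 1) (df u.2.2 v.2.2 2)
        (df u.2.2 v.2.2 3)
      omega
    · intro T s z hh
      have h0 := cnt_zero hchk T
      rcases (fam_lt T e.val s z u v hlt).1 hh with ⟨c1, _⟩ | ⟨c1, _⟩
      · rw [h0.1] at c1; exact absurd c1 (by simp)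
      · rw [h0.2] at c1; exact absurd c1 (by simp)

theorem unique_main {k : ℕ} (e : Fin 6) (u v : V k) (huv : u ≠ v) :
    ∃! i : IX k, eok e i ∧ ((IC i u ∧ ID i v) ∨ (IC i v ∧ ID i u)) := by
  rcases lt_trichotomy v.2.1 u.2.1 with h | h | h
  · exact unique_lt e u v h
  · refine unique_dir e u v huv ?_ ?_
    · unfold dirOf
      rw [if_neg (by rw [h]; exact lt_irrefl _), if_neg (by rw [h]; exact lt_irrefl _)]
      refine de_lt e u.1 v.1 _ _ _ _ ?_
      by_contra hcon
      push Not at hcon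
      obtain ⟨ha, hb⟩ := hcon
      apply huv
      have hy : u.2.2 = v.2.2 := by
        funext j
        have : df u.2.2 v.2.2 j = false := by
          simp only [ne_eq, Bool.not_eq_true, Bool.or_eq_false_iff] at hb
          obtain ⟨⟨⟨q0, q1⟩, q2⟩, q3⟩ := hb
          fin_cases j
          · exact q0
          · exact q1
          · exact q2
          · exact q3
        simpa [df] using this
      exact Prod.ext ha (Prod.ext h.symm hy)
    · rintro T s z ⟨_, hh⟩
      rw [FCD_iff, FCD_iff] at hh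
      rcases hh with ⟨_, _, h3, _⟩ | ⟨_, _, h3, _⟩
      · rw [h] at h3; simp at h3
      · rw [h] at h3; simp at h3
  · obtain ⟨i, hi, hu⟩ := unique_lt e v u h
    exact ⟨i, ⟨hi.1, hi.2.symm⟩, fun j hj => hu j ⟨hj.1, hj.2.symm⟩⟩

def IA {k : ℕ} : IX k → Fin 4 → Prop
  | Sum.inl (T, _, _), x => am T.val x.val = true
  | Sum.inr (e, _, _), x => x.val = ex e.val

def IB {k : ℕ} : IX k → Fin 4 → Prop
  | Sum.inl (T, _, _), x => bm T.val x.val = true
  | Sum.inr (e, _, _), x => x.val = ey e.val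

theorem good_19 (k n : ℕ) (hn : n ≤ 8 * k ^ 5) : Good n (19 * k ^ 5 + 240 * k ^ 4) := by
  have hc : Fintype.card (IX k) = 19 * k ^ 5 + 240 * k ^ 4 := by
    simp only [Fintype.card_sum, Fintype.card_prod, Fintype.card_fin, Fintype.card_fun,
      Fintype.card_option]
    ring
  rw [← hc]
  refine good_of (V := V k) (I := IX k) IA IB IC ID ?_ ?_ ?_ ?_
  · rintro (⟨T, s, z⟩ | ⟨e, j, q⟩) x
    · exact ab_disj T x
    · rintro ⟨h1, h2⟩
      exact (ex_lt e).2.2 (h1.symm.trans h2)
  · rintro (⟨T, s, z⟩ | ⟨e, j, q⟩) v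
    · rintro ⟨⟨h1, _⟩, h2, _⟩
      rw [h1] at h2
      simp at h2
    · exact (dirBP k e j).disj q v
  · intro x y u v hxy huv
    obtain ⟨e, he, heu⟩ := edge_exists x y hxy
    obtain ⟨i, ⟨hi1, hi2⟩, hiu⟩ := unique_main e u v huv
    have key : ∀ i : IX k, ((IA i x ∧ IB i y) ∨ (IA i y ∧ IB i x)) ↔ eok e i := by
      rintro (⟨T, s, z⟩ | ⟨e', j, q⟩)
      · simp only [IA, IB, eok, hasE, Bool.or_eq_true, Bool.and_eq_true]
        rcases he with ⟨h1, h2⟩ | ⟨h1, h2⟩
        · rw [h1, h2]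
        · rw [h1, h2]; tauto
      · simp only [IA, IB, eok]
        constructor
        · intro h
          exact heu e' h
        · rintro rfl
          exact he
    exact ⟨i, ⟨(key i).2 hi1, hi2⟩, fun j hj => hiu j ⟨(key j).1 hj.1, hj.2⟩⟩
  · simp only [Fintype.card_prod, Fintype.card_fin, Fintype.card_fun]
    calc n ≤ 8 * k ^ 5 := hn
      _ = 8 * (k * k ^ 4) := by ring

end Pool.Agent.H54.N19
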