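import Mathlib

/-!
A `ℤ⁴`-periodic triangulation of `ℝ⁴` with four vertex orbits in which every vertex has
exactly 29 neighbours, recorded as a finite list of oriented 4-simplices.  A vertex of the
periodic complex is a type `t : Fin 4` together with an offset in `ℤ⁴`.
-/

set_option autoImplicit false

namespace Pool.Agent.H54.Tri4

/-- a vertex of the periodic complex: a type and an offset in `ℤ⁴` -/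
abbrev Pt := Fin 4 × ℤ × ℤ × ℤ × ℤ

/-- an oriented 4-simplex with sign `e` and vertices `p0, ..., p4` -/
structure Spx where
  e : ℤ
  p0 : Pt
  p1 : Pt
  p2 : Pt
  p3 : Pt
  p4 : Pt

/-- neighbour displacement lists -/
def nbr : Fin 4 → List Pt := ![
  [(0, 0, 0, -1, -1), (0, 0, 0, -1, 0), (0, 0, 0, 0, -1), (0, 0, 0, 0, 1),
   (0, 0, 0, 1, 0), (0, 0, 0, 1, 1), (1, -1, -1, -1, -1), (1, 0, -1, -1, -1),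
   (1, 0, -1, -1, 0), (1, 0, -1, 0, -1), (1, 0, -1, 0, 0), (1, 0, 0, 0, 0),
   (1, 0, 0, 1, 0), (1, 0, 0, 1, 1), (2, -1, -1, -1, -1), (2, -1, 0, 0, -1),
   (2, -1, 0, 0, 0), (2, -1, 0, 1, 0), (2, 0, 0, 0, 0), (2, 0, 0, 1, 0),
   (2, 0, 0, 1, 1), (3, -1, -1, -1, -1), (3, -1, -1, -1, 0), (3, -1, -1, 0, -1),
   (3, -1, -1, 0, 0), (3, 0, -1, 0, 0), (3, 0, 0, 1, 0), (3, 0, 0, 1, 1),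
   (3, 0, 0, 2, 1)],
  [(0, 0, 0, -1, -1), (0, 0, 0, -1, 0), (0, 0, 0, 0, 0), (0, 0, 1, 0, 0),
   (0, 0, 1, 0, 1), (0, 0, 1, 1, 0), (0, 0, 1, 1, 1), (0, 1, 1, 1, 1),
   (1, 0, 0, -1, 0), (1, 0, 0, 0, -1), (1, 0, 0, 0, 1), (1, 0, 0, 1, 0),
   (2, -1, 0, -1, -1), (2, -1, 0, -1, 0), (2, -1, 0, 0, -1), (2, -1, 0, 0, 0),
   (2, 0, 0, 0, 0), (2, 0, 1, 1, 0), (2, 0, 1, 1, 1), (2, 0, 1, 2, 1),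
   (3, -1, -1, -1, -1), (3, -1, 0, 0, 0), (3, -1, 0, 0, 1), (3, -1, 0, 1, 0),
   (3, 0, 0, 0, 0), (3, 0, 0, 0, 1), (3, 0, 0, 1, 0), (3, 0, 0, 1, 1),
   (3, 0, 1, 2, 1)],
  [(0, 0, 0, -1, -1), (0, 0, 0, -1, 0), (0, 0, 0, 0, 0), (0, 1, 0, -1, 0),
   (0, 1, 0, 0, 0), (0, 1, 0, 0, 1), (0, 1, 1, 1, 1), (1, 0, -1, -2, -1),
   (1, 0, -1, -1, -1), (1, 0, -1, -1, 0), (1, 0, 0, 0, 0), (1, 1, 0, 0, 0),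
   (1, 1, 0, 0, 1), (1, 1, 0, 1, 0), (1, 1, 0, 1, 1), (2, 0, 0, -1, -1),
   (2, 0, 0, -1, 0), (2, 0, 0, 0, -1), (2, 0, 0, 0, 1), (2, 0, 0, 1, 0),
   (2, 0, 0, 1, 1), (3, 0, -1, -1, -1), (3, 0, -1, -1, 0), (3, 0, -1, 0, 0),
   (3, 0, 0, 0, 0), (3, 0, 0, 0, 1), (3, 0, 0, 1, 0), (3, 0, 0, 1, 1),
   (3, 1, 0, 1, 1)],
  [(0, 0, 0, -2, -1), (0, 0, 0, -1, -1), (0, 0, 0, -1, 0), (0, 0, 1, 0, 0),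
   (0, 1, 1, 0, 0), (0, 1, 1, 0, 1), (0, 1, 1, 1, 0), (0, 1, 1, 1, 1),
   (1, 0, -1, -2, -1), (1, 0, 0, -1, -1), (1, 0, 0, -1, 0), (1, 0, 0, 0, -1),
   (1, 0, 0, 0, 0), (1, 1, 0, -1, 0), (1, 1, 0, 0, -1), (1, 1, 0, 0, 0),
   (1, 1, 1, 1, 1), (2, -1, 0, -1, -1), (2, 0, 0, -1, -1), (2, 0, 0, -1, 0),
   (2, 0, 0, 0, -1), (2, 0, 0, 0, 0), (2, 0, 1, 0, 0), (2, 0, 1, 1, 0),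
   (2, 0, 1, 1, 1), (3, 0, 0, -1, 0), (3, 0, 0, 0, -1), (3, 0, 0, 0, 1),
   (3, 0, 0, 1, 0)]]

/-- the oriented 4-simplices -/
def simps : List Spx := [
  ⟨-1, (0, 0, 0, 0, 0), (0, 0, 0, 0, 1), (0, 0, 0, 1, 1), (1, 0, -1, 0, 0), (2, 0, 0, 1, 1)⟩,
  ⟨1, (0, 0, 0, 0, 0), (0, 0, 0, 0, 1), (0, 0, 0, 1, 1), (1, 0, -1, 0, 0), (3, -1, -1, 0, 0)⟩,
  ⟨1, (0, 0, 0, 0, 0), (0, 0, 0, 0, 1), (0, 0, 0, 1, 1), (1, 0, 0, 1, 1), (2, 0, 0, 1, 1)⟩,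
  ⟨-1, (0, 0, 0, 0, 0), (0, 0, 0, 0, 1), (0, 0, 0, 1, 1), (1, 0, 0, 1, 1), (3, -1, -1, 0, 0)⟩,
  ⟨1, (0, 0, 0, 0, 0), (0, 0, 0, 0, 1), (1, 0, -1, -1, 0), (1, 0, -1, 0, 0), (2, 0, 0, 1, 1)⟩,
  ⟨-1, (0, 0, 0, 0, 0), (0, 0, 0, 0, 1), (1, 0, -1, -1, 0), (1, 0, -1, 0, 0), (3, -1, -1, 0, 0)⟩,
  ⟨1, (0, 0, 0, 0, 0), (0, 0, 0, 0, 1), (1, 0, -1, -1, 0), (2, 0, 0, 1, 1), (3, 0, 0, 1, 1)⟩,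
  ⟨1, (0, 0, 0, 0, 0), (0, 0, 0, 0, 1), (1, 0, -1, -1, 0), (3, -1, -1, -1, 0), (3, -1, -1, 0, 0)⟩,
  ⟨-1, (0, 0, 0, 0, 0), (0, 0, 0, 0, 1), (1, 0, 0, 1, 1), (2, -1, 0, 0, 0), (3, -1, -1, 0, 0)⟩,
  ⟨1, (0, 0, 0, 0, 0), (0, 0, 0, 0, 1), (1, 0, 0, 1, 1), (2, -1, 0, 0, 0), (3, 0, 0, 1, 1)⟩,
  ⟨-1, (0, 0, 0, 0, 0), (0, 0, 0, 0, 1), (1, 0, 0, 1, 1), (2, 0, 0, 1, 1), (3, 0, 0, 1, 1)⟩,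
  ⟨-1, (0, 0, 0, 0, 0), (0, 0, 0, 0, 1), (2, -1, 0, 0, 0), (3, -1, -1, -1, 0), (3, -1, -1, 0, 0)⟩,
  ⟨-1, (0, 0, 0, 0, 0), (0, 0, 0, 1, 0), (0, 0, 0, 1, 1), (1, 0, -1, 0, 0), (3, -1, -1, 0, 0)⟩,
  ⟨1, (0, 0, 0, 0, 0), (0, 0, 0, 1, 0), (0, 0, 0, 1, 1), (1, 0, -1, 0, 0), (3, 0, 0, 2, 1)⟩,
  ⟨1, (0, 0, 0, 0, 0), (0, 0, 0, 1, 0), (0, 0, 0, 1, 1), (2, -1, 0, 1, 0), (3, -1, -1, 0, 0)⟩,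
  ⟨-1, (0, 0, 0, 0, 0), (0, 0, 0, 1, 0), (0, 0, 0, 1, 1), (2, -1, 0, 1, 0), (3, 0, 0, 2, 1)⟩,
  ⟨-1, (0, 0, 0, 0, 0), (0, 0, 0, 1, 0), (1, 0, -1, 0, -1), (1, 0, -1, 0, 0), (2, 0, 0, 1, 0)⟩,
  ⟨1, (0, 0, 0, 0, 0), (0, 0, 0, 1, 0), (1, 0, -1, 0, -1), (1, 0, -1, 0, 0), (3, -1, -1, 0, 0)⟩,
  ⟨-1, (0, 0, 0, 0, 0), (0, 0, 0, 1, 0), (1, 0, -1, 0, -1), (3, -1, -1, 0, -1), (3, -1, -1, 0, 0)⟩,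
  ⟨1, (0, 0, 0, 0, 0), (0, 0, 0, 1, 0), (1, 0, -1, 0, 0), (2, 0, 0, 1, 0), (3, 0, 0, 2, 1)⟩,
  ⟨-1, (0, 0, 0, 0, 0), (0, 0, 0, 1, 0), (1, 0, 0, 1, 0), (2, -1, 0, 1, 0), (3, -1, -1, 0, -1)⟩,
  ⟨1, (0, 0, 0, 0, 0), (0, 0, 0, 1, 0), (1, 0, 0, 1, 0), (2, -1, 0, 1, 0), (3, 0, 0, 2, 1)⟩,
  ⟨-1, (0, 0, 0, 0, 0), (0, 0, 0, 1, 0), (1, 0, 0, 1, 0), (2, 0, 0, 1, 0), (3, 0, 0, 2, 1)⟩,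
  ⟨1, (0, 0, 0, 0, 0), (0, 0, 0, 1, 0), (2, -1, 0, 1, 0), (3, -1, -1, 0, -1), (3, -1, -1, 0, 0)⟩,
  ⟨-1, (0, 0, 0, 0, 0), (0, 0, 0, 1, 1), (1, 0, -1, 0, 0), (2, 0, 0, 1, 1), (3, 0, 0, 2, 1)⟩,
  ⟨1, (0, 0, 0, 0, 0), (0, 0, 0, 1, 1), (1, 0, 0, 1, 1), (2, -1, 0, 1, 0), (3, -1, -1, 0, 0)⟩,
  ⟨-1, (0, 0, 0, 0, 0), (0, 0, 0, 1, 1), (1, 0, 0, 1, 1), (2, -1, 0, 1, 0), (3, 0, 0, 2, 1)⟩,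
  ⟨1, (0, 0, 0, 0, 0), (0, 0, 0, 1, 1), (1, 0, 0, 1, 1), (2, 0, 0, 1, 1), (3, 0, 0, 2, 1)⟩,
  ⟨-1, (0, 0, 0, 0, 0), (1, -1, -1, -1, -1), (2, -1, -1, -1, -1), (3, -1, -1, -1, -1), (3, -1, -1, -1, 0)⟩,
  ⟨1, (0, 0, 0, 0, 0), (1, -1, -1, -1, -1), (2, -1, -1, -1, -1), (3, -1, -1, -1, -1), (3, -1, -1, 0, -1)⟩,
  ⟨-1, (0, 0, 0, 0, 0), (1, -1, -1, -1, -1), (2, -1, -1, -1, -1), (3, -1, -1, -1, 0), (3, -1, -1, 0, 0)⟩,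
  ⟨1, (0, 0, 0, 0, 0), (1, -1, -1, -1, -1), (2, -1, -1, -1, -1), (3, -1, -1, 0, -1), (3, -1, -1, 0, 0)⟩,
  ⟨1, (0, 0, 0, 0, 0), (1, -1, -1, -1, -1), (2, -1, 0, 0, -1), (2, -1, 0, 0, 0), (2, -1, 0, 1, 0)⟩,
  ⟨-1, (0, 0, 0, 0, 0), (1, -1, -1, -1, -1), (2, -1, 0, 0, -1), (2, -1, 0, 0, 0), (3, -1, -1, -1, -1)⟩,
  ⟨1, (0, 0, 0, 0, 0), (1, -1, -1, -1, -1), (2, -1, 0, 0, -1), (2, -1, 0, 1, 0), (3, -1, -1, 0, -1)⟩,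
  ⟨-1, (0, 0, 0, 0, 0), (1, -1, -1, -1, -1), (2, -1, 0, 0, -1), (3, -1, -1, -1, -1), (3, -1, -1, 0, -1)⟩,
  ⟨-1, (0, 0, 0, 0, 0), (1, -1, -1, -1, -1), (2, -1, 0, 0, 0), (2, -1, 0, 1, 0), (3, -1, -1, 0, 0)⟩,
  ⟨1, (0, 0, 0, 0, 0), (1, -1, -1, -1, -1), (2, -1, 0, 0, 0), (3, -1, -1, -1, -1), (3, -1, -1, -1, 0)⟩,
  ⟨1, (0, 0, 0, 0, 0), (1, -1, -1, -1, -1), (2, -1, 0, 0, 0), (3, -1, -1, -1, 0), (3, -1, -1, 0, 0)⟩,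
  ⟨-1, (0, 0, 0, 0, 0), (1, -1, -1, -1, -1), (2, -1, 0, 1, 0), (3, -1, -1, 0, -1), (3, -1, -1, 0, 0)⟩,
  ⟨1, (0, 0, 0, 0, 0), (1, 0, -1, -1, -1), (1, 0, -1, -1, 0), (2, -1, -1, -1, -1), (3, -1, -1, -1, 0)⟩,
  ⟨-1, (0, 0, 0, 0, 0), (1, 0, -1, -1, -1), (1, 0, -1, -1, 0), (2, -1, -1, -1, -1), (3, 0, -1, 0, 0)⟩,
  ⟨1, (0, 0, 0, 0, 0), (1, 0, -1, -1, -1), (1, 0, -1, -1, 0), (2, 0, 0, 0, 0), (3, 0, -1, 0, 0)⟩,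
  ⟨-1, (0, 0, 0, 0, 0), (1, 0, -1, -1, -1), (1, 0, -1, 0, -1), (2, -1, -1, -1, -1), (3, -1, -1, 0, -1)⟩,
  ⟨1, (0, 0, 0, 0, 0), (1, 0, -1, -1, -1), (1, 0, -1, 0, -1), (2, -1, -1, -1, -1), (3, 0, -1, 0, 0)⟩,
  ⟨-1, (0, 0, 0, 0, 0), (1, 0, -1, -1, -1), (1, 0, -1, 0, -1), (2, 0, 0, 1, 0), (3, 0, -1, 0, 0)⟩,
  ⟨1, (0, 0, 0, 0, 0), (1, 0, -1, -1, -1), (2, -1, -1, -1, -1), (3, -1, -1, -1, -1), (3, -1, -1, -1, 0)⟩,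
  ⟨-1, (0, 0, 0, 0, 0), (1, 0, -1, -1, -1), (2, -1, -1, -1, -1), (3, -1, -1, -1, -1), (3, -1, -1, 0, -1)⟩,
  ⟨1, (0, 0, 0, 0, 0), (1, 0, -1, -1, -1), (2, 0, 0, 0, 0), (2, 0, 0, 1, 0), (3, 0, -1, 0, 0)⟩,
  ⟨-1, (0, 0, 0, 0, 0), (1, 0, -1, -1, -1), (2, 0, 0, 0, 0), (2, 0, 0, 1, 0), (3, 0, 0, 1, 0)⟩,
  ⟨1, (0, 0, 0, 0, 0), (1, 0, -1, -1, 0), (1, 0, -1, 0, 0), (2, -1, -1, -1, -1), (3, -1, -1, 0, 0)⟩,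
  ⟨-1, (0, 0, 0, 0, 0), (1, 0, -1, -1, 0), (1, 0, -1, 0, 0), (2, -1, -1, -1, -1), (3, 0, -1, 0, 0)⟩,
  ⟨1, (0, 0, 0, 0, 0), (1, 0, -1, -1, 0), (1, 0, -1, 0, 0), (2, 0, 0, 1, 1), (3, 0, -1, 0, 0)⟩,
  ⟨1, (0, 0, 0, 0, 0), (1, 0, -1, -1, 0), (2, -1, -1, -1, -1), (3, -1, -1, -1, 0), (3, -1, -1, 0, 0)⟩,
  ⟨-1, (0, 0, 0, 0, 0), (1, 0, -1, -1, 0), (2, 0, 0, 0, 0), (2, 0, 0, 1, 1), (3, 0, -1, 0, 0)⟩,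
  ⟨1, (0, 0, 0, 0, 0), (1, 0, -1, -1, 0), (2, 0, 0, 0, 0), (2, 0, 0, 1, 1), (3, 0, 0, 1, 1)⟩,
  ⟨-1, (0, 0, 0, 0, 0), (1, 0, -1, 0, -1), (1, 0, -1, 0, 0), (2, -1, -1, -1, -1), (3, -1, -1, 0, 0)⟩,
  ⟨1, (0, 0, 0, 0, 0), (1, 0, -1, 0, -1), (1, 0, -1, 0, 0), (2, -1, -1, -1, -1), (3, 0, -1, 0, 0)⟩,
  ⟨-1, (0, 0, 0, 0, 0), (1, 0, -1, 0, -1), (1, 0, -1, 0, 0), (2, 0, 0, 1, 0), (3, 0, -1, 0, 0)⟩,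
  ⟨-1, (0, 0, 0, 0, 0), (1, 0, -1, 0, -1), (2, -1, -1, -1, -1), (3, -1, -1, 0, -1), (3, -1, -1, 0, 0)⟩,
  ⟨1, (0, 0, 0, 0, 0), (1, 0, -1, 0, 0), (2, 0, 0, 1, 0), (2, 0, 0, 1, 1), (3, 0, -1, 0, 0)⟩,
  ⟨-1, (0, 0, 0, 0, 0), (1, 0, -1, 0, 0), (2, 0, 0, 1, 0), (2, 0, 0, 1, 1), (3, 0, 0, 2, 1)⟩,
  ⟨-1, (0, 0, 0, 0, 0), (1, 0, 0, 0, 0), (1, 0, 0, 1, 0), (2, -1, 0, 0, -1), (2, -1, 0, 0, 0)⟩,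
  ⟨1, (0, 0, 0, 0, 0), (1, 0, 0, 0, 0), (1, 0, 0, 1, 0), (2, -1, 0, 0, -1), (3, 0, 0, 1, 0)⟩,
  ⟨-1, (0, 0, 0, 0, 0), (1, 0, 0, 0, 0), (1, 0, 0, 1, 0), (2, -1, 0, 0, 0), (3, 0, 0, 1, 1)⟩,
  ⟨1, (0, 0, 0, 0, 0), (1, 0, 0, 0, 0), (1, 0, 0, 1, 0), (3, 0, 0, 1, 0), (3, 0, 0, 1, 1)⟩,
  ⟨1, (0, 0, 0, 0, 0), (1, 0, 0, 0, 0), (2, -1, 0, 0, -1), (2, -1, 0, 0, 0), (3, -1, -1, -1, -1)⟩,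
  ⟨-1, (0, 0, 0, 0, 0), (1, 0, 0, 0, 0), (2, 0, 0, 0, 0), (3, 0, 0, 1, 0), (3, 0, 0, 1, 1)⟩,
  ⟨1, (0, 0, 0, 0, 0), (1, 0, 0, 1, 0), (1, 0, 0, 1, 1), (2, -1, 0, 0, 0), (2, -1, 0, 1, 0)⟩,
  ⟨-1, (0, 0, 0, 0, 0), (1, 0, 0, 1, 0), (1, 0, 0, 1, 1), (2, -1, 0, 0, 0), (3, 0, 0, 1, 1)⟩,
  ⟨1, (0, 0, 0, 0, 0), (1, 0, 0, 1, 0), (1, 0, 0, 1, 1), (2, -1, 0, 1, 0), (3, 0, 0, 2, 1)⟩,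
  ⟨-1, (0, 0, 0, 0, 0), (1, 0, 0, 1, 0), (1, 0, 0, 1, 1), (3, 0, 0, 1, 1), (3, 0, 0, 2, 1)⟩,
  ⟨-1, (0, 0, 0, 0, 0), (1, 0, 0, 1, 0), (2, -1, 0, 0, -1), (2, -1, 0, 0, 0), (2, -1, 0, 1, 0)⟩,
  ⟨-1, (0, 0, 0, 0, 0), (1, 0, 0, 1, 0), (2, -1, 0, 0, -1), (2, -1, 0, 1, 0), (3, -1, -1, 0, -1)⟩,
  ⟨1, (0, 0, 0, 0, 0), (1, 0, 0, 1, 0), (2, 0, 0, 1, 0), (3, 0, 0, 1, 0), (3, 0, 0, 1, 1)⟩,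
  ⟨1, (0, 0, 0, 0, 0), (1, 0, 0, 1, 0), (2, 0, 0, 1, 0), (3, 0, 0, 1, 1), (3, 0, 0, 2, 1)⟩,
  ⟨1, (0, 0, 0, 0, 0), (1, 0, 0, 1, 1), (2, -1, 0, 0, 0), (2, -1, 0, 1, 0), (3, -1, -1, 0, 0)⟩,
  ⟨-1, (0, 0, 0, 0, 0), (1, 0, 0, 1, 1), (2, 0, 0, 1, 1), (3, 0, 0, 1, 1), (3, 0, 0, 2, 1)⟩,
  ⟨-1, (0, 0, 0, 0, 0), (2, 0, 0, 0, 0), (2, 0, 0, 1, 0), (2, 0, 0, 1, 1), (3, 0, -1, 0, 0)⟩,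
  ⟨1, (0, 0, 0, 0, 0), (2, 0, 0, 0, 0), (2, 0, 0, 1, 0), (2, 0, 0, 1, 1), (3, 0, 0, 1, 1)⟩,
  ⟨-1, (0, 0, 0, 0, 0), (2, 0, 0, 0, 0), (2, 0, 0, 1, 0), (3, 0, 0, 1, 0), (3, 0, 0, 1, 1)⟩,
  ⟨1, (0, 0, 0, 0, 0), (2, 0, 0, 1, 0), (2, 0, 0, 1, 1), (3, 0, 0, 1, 1), (3, 0, 0, 2, 1)⟩,
  ⟨-1, (1, 0, 0, 0, 0), (1, 0, 0, 0, 1), (2, -1, 0, -1, 0), (2, -1, 0, 0, 0), (3, -1, 0, 0, 1)⟩,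
  ⟨1, (1, 0, 0, 0, 0), (1, 0, 0, 0, 1), (2, 0, 1, 1, 1), (3, 0, 0, 0, 1), (3, 0, 0, 1, 1)⟩,
  ⟨1, (1, 0, 0, 0, 0), (1, 0, 0, 1, 0), (2, -1, 0, 0, -1), (2, -1, 0, 0, 0), (3, -1, 0, 1, 0)⟩,
  ⟨-1, (1, 0, 0, 0, 0), (1, 0, 0, 1, 0), (2, 0, 1, 2, 1), (3, 0, 0, 1, 0), (3, 0, 0, 1, 1)⟩,
  ⟨1, (1, 0, 0, 0, 0), (2, -1, 0, -1, -1), (2, -1, 0, -1, 0), (2, -1, 0, 0, 0), (3, -1, 0, 0, 0)⟩,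
  ⟨1, (1, 0, 0, 0, 0), (2, -1, 0, -1, -1), (2, -1, 0, 0, -1), (2, -1, 0, 0, 0), (3, -1, -1, -1, -1)⟩,
  ⟨-1, (1, 0, 0, 0, 0), (2, -1, 0, -1, -1), (2, -1, 0, 0, -1), (2, -1, 0, 0, 0), (3, -1, 0, 0, 0)⟩,
  ⟨1, (1, 0, 0, 0, 0), (2, -1, 0, -1, 0), (2, -1, 0, 0, 0), (3, -1, 0, 0, 0), (3, -1, 0, 0, 1)⟩,
  ⟨-1, (1, 0, 0, 0, 0), (2, -1, 0, 0, -1), (2, -1, 0, 0, 0), (3, -1, 0, 0, 0), (3, -1, 0, 1, 0)⟩,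
  ⟨-1, (1, 0, 0, 0, 0), (2, 0, 1, 1, 0), (2, 0, 1, 1, 1), (2, 0, 1, 2, 1), (3, 0, 1, 2, 1)⟩]

/-- `q - p`, with the type of `q` -/
def dsp (p q : Pt) : Pt :=
  (q.1, q.2.1 - p.2.1, q.2.2.1 - p.2.2.1, q.2.2.2.1 - p.2.2.2.1, q.2.2.2.2 - p.2.2.2.2)

/-- all ten pairs of vertices of the simplex are edges of the periodic graph -/
def Spx.edgesOk (s : Spx) : Bool :=
  (dsp s.p0 s.p1 ∈ nbr s.p0.1) && (dsp s.p0 s.p2 ∈ nbr s.p0.1) &&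
  (dsp s.p0 s.p3 ∈ nbr s.p0.1) && (dsp s.p0 s.p4 ∈ nbr s.p0.1) &&
  (dsp s.p1 s.p2 ∈ nbr s.p1.1) && (dsp s.p1 s.p3 ∈ nbr s.p1.1) &&
  (dsp s.p1 s.p4 ∈ nbr s.p1.1) && (dsp s.p2 s.p3 ∈ nbr s.p2.1) &&
  (dsp s.p2 s.p4 ∈ nbr s.p2.1) && (dsp s.p3 s.p4 ∈ nbr s.p3.1)

theorem edges_ok : ∀ s ∈ simps, s.edgesOk = true := by
  decide +kernel

theorem nbr_symm : ∀ t : Fin 4, ∀ p ∈ nbr t,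
    (t, -p.2.1, -p.2.2.1, -p.2.2.2.1, -p.2.2.2.2) ∈ nbr p.1 := by
  decide +kernel

theorem nbr_length : ∀ t : Fin 4, (nbr t).length ≤ 29 := by
  decide +kernel

theorem nbr_bound : ∀ t : Fin 4, ∀ p ∈ nbr t,
    (|p.2.1| ≤ 2 ∧ |p.2.2.1| ≤ 2 ∧ |p.2.2.2.1| ≤ 2 ∧ |p.2.2.2.2| ≤ 2) ∧ p ≠ (t, 0, 0, 0, 0) := by
  decide +kernel

/-- facets, coded by the first vertex type and the displacements from the first vertex -/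
structure Key where
  t : Fin 4
  q : Pt
  r : Pt
  s : Pt
  deriving DecidableEq

/-- the four vertices of a tetrahedron, normalised by translation -/
def key (p q r s : Pt) : Key := ⟨p.1, dsp p q, dsp p r, dsp p s⟩

/-- signed facets of a simplex -/
def Spx.facets (s : Spx) : List (ℤ × Key) :=
  [(s.e, key s.p1 s.p2 s.p3 s.p4), (-s.e, key s.p0 s.p2 s.p3 s.p4),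
   (s.e, key s.p0 s.p1 s.p3 s.p4), (-s.e, key s.p0 s.p1 s.p2 s.p4),
   (s.e, key s.p0 s.p1 s.p2 s.p3)]

/-- cancellation test for a signed list -/
def cancels : ℕ → List (ℤ × Key) → Bool
  | _, [] => true
  | 0, _ :: _ => false
  | n + 1, (e, k) :: t => decide ((-e, k) ∈ t) && cancels n (t.erase (-e, k))

theorem cancels_sum (W : Key → ℤ) : ∀ (n : ℕ) (l : List (ℤ × Key)), cancels n l = true →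
    (l.map (fun e => e.1 * W e.2)).sum = 0 := by
  intro n
  induction n with
  | zero =>
    intro l h
    cases l with
    | nil => simp
    | cons a t => simp [cancels] at h
  | succ n ih =>
    intro l h
    cases l with
    | nil => simp
    | cons a t =>
      obtain ⟨e, k⟩ := a
      simp only [cancels, Bool.and_eq_true, decide_eq_true_eq] at h
      obtain ⟨h1, h2⟩ := h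
      have h3 := ih _ h2
      have h4 := ((List.perm_cons_erase h1).map (fun e : ℤ × Key => e.1 * W e.2)).sum_eq
      simp only [List.map_cons, List.sum_cons] at h4 ⊢
      rw [h4, h3]
      ring

theorem cycle_ok : cancels 300 (simps.flatMap Spx.facets) = true := by
  decide +kernel

end Pool.Agent.H54.Tri4
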