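import Pool.Agent.H54.Tri4

/-!
The degree argument: the signed volume form of the periodic triangulation does not change
when a displacement depending only on the vertex is added.
-/

set_option autoImplicit false

namespace Pool.Agent.H54.Tri4

/-- 3 by 3 determinant -/
def v3 (b1 b2 b3 c1 c2 c3 d1 d2 d3 : ℤ) : ℤ :=
  b1 * (c2 * d3 - c3 * d2) - b2 * (c1 * d3 - c3 * d1) + b3 * (c1 * d2 - c2 * d1)

/-- volume form of a 4-simplex with coordinate functions `a b c d` -/
def D4 (a b c d : Fin 5 → ℤ) : ℤ :=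
  a 0 * v3 (b 2 - b 1) (b 3 - b 1) (b 4 - b 1) (c 2 - c 1) (c 3 - c 1) (c 4 - c 1)
      (d 2 - d 1) (d 3 - d 1) (d 4 - d 1)
  - a 1 * v3 (b 2 - b 0) (b 3 - b 0) (b 4 - b 0) (c 2 - c 0) (c 3 - c 0) (c 4 - c 0)
      (d 2 - d 0) (d 3 - d 0) (d 4 - d 0)
  + a 2 * v3 (b 1 - b 0) (b 3 - b 0) (b 4 - b 0) (c 1 - c 0) (c 3 - c 0) (c 4 - c 0)
      (d 1 - d 0) (d 3 - d 0) (d 4 - d 0)
  - a 3 * v3 (b 1 - b 0) (b 2 - b 0) (b 4 - b 0) (c 1 - c 0) (c 2 - c 0) (c 4 - c 0)
      (d 1 - d 0) (d 2 - d 0) (d 4 - d 0)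
  + a 4 * v3 (b 1 - b 0) (b 2 - b 0) (b 3 - b 0) (c 1 - c 0) (c 2 - c 0) (c 3 - c 0)
      (d 1 - d 0) (d 2 - d 0) (d 3 - d 0)

theorem D4_swap12 (a b c d : Fin 5 → ℤ) : D4 a b c d = - D4 b a c d := by
  simp only [D4, v3]; ring

theorem D4_swap13 (a b c d : Fin 5 → ℤ) : D4 a b c d = - D4 c b a d := by
  simp only [D4, v3]; ring

theorem D4_swap14 (a b c d : Fin 5 → ℤ) : D4 a b c d = - D4 d b c a := by
  simp only [D4, v3]; ring

theorem D4_sub (a a' b c d : Fin 5 → ℤ) :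
    D4 (fun j => a j - a' j) b c d = D4 a b c d - D4 a' b c d := by
  simp only [D4]; ring

theorem D4_eq_zero (a b c d : Fin 5 → ℤ) (i j : Fin 5) (hij : i ≠ j)
    (ha : a i = a j) (hb : b i = b j) (hc : c i = c j) (hd : d i = d j) :
    D4 a b c d = 0 := by
  fin_cases i <;> fin_cases j <;> simp only [Fin.zero_eta, Fin.mk_one, Fin.reduceFinMk,
    ne_eq, not_true_eq_false, Fin.isValue] at hij ha hb hc hd <;>
    simp only [D4, v3, ha, hb, hc, hd] <;> ring

/-- the cochain whose coboundary is the volume form -/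
def om (a0 a1 a2 a3 b1 b2 b3 c1 c2 c3 d1 d2 d3 : ℤ) : ℤ :=
  (a0 + a1 + a2 + a3) * v3 b1 b2 b3 c1 c2 c3 d1 d2 d3

theorem D4_cob (a b c d : Fin 5 → ℤ) :
    D4 a b c d = - (
      om (a 1) (a 2) (a 3) (a 4) (b 2 - b 1) (b 3 - b 1) (b 4 - b 1)
        (c 2 - c 1) (c 3 - c 1) (c 4 - c 1) (d 2 - d 1) (d 3 - d 1) (d 4 - d 1)
      - om (a 0) (a 2) (a 3) (a 4) (b 2 - b 0) (b 3 - b 0) (b 4 - b 0)
        (c 2 - c 0) (c 3 - c 0) (c 4 - c 0) (d 2 - d 0) (d 3 - d 0) (d 4 - d 0)
      + om (a 0) (a 1) (a 3) (a 4) (b 1 - b 0) (b 3 - b 0) (b 4 - b 0)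
        (c 1 - c 0) (c 3 - c 0) (c 4 - c 0) (d 1 - d 0) (d 3 - d 0) (d 4 - d 0)
      - om (a 0) (a 1) (a 2) (a 4) (b 1 - b 0) (b 2 - b 0) (b 4 - b 0)
        (c 1 - c 0) (c 2 - c 0) (c 4 - c 0) (d 1 - d 0) (d 2 - d 0) (d 4 - d 0)
      + om (a 0) (a 1) (a 2) (a 3) (b 1 - b 0) (b 2 - b 0) (b 3 - b 0)
        (c 1 - c 0) (c 2 - c 0) (c 3 - c 0) (d 1 - d 0) (d 2 - d 0) (d 3 - d 0)) := by
  simp only [D4, om, v3]; ring

/-- the vertices of a simplex -/
def Spx.v (s : Spx) : Fin 5 → Pt := ![s.p0, s.p1, s.p2, s.p3, s.p4]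

/-- total volume of the standard embedding -/
theorem vol_ok : (simps.map (fun s => s.e * D4 (fun j => (s.v j).2.1) (fun j => (s.v j).2.2.1)
    (fun j => (s.v j).2.2.2.1) (fun j => (s.v j).2.2.2.2))).sum ≠ 0 := by
  decide +kernel

/-- the finite torus group -/
abbrev A (L : ℕ) := ZMod L × ZMod L × ZMod L × ZMod L

/-- reduction of an integer vector modulo `L` -/
def cs (L : ℕ) (t : ℤ × ℤ × ℤ × ℤ) : A L :=
  ((t.1 : ZMod L), (t.2.1 : ZMod L), (t.2.2.1 : ZMod L), (t.2.2.2 : ZMod L))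

theorem cs_add (L : ℕ) (s t : ℤ × ℤ × ℤ × ℤ) : cs L (s + t) = cs L s + cs L t := by
  simp [cs]

theorem cs_zero (L : ℕ) : cs L (0, 0, 0, 0) = 0 := by
  simp [cs]

theorem add_cs_dsp (L : ℕ) (x : A L) (p q : Pt) :
    x + cs L p.2 + cs L (dsp p q).2 = x + cs L q.2 := by
  simp [cs, dsp, add_assoc]

/-- compatibility of a coordinate function with translations -/
def Compat (L : ℕ) (b : A L → Pt → ℤ) : Prop :=
  ∀ (x : A L) (p q : Pt), b x q - b x p =
    b (x + cs L p.2) (dsp p q) - b (x + cs L p.2) (p.1, 0, 0, 0, 0)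

theorem compat_1 (L : ℕ) : Compat L (fun _ p => p.2.1) := by
  intro x p q; simp [dsp]
theorem compat_2 (L : ℕ) : Compat L (fun _ p => p.2.2.1) := by
  intro x p q; simp [dsp]
theorem compat_3 (L : ℕ) : Compat L (fun _ p => p.2.2.2.1) := by
  intro x p q; simp [dsp]
theorem compat_4 (L : ℕ) : Compat L (fun _ p => p.2.2.2.2) := by
  intro x p q; simp [dsp]

theorem compat_h (L : ℕ) (h : Fin 4 × A L → ℤ) :
    Compat L (fun x p => h (p.1, x + cs L p.2)) := by
  intro x p q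
  simp only [add_cs_dsp]
  simp [cs_zero, dsp]

theorem compat_sub (L : ℕ) (b b' : A L → Pt → ℤ) (hb : Compat L b) (hb' : Compat L b') :
    Compat L (fun x p => b x p - b' x p) := by
  intro x p q
  have h1 := hb x p q
  have h2 := hb' x p q
  simp only
  linarith

theorem list_sum_neg {α : Type} (f : α → ℤ) (l : List α) :
    (l.map (fun s => - f s)).sum = - (l.map f).sum := by
  induction l with
  | nil => simp
  | cons s t ih =>
    simp only [List.map_cons, List.sum_cons]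
    rw [ih]
    ring

variable {L : ℕ} [NeZero L]

/-- the signed sum of a translation compatible 3-cochain over all facets vanishes -/
theorem facet_sum (w : A L → Pt → Pt → Pt → Pt → ℤ)
    (hw : ∀ x p q r s, w x p q r s =
      w (x + cs L p.2) (p.1, 0, 0, 0, 0) (dsp p q) (dsp p r) (dsp p s)) :
    (simps.map (fun s => s.e * ∑ x : A L,
      (w x s.p1 s.p2 s.p3 s.p4 - w x s.p0 s.p2 s.p3 s.p4 + w x s.p0 s.p1 s.p3 s.p4
        - w x s.p0 s.p1 s.p2 s.p4 + w x s.p0 s.p1 s.p2 s.p3))).sum = 0 := by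
  set W : Key → ℤ := fun k => ∑ x : A L, w x (k.t, 0, 0, 0, 0) k.q k.r k.s with hW
  have hsum : ∀ p q r s : Pt, ∑ x : A L, w x p q r s = W (key p q r s) := by
    intro p q r s
    rw [hW]
    simp only [key]
    rw [← Equiv.sum_comp (Equiv.addRight (cs L p.2))
      (fun x => w x (p.1, 0, 0, 0, 0) (dsp p q) (dsp p r) (dsp p s))]
    apply Finset.sum_congr rfl
    intro x _
    rw [hw x p q r s]
    rfl
  have hmain := cancels_sum W 300 _ cycle_ok
  rw [← hmain]
  generalize simps = l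
  induction l with
  | nil => simp
  | cons s t ih =>
    simp only [List.map_cons, List.sum_cons, List.flatMap_cons, List.map_append, List.sum_append]
    rw [ih]
    congr 1
    simp only [Finset.sum_add_distrib, Finset.sum_sub_distrib, hsum, Spx.facets,
      List.map_cons, List.map_nil, List.sum_cons, List.sum_nil]
    ring

/-- the total volume of the torus with coordinate functions `a b c d` -/
def F (a b c d : A L → Pt → ℤ) : ℤ :=
  (simps.map (fun s => s.e * ∑ x : A L,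
    D4 (fun j => a x (s.v j)) (fun j => b x (s.v j)) (fun j => c x (s.v j))
      (fun j => d x (s.v j)))).sum

theorem F_kill (h : Fin 4 × A L → ℤ) (b c d : A L → Pt → ℤ)
    (hb : Compat L b) (hc : Compat L c) (hd : Compat L d) :
    F (fun x p => h (p.1, x + cs L p.2)) b c d = 0 := by
  set w : A L → Pt → Pt → Pt → Pt → ℤ := fun x p q r s =>
    om (h (p.1, x + cs L p.2)) (h (q.1, x + cs L q.2)) (h (r.1, x + cs L r.2))
      (h (s.1, x + cs L s.2))
      (b x q - b x p) (b x r - b x p) (b x s - b x p)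
      (c x q - c x p) (c x r - c x p) (c x s - c x p)
      (d x q - d x p) (d x r - d x p) (d x s - d x p) with hwdef
  have hw : ∀ x p q r s, w x p q r s =
      w (x + cs L p.2) (p.1, 0, 0, 0, 0) (dsp p q) (dsp p r) (dsp p s) := by
    intro x p q r s
    simp only [hwdef, add_cs_dsp]
    rw [hb x p q, hb x p r, hb x p s, hc x p q, hc x p r, hc x p s, hd x p q, hd x p r, hd x p s]
    simp [cs_zero, dsp]
  have h0 := facet_sum w hw
  have h1 : F (fun x p => h (p.1, x + cs L p.2)) b c d =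
      - (simps.map (fun s => s.e * ∑ x : A L,
      (w x s.p1 s.p2 s.p3 s.p4 - w x s.p0 s.p2 s.p3 s.p4 + w x s.p0 s.p1 s.p3 s.p4
        - w x s.p0 s.p1 s.p2 s.p4 + w x s.p0 s.p1 s.p2 s.p3))).sum := by
    rw [F, ← list_sum_neg]
    congr 1
    apply List.map_congr_left
    intro s _
    rw [← mul_neg, ← Finset.sum_neg_distrib]
    congr 1
    apply Finset.sum_congr rfl
    intro x _
    rw [D4_cob]
    rfl
  rw [h1, h0, neg_zero]

theorem F_sub (a a' b c d : A L → Pt → ℤ) :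
    F (fun x p => a x p - a' x p) b c d = F a b c d - F a' b c d := by
  simp only [F, D4_sub, Finset.sum_sub_distrib, mul_sub]
  generalize simps = l
  induction l with
  | nil => simp
  | cons s t ih =>
    simp only [List.map_cons, List.sum_cons]
    rw [ih]
    ring

theorem F_neg_of (a b c d a' b' c' d' : A L → Pt → ℤ)
    (h : ∀ (x : A L) (v : Fin 5 → Pt), D4 (fun j => a x (v j)) (fun j => b x (v j))
      (fun j => c x (v j)) (fun j => d x (v j)) = - D4 (fun j => a' x (v j))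
      (fun j => b' x (v j)) (fun j => c' x (v j)) (fun j => d' x (v j))) :
    F a b c d = - F a' b' c' d' := by
  simp only [F, h, Finset.sum_neg_distrib, mul_neg, list_sum_neg]

theorem F_swap12 (a b c d : A L → Pt → ℤ) : F a b c d = - F b a c d :=
  F_neg_of _ _ _ _ _ _ _ _ (fun _ _ => D4_swap12 _ _ _ _)
theorem F_swap13 (a b c d : A L → Pt → ℤ) : F a b c d = - F c b a d :=
  F_neg_of _ _ _ _ _ _ _ _ (fun _ _ => D4_swap13 _ _ _ _)
theorem F_swap14 (a b c d : A L → Pt → ℤ) : F a b c d = - F d b c a :=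
  F_neg_of _ _ _ _ _ _ _ _ (fun _ _ => D4_swap14 _ _ _ _)

/-- moving the vertices by `g` does not change the total volume -/
theorem F_invariant (g1 g2 g3 g4 : Fin 4 × A L → ℤ) :
    F (L := L) (fun x p => p.2.1 - g1 (p.1, x + cs L p.2))
      (fun x p => p.2.2.1 - g2 (p.1, x + cs L p.2))
      (fun x p => p.2.2.2.1 - g3 (p.1, x + cs L p.2))
      (fun x p => p.2.2.2.2 - g4 (p.1, x + cs L p.2)) =
    F (L := L) (fun _ p => p.2.1) (fun _ p => p.2.2.1) (fun _ p => p.2.2.2.1)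
      (fun _ p => p.2.2.2.2) := by
  have c1 := compat_1 L
  have c2 := compat_2 L
  have c3 := compat_3 L
  have c4 := compat_4 L
  have k2 := compat_sub L _ _ c2 (compat_h L g2)
  have k3 := compat_sub L _ _ c3 (compat_h L g3)
  have k4 := compat_sub L _ _ c4 (compat_h L g4)
  rw [F_sub, F_kill g1 _ _ _ k2 k3 k4, sub_zero]
  rw [F_swap12, F_sub, F_kill g2 _ _ _ c1 k3 k4, sub_zero, F_swap12, neg_neg]
  rw [F_swap13, F_sub, F_kill g3 _ _ _ c2 c1 k4, sub_zero, F_swap13, neg_neg]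
  rw [F_swap14, F_sub, F_kill g4 _ _ _ c2 c3 c1, sub_zero, F_swap14, neg_neg]

theorem F_std_ne : F (L := L) (fun _ p => p.2.1) (fun _ p => p.2.2.1) (fun _ p => p.2.2.2.1)
      (fun _ p => p.2.2.2.2) ≠ 0 := by
  have h := vol_ok
  have h2 : F (L := L) (fun _ p => p.2.1) (fun _ p => p.2.2.1) (fun _ p => p.2.2.2.1)
      (fun _ p => p.2.2.2.2) = (Fintype.card (A L) : ℤ) *
      (simps.map (fun s => s.e * D4 (fun j => (s.v j).2.1) (fun j => (s.v j).2.2.1)
    (fun j => (s.v j).2.2.2.1) (fun j => (s.v j).2.2.2.2))).sum := by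
    simp only [F, Finset.sum_const, Finset.card_univ, nsmul_eq_mul]
    rw [← List.sum_map_mul_left]
    congr 1
    apply List.map_congr_left
    intro s _
    ring
  rw [h2]
  apply mul_ne_zero _ h
  have : 0 < Fintype.card (A L) := Fintype.card_pos
  exact_mod_cast this.ne'

end Pool.Agent.H54.Tri4
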