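import Pool.Agent.H54.Tri4Deg

/-!
The finite graphs: quotients of the 1-skeleton of the periodic triangulation by `(Lℤ)⁴`.
Every vertex has degree at most 29, and for large `L` every colouring with colour classes of
at most `k` vertices has a rainbow `K₅`.
-/

set_option autoImplicit false

namespace Pool.Agent.H54.Tri4

variable {L : ℕ}

/-- translate of a vertex `p` of the periodic complex by `x`, modulo `L` -/
def vt (x : A L) (p : Pt) : Fin 4 × A L := (p.1, x + cs L p.2)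

theorem cs_neg (t : ℤ × ℤ × ℤ × ℤ) : cs L (-t) = - cs L t := by
  simp [cs]

/-- the torus graph -/
def G (L : ℕ) : SimpleGraph (Fin 4 × A L) where
  Adj u v := u ≠ v ∧ ∃ p ∈ nbr u.1, v = vt u.2 p
  symm := by
    constructor
    rintro u v ⟨h, p, hp, hv⟩
    refine ⟨h.symm, (u.1, -p.2.1, -p.2.2.1, -p.2.2.2.1, -p.2.2.2.2), ?_, ?_⟩
    · rw [hv]
      exact nbr_symm u.1 p hp
    · rw [hv]
      have : ((-p.2.1, -p.2.2.1, -p.2.2.2.1, -p.2.2.2.2) : ℤ × ℤ × ℤ × ℤ) = -p.2 := rfl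
      simp only [vt, this, cs_neg]
      rw [add_neg_cancel_right]
  loopless := by
    constructor
    rintro u ⟨h, _⟩
    exact h rfl

theorem degree_le (u : Fin 4 × A L) : ((G L).neighborSet u).ncard ≤ 29 := by
  classical
  have hsub : (G L).neighborSet u ⊆ (((nbr u.1).map (vt u.2)).toFinset : Set (Fin 4 × A L)) := by
    intro v hv
    obtain ⟨_, p, hp, rfl⟩ := hv
    simp only [List.coe_toFinset, List.mem_map, Set.mem_ofPred_eq]
    exact ⟨p, hp, rfl⟩
  calc ((G L).neighborSet u).ncard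
      ≤ (((nbr u.1).map (vt u.2)).toFinset : Set (Fin 4 × A L)).ncard :=
        Set.ncard_le_ncard hsub (Finset.finite_toSet _)
    _ = ((nbr u.1).map (vt u.2)).toFinset.card := Set.ncard_coe_finset _
    _ ≤ ((nbr u.1).map (vt u.2)).length := List.toFinset_card_le _
    _ = (nbr u.1).length := List.length_map _
    _ ≤ 29 := nbr_length u.1

theorem small_cast_ne (hL : 2 < L) (z : ℤ) (h1 : |z| ≤ 2) (h2 : (z : ZMod L) = 0) : z = 0 := by
  rw [ZMod.intCast_zmod_eq_zero_iff_dvd, ← Int.natAbs_dvd_natAbs] at h2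
  by_contra hne
  have h3 : 0 < z.natAbs := Int.natAbs_pos.mpr hne
  have h4 := Nat.le_of_dvd h3 h2
  have h5 : (z.natAbs : ℤ) = |z| := Int.natCast_natAbs z
  simp only [Int.natAbs_natCast] at h4
  omega

theorem vt_ne (hL : 2 < L) (u : Fin 4 × A L) (p : Pt) (hp : p ∈ nbr u.1) : u ≠ vt u.2 p := by
  intro h
  obtain ⟨⟨h1, h2, h3, h4⟩, hne⟩ := nbr_bound u.1 p hp
  apply hne
  have ht : u.1 = p.1 := congrArg Prod.fst h
  have hx : u.2 = u.2 + cs L p.2 := congrArg Prod.snd h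
  have hc : cs L p.2 = 0 := by
    have := hx.symm
    rwa [add_eq_left] at this
  simp only [cs, Prod.mk_eq_zero] at hc
  obtain ⟨c1, c2, c3, c4⟩ := hc
  have e1 := small_cast_ne hL _ h1 c1
  have e2 := small_cast_ne hL _ h2 c2
  have e3 := small_cast_ne hL _ h3 c3
  have e4 := small_cast_ne hL _ h4 c4
  obtain ⟨t, a, b, c, d⟩ := p
  simp only at e1 e2 e3 e4 ht
  subst e1 e2 e3 e4
  rw [ht]

theorem vt_dsp (x : A L) (p q : Pt) : vt x q = vt (vt x p).2 (dsp p q) := by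
  simp only [vt, add_cs_dsp]
  rfl

theorem edge_mem (s : Spx) (hs : s ∈ simps) : ∀ i j : Fin 5, i < j →
    dsp (s.v i) (s.v j) ∈ nbr (s.v i).1 := by
  have h := edges_ok s hs
  simp only [Spx.edgesOk, Bool.and_eq_true, decide_eq_true_eq] at h
  obtain ⟨⟨⟨⟨⟨⟨⟨⟨⟨h1, h2⟩, h3⟩, h4⟩, h5⟩, h6⟩, h7⟩, h8⟩, h9⟩, h10⟩ := h
  intro i j hij
  fin_cases i <;> fin_cases j <;>
    first
      | exact absurd hij (by decide)
      | assumption

theorem adj_of_lt (hL : 2 < L) (x : A L) (s : Spx) (hs : s ∈ simps) (i j : Fin 5) (hij : i < j) :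
    (G L).Adj (vt x (s.v i)) (vt x (s.v j)) := by
  have hm := edge_mem s hs i j hij
  have hv : vt x (s.v j) = vt (vt x (s.v i)).2 (dsp (s.v i) (s.v j)) := vt_dsp x _ _
  refine ⟨?_, dsp (s.v i) (s.v j), hm, hv⟩
  rw [hv]
  exact vt_ne hL _ _ hm

theorem adj_of_ne (hL : 2 < L) (x : A L) (s : Spx) (hs : s ∈ simps) (i j : Fin 5) (hij : i ≠ j) :
    (G L).Adj (vt x (s.v i)) (vt x (s.v j)) := by
  rcases lt_or_gt_of_ne hij with h | h
  · exact adj_of_lt hL x s hs i j h
  · exact (adj_of_lt hL x s hs j i h).symm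

theorem clique (hL : 2 < L) (x : A L) (s : Spx) (hs : s ∈ simps) :
    (G L).IsNClique 5 (Finset.univ.image (fun i : Fin 5 => vt x (s.v i))) := by
  have hinj : Function.Injective (fun i : Fin 5 => vt x (s.v i)) := by
    intro i j hij
    by_contra hne
    exact (adj_of_ne hL x s hs i j hne).ne hij
  refine ⟨?_, ?_⟩
  · intro u hu v hv huv
    simp only [Finset.coe_image, Finset.coe_univ, Set.image_univ, Set.mem_range] at hu hv
    obtain ⟨i, rfl⟩ := hu
    obtain ⟨j, rfl⟩ := hv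
    exact adj_of_ne hL x s hs i j (fun h => huv (by rw [h]))
  · rw [Finset.card_image_of_injective _ hinj]
    rfl

section colouring

variable (c : Fin 4 × A L → ℕ)

/-- monochromatic edges -/
def H : SimpleGraph (Fin 4 × A L) where
  Adj u v := (G L).Adj u v ∧ c u = c v
  symm := by
    constructor
    rintro u v ⟨h1, h2⟩
    exact ⟨h1.symm, h2.symm⟩
  loopless := by
    constructor
    rintro u ⟨h1, _⟩
    exact h1.ne rfl

/-- representative of the monochromatic component -/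
noncomputable def rep (u : Fin 4 × A L) : Fin 4 × A L := ((H c).connectedComponentMk u).out

theorem rep_reachable (u : Fin 4 × A L) : (H c).Reachable (rep c u) u := by
  apply SimpleGraph.ConnectedComponent.exact
  exact Quot.out_eq _

theorem rep_eq {u v : Fin 4 × A L} (h : (H c).Adj u v) : rep c u = rep c v := by
  simp only [rep]
  rw [SimpleGraph.ConnectedComponent.sound h.reachable]

theorem walk_displacement {u v : Fin 4 × A L} (w : (H c).Walk u v) :
    ∃ D : ℤ × ℤ × ℤ × ℤ, v.2 = u.2 + cs L D ∧ |D.1| ≤ 2 * w.length ∧ |D.2.1| ≤ 2 * w.length ∧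
      |D.2.2.1| ≤ 2 * w.length ∧ |D.2.2.2| ≤ 2 * w.length := by
  induction w with
  | nil => exact ⟨(0, 0, 0, 0), by simp [cs_zero]⟩
  | @cons u v' v h w ih =>
    obtain ⟨D, hD, h1, h2, h3, h4⟩ := ih
    obtain ⟨⟨_, p, hp, hv⟩, _⟩ := h
    obtain ⟨⟨b1, b2, b3, b4⟩, _⟩ := nbr_bound _ p hp
    refine ⟨p.2 + D, ?_, ?_, ?_, ?_, ?_⟩
    · rw [hD, hv, cs_add]
      simp only [vt]
      rw [add_assoc]
    all_goals
      simp only [SimpleGraph.Walk.length_cons, Nat.cast_add, Nat.cast_one, Prod.fst_add,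
        Prod.snd_add]
      rw [abs_le] at *
      constructor <;> linarith

theorem walk_mono {u v : Fin 4 × A L} (w : (H c).Walk u v) : ∀ z ∈ w.support, c z = c u := by
  induction w with
  | nil =>
    intro z hz
    simp only [SimpleGraph.Walk.support_nil, List.mem_singleton] at hz
    rw [hz]
  | @cons u v' v h w ih =>
    intro z hz
    simp only [SimpleGraph.Walk.support_cons, List.mem_cons] at hz
    rcases hz with rfl | hz
    · rfl
    · rw [ih z hz, h.2]

theorem exists_short [NeZero L] (k : ℕ) (hc : ∀ i : ℕ, {v | c v = i}.ncard ≤ k)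
    {u v : Fin 4 × A L} (h : (H c).Reachable u v) :
    ∃ w : (H c).Walk u v, w.length + 1 ≤ k := by
  classical
  obtain ⟨w⟩ := h
  refine ⟨w.bypass, ?_⟩
  have hp : w.bypass.IsPath := w.bypass_isPath
  have h1 : w.bypass.support.toFinset.card = w.bypass.support.length :=
    List.toFinset_card_of_nodup hp.support_nodup
  have h2 : (w.bypass.support.toFinset : Set (Fin 4 × A L)) ⊆ {z | c z = c u} := by
    intro z hz
    simp only [List.coe_toFinset, Set.mem_ofPred_eq] at hz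
    exact walk_mono c w.bypass z hz
  have h3 := Set.ncard_le_ncard h2 (Set.toFinite _)
  rw [Set.ncard_coe_finset, h1, SimpleGraph.Walk.length_support] at h3
  exact h3.trans (hc (c u))

/-- displacement from the representative to a vertex, in the coordinate `f` -/
noncomputable def disp (f : A L →+ ZMod L) (u : Fin 4 × A L) : ℤ :=
  (f (u.2 - (rep c u).2)).valMinAbs

theorem valMinAbs_cast [NeZero L] (z : ℤ) (h : 2 * |z| < L) : ((z : ZMod L)).valMinAbs = z := by
  rw [ZMod.valMinAbs_spec]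
  refine ⟨rfl, ?_⟩
  rw [Set.mem_Ioc]
  have h1 := le_abs_self z
  have h2 := neg_abs_le z
  constructor <;> linarith

theorem disp_adj [NeZero L] (k : ℕ) (hk : 4 * k < L) (hc : ∀ i : ℕ, {v | c v = i}.ncard ≤ k)
    (f : A L →+ ZMod L) (fz : ℤ × ℤ × ℤ × ℤ →+ ℤ) (hf : ∀ t, f (cs L t) = (fz t : ZMod L))
    (hfb : ∀ (t : ℤ × ℤ × ℤ × ℤ) (b : ℤ), |t.1| ≤ b → |t.2.1| ≤ b → |t.2.2.1| ≤ b →
      |t.2.2.2| ≤ b → |fz t| ≤ b)
    (u : Fin 4 × A L) (p : Pt) (hp : p ∈ nbr u.1) (hadj : (H c).Adj u (vt u.2 p)) :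
    disp c f (vt u.2 p) = disp c f u + fz p.2 := by
  obtain ⟨w, hw⟩ := exists_short c k hc (rep_reachable c u)
  obtain ⟨D, hD, h1, h2, h3, h4⟩ := walk_displacement c w
  obtain ⟨⟨b1, b2, b3, b4⟩, _⟩ := nbr_bound _ p hp
  have hDb : |fz D| ≤ 2 * w.length := hfb D _ h1 h2 h3 h4
  have hpb : |fz p.2| ≤ 2 := hfb p.2 2 b1 b2 b3 b4
  have hkL : (4 * k : ℤ) < L := by exact_mod_cast hk
  have hwk : (w.length : ℤ) + 1 ≤ k := by exact_mod_cast hw
  have e1 : disp c f u = fz D := by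
    have : u.2 - (rep c u).2 = cs L D := by rw [hD]; simp
    rw [disp, this, hf]
    apply valMinAbs_cast
    linarith
  have e2 : disp c f (vt u.2 p) = fz (D + p.2) := by
    have : (vt u.2 p).2 - (rep c u).2 = cs L (D + p.2) := by
      have h0 : (vt u.2 p).2 = u.2 + cs L p.2 := rfl
      rw [h0, hD, cs_add]
      abel
    rw [disp, ← rep_eq c hadj, this, hf]
    apply valMinAbs_cast
    rw [map_add]
    have := abs_add_le (fz D) (fz p.2)
    linarith
  rw [e1, e2, map_add]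

end colouring

theorem no_good [NeZero L] (k : ℕ) (hk : 4 * k < L) (hL : 2 < L) (c : Fin 4 × A L → ℕ)
    (hc : ∀ i : ℕ, {v | c v = i}.ncard ≤ k)
    (hr : ∀ s : Finset (Fin 4 × A L), (G L).IsNClique 5 s →
      ∃ x ∈ s, ∃ y ∈ s, x ≠ y ∧ c x = c y) : False := by
  -- coordinate homomorphisms
  let f1 : A L →+ ZMod L := AddMonoidHom.fst _ _
  let f2 : A L →+ ZMod L := (AddMonoidHom.fst _ _).comp (AddMonoidHom.snd _ _)
  let f3 : A L →+ ZMod L :=
    (AddMonoidHom.fst _ _).comp ((AddMonoidHom.snd _ _).comp (AddMonoidHom.snd _ _))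
  let f4 : A L →+ ZMod L :=
    (AddMonoidHom.snd _ _).comp ((AddMonoidHom.snd _ _).comp (AddMonoidHom.snd _ _))
  let z1 : ℤ × ℤ × ℤ × ℤ →+ ℤ := AddMonoidHom.fst _ _
  let z2 : ℤ × ℤ × ℤ × ℤ →+ ℤ := (AddMonoidHom.fst _ _).comp (AddMonoidHom.snd _ _)
  let z3 : ℤ × ℤ × ℤ × ℤ →+ ℤ :=
    (AddMonoidHom.fst _ _).comp ((AddMonoidHom.snd _ _).comp (AddMonoidHom.snd _ _))
  let z4 : ℤ × ℤ × ℤ × ℤ →+ ℤ :=
    (AddMonoidHom.snd _ _).comp ((AddMonoidHom.snd _ _).comp (AddMonoidHom.snd _ _))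
  have key : ∀ (s : Spx), s ∈ simps → ∀ (x : A L) (i j : Fin 5), i < j →
      c (vt x (s.v i)) = c (vt x (s.v j)) →
      ∀ (f : A L →+ ZMod L) (fz : ℤ × ℤ × ℤ × ℤ →+ ℤ), (∀ t, f (cs L t) = (fz t : ZMod L)) →
      (∀ (t : ℤ × ℤ × ℤ × ℤ) (b : ℤ), |t.1| ≤ b → |t.2.1| ≤ b → |t.2.2.1| ≤ b →
      |t.2.2.2| ≤ b → |fz t| ≤ b) →
      fz (s.v i).2 - disp c f (vt x (s.v i)) = fz (s.v j).2 - disp c f (vt x (s.v j)) := by
    intro s hs x i j hij hcol f fz hf hfb
    have hm := edge_mem s hs i j hij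
    have hv : vt x (s.v j) = vt (vt x (s.v i)).2 (dsp (s.v i) (s.v j)) := vt_dsp x _ _
    have hadj := adj_of_lt hL x s hs i j hij
    have h := disp_adj c k hk hc f fz hf hfb (vt x (s.v i)) (dsp (s.v i) (s.v j)) hm
      (by rw [← hv]; exact ⟨hadj, hcol⟩)
    rw [← hv] at h
    have h2 : fz (dsp (s.v i) (s.v j)).2 = fz (s.v j).2 - fz (s.v i).2 := by
      rw [← map_sub]
      rfl
    rw [h, h2]
    ring
  have hinv := F_invariant (L := L) (disp c f1) (disp c f2) (disp c f3) (disp c f4)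
  apply F_std_ne (L := L)
  rw [← hinv, F]
  apply List.sum_eq_zero
  intro y hy
  rw [List.mem_map] at hy
  obtain ⟨s, hs, rfl⟩ := hy
  apply mul_eq_zero_of_right
  apply Finset.sum_eq_zero
  intro x _
  obtain ⟨u, hu, v, hv, huv, hcuv⟩ := hr _ (clique hL x s hs)
  simp only [Finset.mem_image, Finset.mem_univ, true_and] at hu hv
  obtain ⟨i, rfl⟩ := hu
  obtain ⟨j, rfl⟩ := hv
  have hij : i ≠ j := fun h => huv (by rw [h])
  have main : ∀ i j : Fin 5, i < j → c (vt x (s.v i)) = c (vt x (s.v j)) →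
      D4 (fun j => (s.v j).2.1 - disp c f1 (vt x (s.v j)))
        (fun j => (s.v j).2.2.1 - disp c f2 (vt x (s.v j)))
        (fun j => (s.v j).2.2.2.1 - disp c f3 (vt x (s.v j)))
        (fun j => (s.v j).2.2.2.2 - disp c f4 (vt x (s.v j))) = 0 := by
    intro i j hij hcol
    apply D4_eq_zero _ _ _ _ i j hij.ne
    · exact key s hs x i j hij hcol f1 z1 (fun _ => rfl) (fun _ _ h _ _ _ => h)
    · exact key s hs x i j hij hcol f2 z2 (fun _ => rfl) (fun _ _ _ h _ _ => h)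
    · exact key s hs x i j hij hcol f3 z3 (fun _ => rfl) (fun _ _ _ _ h _ => h)
    · exact key s hs x i j hij hcol f4 z4 (fun _ => rfl) (fun _ _ _ _ _ h => h)
  rcases lt_or_gt_of_ne hij with h | h
  · exact main i j h hcuv
  · exact main j i h hcuv.symm

end Pool.Agent.H54.Tri4
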